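import Pool.Agent.V11260.QT.Edge

/-! The mean diffusion constant is positive. -/

set_option autoImplicit false

open MeasureTheory Set Filter
open scoped ENNReal Topology BigOperators

namespace Pool.Agent.V11260.QT

open Pool.Agent.W788.BK
open Pool.Agent.TH794.QD (GF F0 F1 Pf CH hol0 hol1)

theorem Pf_far (hO : S_OSC) (d : ℕ) (hd : 3 ≤ d) (E : ℝ) (hE : 2 * d < |E|) : Pf d 0 E = 0 := by
  have h := Pool.Agent.TH794.QD.GF_im hO d hd (E : ℂ) (by simp)
  have h0 := g0_far hO d hd E hE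
  unfold Pf
  rw [h0, zero_add, div_zero]

theorem Db_eq (hO : S_OSC) (d : ℕ) (hd : 3 ≤ d) :
    Db d = Real.pi⁻¹ * ∫ E in Icc (-(2 * d : ℝ)) (2 * d), Pf d 0 E := by
  have hd0 : (0 : ℝ) < d := by exact_mod_cast (by omega : 0 < d)
  unfold Db
  congr 1
  refine (setIntegral_eq_of_subset_of_forall_diff_eq_zero measurableSet_Icc
    (Icc_subset_Icc (by linarith) (by linarith)) fun E hE => ?_)
  apply Pf_far hO d hd
  by_contra hcon
  exact hE.2 (abs_le.1 (not_lt.1 hcon))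

theorem g1_low (hO : S_OSC) (d : ℕ) (hd : 3 ≤ d) (κ : ℝ) (hκ : 0 < κ) (hκ1 : κ ≤ 1) :
    ∃ m : ℝ, 0 < m ∧ ∀ E : ℝ, |E| ≤ 2 * d - κ → m ≤ (GF (F1 d) (E : ℂ)).im := by
  obtain ⟨m, hm, hl⟩ := Pool.Agent.TH794.QE.low_all d (by omega) κ hκ hκ1
  refine ⟨m, hm, fun E hE => ?_⟩
  have l1 := (Complex.continuous_im.tendsto _).comp
    (Pool.Agent.TH794.QE.lim3 _ _ (hol1 hO d hd) E)
  refine ge_of_tendsto l1 ?_
  filter_upwards [Ioc_mem_nhdsGT one_pos] with t ht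
  exact hl E t hE ht.1 ht.2

theorem Db_pos (hO : S_OSC) (d : ℕ) (hd : 3 ≤ d) : 0 < Db d := by
  have hd0 : (3 : ℝ) ≤ d := by exact_mod_cast hd
  obtain ⟨m, hm, hl⟩ := g1_low hO d hd 1 one_pos le_rfl
  obtain ⟨C, hC⟩ := isCompact_Icc.exists_bound_of_continuousOn
    (s := Icc (-1 : ℝ) 1) (g0_cont hO d hd).continuousOn
  have hC0 : 0 < C := by
    have h1 := hC 0 (by constructor <;> norm_num)
    have h2 := Complex.abs_im_le_norm (GF (F0 d) ((0 : ℝ) : ℂ))
    have h3 := (Pool.Agent.TH794.QD.GF_im hO d hd ((0 : ℝ) : ℂ) (by simp)).2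
    have h4 := hl 0 (by rw [abs_zero]; linarith)
    have h5 := le_abs_self (GF (F0 d) ((0 : ℝ) : ℂ)).im
    linarith
  unfold Db
  refine mul_pos (inv_pos.2 Real.pi_pos) ?_
  have hi : IntegrableOn (Pf d 0) (Icc (-(3 * d : ℝ)) (3 * d)) := by
    refine Measure.integrableOn_of_bounded (M := 1) (by simp)
      (Pf_meas hO d hd 0).aestronglyMeasurable (Eventually.of_forall fun E => ?_)
    rw [Real.norm_of_nonneg (Pool.Agent.TH794.QD.Pf_nonneg hO d hd 0 E le_rfl)]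
    exact Pool.Agent.TH794.QD.Pf_le hO d hd 0 E le_rfl
  have hsub : Icc (-1 : ℝ) 1 ⊆ Icc (-(3 * d : ℝ)) (3 * d) :=
    Icc_subset_Icc (by linarith) (by linarith)
  have h1 : ∫ E in Icc (-1 : ℝ) 1, m / C ≤ ∫ E in Icc (-1 : ℝ) 1, Pf d 0 E := by
    refine setIntegral_mono_on (by simp) (hi.mono_set hsub) measurableSet_Icc fun E hE => ?_
    have hE1 : |E| ≤ 1 := abs_le.2 hE
    have h2 := hl E (by linarith)
    have h3 := (Pool.Agent.TH794.QD.GF_im hO d hd (E : ℂ) (by simp)).2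
    have h4 := hC E hE
    have h5 := Complex.abs_im_le_norm (GF (F0 d) (E : ℂ))
    have h6 := le_abs_self (GF (F0 d) (E : ℂ)).im
    unfold Pf
    rw [zero_add]
    apply div_le_div₀ (by linarith) h2 (by linarith) (by linarith)
  have h2 : ∫ E in Icc (-1 : ℝ) 1, Pf d 0 E ≤ ∫ E in Icc (-(3 * d : ℝ)) (3 * d), Pf d 0 E :=
    setIntegral_mono_set hi (Eventually.of_forall fun E =>
      Pool.Agent.TH794.QD.Pf_nonneg hO d hd 0 E le_rfl) hsub.eventuallyLE
  have h3 : ∫ E in Icc (-1 : ℝ) 1, m / C = 2 * (m / C) := by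
    rw [setIntegral_const, Real.volume_real_Icc_of_le (by norm_num), smul_eq_mul]
    norm_num
  have h4 : 0 < m / C := by positivity
  linarith

end Pool.Agent.V11260.QT
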