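import Pool.Agent.V11260.QT.Lim

/-! The free density of states: support and mass. -/

set_option autoImplicit false

open MeasureTheory Set Filter
open scoped ENNReal Topology BigOperators

namespace Pool.Agent.V11260.QT

open Pool.Agent.W788.BK
open Pool.Agent.H4R2.LO (Zd)
open Pool.Agent.W788.MFP.Four (T NN adj NN_pos card_T)
open Pool.Agent.TH794.LL2 (gL)
open Pool.Agent.TH794.QD (GF F0 F1 Pf CH hol0 hol1 fin0)

theorem adj_abs {d L : ℕ} [NeZero L] (k : T d L) : |adj k| ≤ 2 * d := by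
  unfold adj
  refine (Finset.abs_sum_le_sum_abs _ _).trans ?_
  have h : ∀ i ∈ (Finset.univ : Finset (Fin d)),
      |2 * (ZMod.stdAddChar (k i) : ℂ).re| ≤ 2 := by
    intro i _
    have h1 := Complex.abs_re_le_norm (ZMod.stdAddChar (k i) : ℂ)
    have h2 : ‖(ZMod.stdAddChar (k i) : ℂ)‖ = 1 := by
      rw [ZMod.stdAddChar_apply]
      exact Circle.norm_coe _
    rw [abs_mul, abs_two]
    linarith
  refine (Finset.sum_le_sum h).trans ?_
  simp
  linarith

theorem inv_im (a E t : ℝ) :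
    ((((a : ℝ) : ℂ) - ((E : ℂ) + (t : ℂ) * Complex.I))⁻¹).im = t / ((a - E) ^ 2 + t ^ 2) := by
  rw [Complex.inv_im, Complex.normSq_apply]
  simp
  ring_nf

theorem gL_im {d L : ℕ} [NeZero L] (E t : ℝ) : (gL d L ((E : ℂ) + (t : ℂ) * Complex.I)).im =
    (NN d L)⁻¹ * ∑ k : T d L, t / ((adj k - E) ^ 2 + t ^ 2) := by
  unfold gL
  rw [← Complex.ofReal_inv, Complex.im_ofReal_mul, Complex.im_sum]
  congr 1
  exact Finset.sum_congr rfl fun k _ => inv_im _ _ _

theorem avg_le {d L : ℕ} [NeZero L] (f : T d L → ℝ) (c : ℝ) (h : ∀ k, f k ≤ c) :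
    (NN d L)⁻¹ * ∑ k : T d L, f k ≤ c := by
  have hN := NN_pos (d := d) (L := L)
  rw [inv_mul_le_iff₀ hN]
  refine (Finset.sum_le_card_nsmul _ _ c fun k _ => h k).trans (le_of_eq ?_)
  rw [Finset.card_univ, nsmul_eq_mul, card_T]

theorem le_avg {d L : ℕ} [NeZero L] (f : T d L → ℝ) (c : ℝ) (h : ∀ k, c ≤ f k) :
    c ≤ (NN d L)⁻¹ * ∑ k : T d L, f k := by
  have h1 := avg_le (fun k => -f k) (-c) fun k => neg_le_neg (h k)
  rw [Finset.sum_neg_distrib, mul_neg] at h1
  linarith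

theorem fin_im (hO : S_OSC) (d : ℕ) (hd : 3 ≤ d) (E t : ℝ) (ht : 0 < t) (ht1 : t ≤ 1) (n : ℕ) :
    |(gL d (n + 1) ((E : ℂ) + (t : ℂ) * Complex.I)).im -
      (GF (F0 d) ((E : ℂ) + (t : ℂ) * Complex.I)).im| ≤ 28 * d / t ^ 2 / (n + 1) := by
  have h1 := fin0 (L := n + 1) hO d hd t ht ht1 ((E : ℂ) + (t : ℂ) * Complex.I) (by simp)
  have e1 : 28 * (d : ℝ) / ((n + 1 : ℕ) : ℝ) / t ^ 2 = 28 * d / t ^ 2 / (n + 1) := by
    push_cast
    ring
  rw [e1] at h1
  rw [← Complex.sub_im]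
  exact (Complex.abs_im_le_norm _).trans h1

theorem GF_far (hO : S_OSC) (d : ℕ) (hd : 3 ≤ d) (E t : ℝ) (hE : 2 * d < |E|) (ht : 0 < t)
    (ht1 : t ≤ 1) : (GF (F0 d) ((E : ℂ) + (t : ℂ) * Complex.I)).im ≤ t / (|E| - 2 * d) ^ 2 := by
  apply Pool.Agent.TH794.QD.lim_le _ _ (28 * d / t ^ 2)
  intro n
  have h1 := (abs_le.1 (fin_im hO d hd E t ht ht1 n)).1
  have h2 : (gL d (n + 1) ((E : ℂ) + (t : ℂ) * Complex.I)).im ≤ t / (|E| - 2 * d) ^ 2 := by
    rw [gL_im]
    refine avg_le _ _ fun k => ?_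
    have h3 := adj_abs k
    have h4 : |E| - 2 * d ≤ |adj k - E| := by
      have := abs_sub_abs_le_abs_sub E (adj k)
      rw [abs_sub_comm] at this
      linarith
    have h5 : (|E| - 2 * d) ^ 2 ≤ (adj k - E) ^ 2 := by
      rw [← sq_abs (adj k - E)]
      exact pow_le_pow_left₀ (by linarith) h4 2
    apply div_le_div_of_nonneg_left ht.le (pow_pos (by linarith) 2)
    linarith [sq_nonneg t]
  linarith

/-- the imaginary part near the real axis -/
theorem im_near (hO : S_OSC) (d : ℕ) (hd : 3 ≤ d) (E t : ℝ) (ht : 0 < t) :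
    |(GF (F0 d) ((E : ℂ) + (t : ℂ) * Complex.I)).im - (GF (F0 d) (E : ℂ)).im| ≤
      CH d * t ^ (1 / 8 : ℝ) := by
  have h := hol0 hO d hd ((E : ℂ) + (t : ℂ) * Complex.I) (E : ℂ) (by simp [ht.le]) (by simp)
  rw [add_sub_cancel_left, norm_mul, Complex.norm_I, mul_one, Complex.norm_real,
    Real.norm_of_nonneg ht.le] at h
  rw [← Complex.sub_im]
  exact (Complex.abs_im_le_norm _).trans h

theorem t_tend (C : ℝ) : Tendsto (fun t : ℝ => C * t ^ (1 / 8 : ℝ)) (𝓝[>] 0) (𝓝 0) := by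
  have hc : Continuous fun t : ℝ => C * t ^ (1 / 8 : ℝ) := by
    have := Real.continuous_rpow_const (show (0 : ℝ) ≤ 1 / 8 by norm_num)
    fun_prop
  have l1 := (hc.tendsto 0).mono_left (nhdsWithin_le_nhds (s := Set.Ioi 0))
  rw [Real.zero_rpow (by norm_num), mul_zero] at l1
  exact l1

/-- **the support** -/
theorem g0_far (hO : S_OSC) (d : ℕ) (hd : 3 ≤ d) (E : ℝ) (hE : 2 * d < |E|) :
    (GF (F0 d) (E : ℂ)).im = 0 := by
  refine le_antisymm ?_ ?_
  · have h1 : Tendsto (fun t : ℝ => t / (|E| - 2 * d) ^ 2 + CH d * t ^ (1 / 8 : ℝ)) (𝓝[>] 0)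
        (𝓝 (0 + 0)) := by
      refine Tendsto.add ?_ (t_tend _)
      have : Tendsto (fun t : ℝ => t / (|E| - 2 * d) ^ 2) (𝓝 0) (𝓝 (0 / (|E| - 2 * d) ^ 2)) :=
        (continuous_id.div_const _).tendsto 0
      rw [zero_div] at this
      exact this.mono_left nhdsWithin_le_nhds
    rw [add_zero] at h1
    refine ge_of_tendsto h1 ?_
    filter_upwards [Ioc_mem_nhdsGT one_pos] with t ht
    have h2 := GF_far hO d hd E t hE ht.1 ht.2
    have h3 := (abs_le.1 (im_near hO d hd E t ht.1)).1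
    linarith
  · have h := Pool.Agent.TH794.QD.GF_im hO d hd (E : ℂ) (by simp)
    exact h.1.trans h.2

theorem poisson (a t R : ℝ) (ht : 0 < t) (hR : 0 ≤ R) :
    ∫ E in Icc (-R) R, t / ((a - E) ^ 2 + t ^ 2) =
      Real.arctan ((R - a) / t) + Real.arctan ((R + a) / t) := by
  rw [integral_Icc_eq_integral_Ioc, ← intervalIntegral.integral_of_le (by linarith)]
  have hd : ∀ E : ℝ, HasDerivAt (fun E => Real.arctan ((E - a) / t))
      (t / ((a - E) ^ 2 + t ^ 2)) E := by
    intro E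
    have h1 : HasDerivAt (fun E : ℝ => (E - a) / t) (1 / t) E :=
      ((hasDerivAt_id E).sub_const a).div_const t
    refine h1.arctan.congr_deriv ?_
    have : 0 < (a - E) ^ 2 + t ^ 2 := by positivity
    field_simp
    ring
  rw [intervalIntegral.integral_eq_sub_of_hasDerivAt (fun E _ => hd E)]
  · have e1 : (-R - a) / t = -((R + a) / t) := by ring
    rw [e1, Real.arctan_neg, sub_neg_eq_add]
  · apply Continuous.intervalIntegrable
    refine Continuous.div (by fun_prop) (by fun_prop) fun E => ?_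
    positivity

/-- the mass of the free local density of states -/
theorem mass_low (hO : S_OSC) (d : ℕ) (hd : 3 ≤ d) :
    Real.pi ≤ ∫ E in Icc (-(3 * d : ℝ)) (3 * d), (GF (F0 d) (E : ℂ)).im := by
  have hd0 : (0 : ℝ) < d := by exact_mod_cast (by omega : 0 < d)
  have hvol : volume.real (Icc (-(3 * d : ℝ)) (3 * d)) = 6 * d := by
    rw [Real.volume_real_Icc_of_le (by linarith)]
    ring
  have hfin : volume (Icc (-(3 * d : ℝ)) (3 * d)) ≠ ⊤ := by simp
  have hcont0 : Continuous fun E : ℝ => (GF (F0 d) (E : ℂ)).im :=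
    Complex.continuous_im.comp (g0_cont hO d hd)
  have hi0 : IntegrableOn (fun E : ℝ => (GF (F0 d) (E : ℂ)).im) (Icc (-(3 * d : ℝ)) (3 * d)) :=
    hcont0.continuousOn.integrableOn_Icc
  have key : ∀ t : ℝ, 0 < t → t ≤ 1 → 2 * Real.arctan (d / t) - 6 * d * (CH d * t ^ (1 / 8 : ℝ)) ≤
      ∫ E in Icc (-(3 * d : ℝ)) (3 * d), (GF (F0 d) (E : ℂ)).im := by
    intro t ht ht1
    apply Pool.Agent.TH794.QD.lim_le _ _ (28 * d / t ^ 2 * (6 * d))
    intro n
    have hgc : Continuous fun E : ℝ => (gL d (n + 1) ((E : ℂ) + (t : ℂ) * Complex.I)).im := by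
      simp only [gL_im]
      refine continuous_const.mul (continuous_finsetSum _ fun k _ => ?_)
      refine Continuous.div (by fun_prop) (by fun_prop) fun E => ?_
      positivity
    have hgi : IntegrableOn (fun E : ℝ => (gL d (n + 1) ((E : ℂ) + (t : ℂ) * Complex.I)).im)
        (Icc (-(3 * d : ℝ)) (3 * d)) := hgc.continuousOn.integrableOn_Icc
    have h1 : 2 * Real.arctan (d / t) ≤ ∫ E in Icc (-(3 * d : ℝ)) (3 * d),
        (gL d (n + 1) ((E : ℂ) + (t : ℂ) * Complex.I)).im := by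
      simp only [gL_im]
      rw [integral_const_mul, integral_finsetSum]
      · refine le_avg _ _ fun k => ?_
        rw [poisson _ t _ ht (by positivity)]
        have h2 := abs_le.1 (adj_abs k)
        have h3 : Real.arctan (d / t) ≤ Real.arctan ((3 * d - adj k) / t) := by
          apply Real.arctan_strictMono.monotone
          gcongr
          linarith
        have h4 : Real.arctan (d / t) ≤ Real.arctan ((3 * d + adj k) / t) := by
          apply Real.arctan_strictMono.monotone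
          gcongr
          linarith
        linarith
      · intro k _
        refine Continuous.integrableOn_Icc ?_
        refine Continuous.div (by fun_prop) (by fun_prop) fun E => ?_
        positivity
    have h5 : |(∫ E in Icc (-(3 * d : ℝ)) (3 * d),
        (gL d (n + 1) ((E : ℂ) + (t : ℂ) * Complex.I)).im) -
        ∫ E in Icc (-(3 * d : ℝ)) (3 * d), (GF (F0 d) (E : ℂ)).im| ≤
        (28 * d / t ^ 2 / (n + 1) + CH d * t ^ (1 / 8 : ℝ)) * (6 * d) := by
      rw [← integral_sub hgi hi0, ← Real.norm_eq_abs, ← hvol]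
      refine norm_setIntegral_le_of_norm_le_const (lt_top_iff_ne_top.2 hfin) fun E _ => ?_
      rw [Real.norm_eq_abs]
      have h6 := fin_im hO d hd E t ht ht1 n
      have h7 := im_near hO d hd E t ht
      have h8 := abs_sub_le (gL d (n + 1) ((E : ℂ) + (t : ℂ) * Complex.I)).im
        (GF (F0 d) ((E : ℂ) + (t : ℂ) * Complex.I)).im (GF (F0 d) (E : ℂ)).im
      linarith
    have h9 := (abs_le.1 h5).2
    have e1 : (28 * (d : ℝ) / t ^ 2 / (n + 1) + CH d * t ^ (1 / 8 : ℝ)) * (6 * d) =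
        28 * d / t ^ 2 * (6 * d) / (n + 1) + 6 * d * (CH d * t ^ (1 / 8 : ℝ)) := by ring
    rw [e1] at h9
    linarith
  have hlim : Tendsto (fun t : ℝ => 2 * Real.arctan (d / t) -
      6 * d * (CH d * t ^ (1 / 8 : ℝ))) (𝓝[>] 0) (𝓝 (2 * (Real.pi / 2) - 6 * d * 0)) := by
    refine Tendsto.sub (Tendsto.const_mul _ ?_) (Tendsto.const_mul _ (t_tend _))
    have h1 : Tendsto (fun t : ℝ => (d : ℝ) / t) (𝓝[>] 0) atTop := by
      have := tendsto_inv_nhdsGT_zero (𝕜 := ℝ)
      exact (this.const_mul_atTop hd0).congr fun t => by rw [div_eq_mul_inv]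
    exact (Real.tendsto_arctan_atTop.mono_right nhdsWithin_le_nhds).comp h1
  have e2 : 2 * (Real.pi / 2) - 6 * (d : ℝ) * 0 = Real.pi := by ring
  rw [e2] at hlim
  refine le_of_tendsto hlim ?_
  filter_upwards [Ioc_mem_nhdsGT one_pos] with t ht
  exact key t ht.1 ht.2

end Pool.Agent.V11260.QT
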