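import Pool.Agent.V11260.QT.ProfT

/-! The diffusion profile in real time: complex form. -/

set_option autoImplicit false

open MeasureTheory Set Filter
open scoped ENNReal Topology BigOperators

namespace Pool.Agent.V11260.QT

open Pool.Agent.W788.BK
open Pool.Agent.H4R2.LO (Zd)
open Pool.Agent.TH794.QD (Sol La GF F0 F1)
open Pool.Agent.TH794.QE (Rs RegE BAmp bamp0 bamp1)
open Pool.Agent.TH794.HK (ph Tg EngK)

theorem Lp_meas (d : ℕ) (γ0 γ1 : ℝ → ℂ)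
    (h0 : ∀ E, E ∈ S0 d →
      Tendsto (fun t : ℝ => GF (F0 d) ((E : ℂ) + (t : ℂ) * Complex.I)) (𝓝[>] 0) (𝓝 (γ0 E)))
    (h1 : ∀ E, E ∈ S0 d →
      Tendsto (fun t : ℝ => GF (F1 d) ((E : ℂ) + (t : ℂ) * Complex.I)) (𝓝[>] 0) (𝓝 (γ1 E))) :
    Measurable (Lp d γ0 γ1) := by
  have hg := ind_meas d _ (bamp0 d) γ0 h0
  have hg' := ind_meas d _ (bamp1 d) γ1 h1
  obtain ⟨g, hgd⟩ : ∃ g : ℝ → ℝ, g = (S0 d).indicator fun E => (γ0 E).im := ⟨_, rfl⟩
  obtain ⟨g', hgd'⟩ : ∃ g : ℝ → ℝ, g = (S0 d).indicator fun E => (γ1 E).im := ⟨_, rfl⟩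
  rw [← hgd] at hg
  rw [← hgd'] at hg'
  have e1 : Lp d γ0 γ1 = fun s => Real.pi⁻¹ * ∫ E in S0 d, g E *
      Real.exp (-(g' E / g E ^ 2 * s)) := by
    funext s
    unfold Lp
    congr 1
    refine setIntegral_congr_fun (S0_meas d) fun E hE => ?_
    rw [hgd, hgd', indicator_of_mem hE, indicator_of_mem hE]
  rw [e1]
  refine Measurable.const_mul ?_ _
  have h : StronglyMeasurable (Function.uncurry fun (s E : ℝ) =>
      g E * Real.exp (-(g' E / g E ^ 2 * s))) := by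
    apply Measurable.stronglyMeasurable
    unfold Function.uncurry
    fun_prop
  exact (h.integral_prod_right (ν := volume.restrict (S0 d))).measurable

theorem Lp_mem (d : ℕ) (γ0 γ1 : ℝ → ℂ) (hp : ∀ E ∈ S0 d, 0 ≤ (γ0 E).im ∧ 0 ≤ (γ1 E).im)
    (hi : IntegrableOn (fun E => (γ0 E).im) (S0 d)) (hm : ∫ E in S0 d, (γ0 E).im = Real.pi)
    (s : ℝ) (hs : 0 ≤ s) : 0 ≤ Lp d γ0 γ1 s ∧ Lp d γ0 γ1 s ≤ 1 := by
  have hpi := Real.pi_pos
  have h1 : 0 ≤ ∫ E in S0 d, (γ0 E).im * Real.exp (-((γ1 E).im / (γ0 E).im ^ 2 * s)) :=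
    setIntegral_nonneg (S0_meas d) fun E hE => mul_nonneg (hp E hE).1 (Real.exp_pos _).le
  have h2 : ∫ E in S0 d, (γ0 E).im * Real.exp (-((γ1 E).im / (γ0 E).im ^ 2 * s)) ≤ Real.pi := by
    rw [← hm]
    refine integral_mono_of_nonneg ?_ hi ?_
    · filter_upwards [ae_restrict_mem (S0_meas d)] with E hE
      exact mul_nonneg (hp E hE).1 (Real.exp_pos _).le
    · filter_upwards [ae_restrict_mem (S0_meas d)] with E hE
      refine mul_le_of_le_one_right (hp E hE).1 (Real.exp_le_one_iff.2 ?_)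
      have : 0 ≤ (γ1 E).im / (γ0 E).im ^ 2 * s :=
        mul_nonneg (div_nonneg (hp E hE).2 (sq_nonneg _)) hs
      linarith
  unfold Lp
  constructor
  · positivity
  · rw [inv_mul_le_iff₀ hpi]
    linarith

theorem ch_int {d : ℕ} {V : Zd d → ℝ} {a : Zd d} {ψ : ℝ → Zd d → ℂ} (h : Sol d V a ψ)
    (p : Fin d → ℝ) (T : ℝ) :
    IntegrableOn (fun s => ∑' x, ph p (x - a) * ((‖ψ s x‖ ^ 2 : ℝ) : ℂ)) (Ioc 0 T) := by
  have e1 : (fun s => ∑' x, ph p (x - a) * ((‖ψ s x‖ ^ 2 : ℝ) : ℂ)) =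
      fun s => ((Aw (wc p a) (ψ s) - 1 : ℝ) : ℂ) +
        ((Aw (ws p a) (ψ s) - 1 : ℝ) : ℂ) * Complex.I := by
    funext s
    rw [ph_sum p a (ψ s) (h.norm s).summable, Aw_one h s]
  rw [e1]
  have i1 : IntegrableOn (fun s => Aw (wc p a) (ψ s) - 1) (Ioc 0 T) := by
    refine Integrable.mono' (g := fun _ => (4 : ℝ)) (integrableOn_const (by simp))
      ((Aw_meas h _ (wc_0 p a) (wc_2 p a)).sub_const 1).aestronglyMeasurable ?_
    filter_upwards [ae_restrict_mem measurableSet_Ioc] with s hs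
    have a3 := Aw_nonneg _ (wc_0 p a) (ψ s)
    have a4 := Aw_two h _ (wc_0 p a) (wc_2 p a) s
    rw [Real.norm_eq_abs, abs_le]
    constructor <;> linarith
  have i2 : IntegrableOn (fun s => Aw (ws p a) (ψ s) - 1) (Ioc 0 T) := by
    refine Integrable.mono' (g := fun _ => (4 : ℝ)) (integrableOn_const (by simp))
      ((Aw_meas h _ (ws_0 p a) (ws_2 p a)).sub_const 1).aestronglyMeasurable ?_
    filter_upwards [ae_restrict_mem measurableSet_Ioc] with s hs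
    have a3 := Aw_nonneg _ (ws_0 p a) (ψ s)
    have a4 := Aw_two h _ (ws_0 p a) (ws_2 p a) s
    rw [Real.norm_eq_abs, abs_le]
    constructor <;> linarith
  exact i1.ofReal.add (i2.ofReal.mul_const _)

/-- the band without its centre, up to a null set -/
theorem S0_ae (d : ℕ) : S0 d =ᵐ[volume] Icc (-(2 * d : ℝ)) (2 * d) := by
  have h0 : ∀ᵐ E : ℝ, E ≠ 0 := by simp [ae_iff]
  have h1 : ∀ᵐ E : ℝ, E ≠ 2 * d := by simp [ae_iff]
  have h2 : ∀ᵐ E : ℝ, E ≠ -(2 * d) := by simp [ae_iff]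
  filter_upwards [h0, h1, h2] with E e0 e1 e2
  apply propext
  constructor
  · rintro ⟨-, h⟩
    exact abs_le.1 h.le
  · rintro ⟨h3, h4⟩
    refine ⟨abs_pos.2 e0, abs_lt.2 ⟨lt_of_le_of_ne h3 (Ne.symm e2), lt_of_le_of_ne h4 e1⟩⟩

/-- from the two real weights to the characteristic function -/
theorem prof_cx {d : ℕ} {V : Zd d → ℝ} {a : Zd d} {ψ : ℝ → Zd d → ℂ} (h : Sol d V a ψ)
    (p : Fin d → ℝ) (T ε : ℝ) (L : ℝ → ℝ) (hLm : Measurable L)
    (hL : ∀ s, 0 ≤ s → 0 ≤ L s ∧ L s ≤ 1)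
    (h1 : |∫ s in Ioc (0 : ℝ) T, (Aw (wc p a) (ψ s) - (1 + L s))| ≤ ε * T)
    (h2 : |∫ s in Ioc (0 : ℝ) T, (Aw (ws p a) (ψ s) - 1)| ≤ ε * T) :
    ‖∫ s in Ioc (0 : ℝ) T, ((∑' x, ph p (x - a) * ((‖ψ s x‖ ^ 2 : ℝ) : ℂ)) -
      ((L s : ℝ) : ℂ))‖ ≤ 2 * ε * T := by
  have e1 : ∀ s, (∑' x, ph p (x - a) * ((‖ψ s x‖ ^ 2 : ℝ) : ℂ)) - ((L s : ℝ) : ℂ) =
      ((Aw (wc p a) (ψ s) - (1 + L s) : ℝ) : ℂ) +
        ((Aw (ws p a) (ψ s) - 1 : ℝ) : ℂ) * Complex.I := by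
    intro s
    rw [ph_sum p a (ψ s) (h.norm s).summable, Aw_one h s]
    push_cast
    ring
  simp only [e1]
  have i1 : IntegrableOn (fun s => Aw (wc p a) (ψ s) - (1 + L s)) (Ioc 0 T) := by
    refine Integrable.mono' (g := fun _ => (4 : ℝ)) (integrableOn_const (by simp))
      ((Aw_meas h _ (wc_0 p a) (wc_2 p a)).sub (hLm.const_add 1)).aestronglyMeasurable ?_
    filter_upwards [ae_restrict_mem measurableSet_Ioc] with s hs
    obtain ⟨a1, a2⟩ := hL s hs.1.le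
    have a3 := Aw_nonneg _ (wc_0 p a) (ψ s)
    have a4 := Aw_two h _ (wc_0 p a) (wc_2 p a) s
    rw [Real.norm_eq_abs, abs_le]
    constructor <;> linarith
  have i2 : IntegrableOn (fun s => Aw (ws p a) (ψ s) - 1) (Ioc 0 T) := by
    refine Integrable.mono' (g := fun _ => (4 : ℝ)) (integrableOn_const (by simp))
      ((Aw_meas h _ (ws_0 p a) (ws_2 p a)).sub_const 1).aestronglyMeasurable ?_
    filter_upwards [ae_restrict_mem measurableSet_Ioc] with s hs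
    have a3 := Aw_nonneg _ (ws_0 p a) (ψ s)
    have a4 := Aw_two h _ (ws_0 p a) (ws_2 p a) s
    rw [Real.norm_eq_abs, abs_le]
    constructor <;> linarith
  rw [integral_add i1.ofReal (i2.ofReal.mul_const _), integral_mul_const,
    integral_complex_ofReal, integral_complex_ofReal]
  refine (norm_add_le _ _).trans ?_
  rw [norm_mul, Complex.norm_I, mul_one, Complex.norm_real, Complex.norm_real,
    Real.norm_eq_abs, Real.norm_eq_abs]
  linarith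

end Pool.Agent.V11260.QT
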