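import Pool.Agent.V11260.QT.Tau

/-! The Tauberian theorem for measurable functions with values in `[0, ∞]`. -/

set_option autoImplicit false

open MeasureTheory Set Filter
open scoped ENNReal Topology

namespace Pool.Agent.V11260.QT

theorem int_lin (a : ℝ) (ha : 0 < a) : ∫ τ in Ioi (0 : ℝ), Real.exp (-a * τ) * τ = 1 / a ^ 2 := by
  have h := Real.integral_rpow_mul_exp_neg_mul_Ioi (a := 2) (r := a) (by norm_num) ha
  have e1 : ∫ τ in Ioi (0 : ℝ), Real.exp (-a * τ) * τ =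
      ∫ t in Ioi (0 : ℝ), t ^ ((2 : ℝ) - 1) * Real.exp (-(a * t)) := by
    refine setIntegral_congr_fun measurableSet_Ioi fun t ht => ?_
    rw [show (2 : ℝ) - 1 = 1 by norm_num, Real.rpow_one, neg_mul]
    ring
  rw [e1, h]
  rw [Real.Gamma_two, mul_one]
  have : (2 : ℝ) = ((2 : ℕ) : ℝ) := by norm_num
  rw [this, Real.rpow_natCast, one_div_pow]

theorem ae_fin (F : ℝ → ℝ≥0∞) (hF : Measurable F) (c L : ℝ)
    (h : ∫⁻ s in Ioi (0 : ℝ), ENNReal.ofReal (Real.exp (-c * s)) * F s = ENNReal.ofReal L) :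
    ∀ᵐ s ∂(volume.restrict (Ioi (0 : ℝ))), F s < ⊤ := by
  have hm : Measurable fun s => ENNReal.ofReal (Real.exp (-c * s)) * F s := by fun_prop
  have h1 := ae_lt_top hm (μ := volume.restrict (Ioi (0 : ℝ))) (by
    rw [h]
    exact ENNReal.ofReal_ne_top)
  filter_upwards [h1] with s hs
  rw [lt_top_iff_ne_top] at hs ⊢
  intro h2
  rw [h2, ENNReal.mul_top] at hs
  · exact hs rfl
  · rw [Ne, ENNReal.ofReal_eq_zero, not_le]
    exact Real.exp_pos _

theorem toReal_int (F : ℝ → ℝ≥0∞) (hF : Measurable F) (c L : ℝ) (hL : 0 ≤ L)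
    (h : ∫⁻ s in Ioi (0 : ℝ), ENNReal.ofReal (Real.exp (-c * s)) * F s = ENNReal.ofReal L) :
    IntegrableOn (fun s => Real.exp (-c * s) * (F s).toReal) (Ioi 0) ∧
    ∫ s in Ioi (0 : ℝ), Real.exp (-c * s) * (F s).toReal = L := by
  have hfin := ae_fin F hF c L h
  have e1 : ∀ᵐ s ∂(volume.restrict (Ioi (0 : ℝ))),
      ENNReal.ofReal (Real.exp (-c * s)) * F s =
        ENNReal.ofReal (Real.exp (-c * s) * (F s).toReal) := by
    filter_upwards [hfin] with s hs
    rw [ENNReal.ofReal_mul (Real.exp_pos _).le, ENNReal.ofReal_toReal hs.ne]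
  have hm : Measurable fun s => Real.exp (-c * s) * (F s).toReal := by
    have := hF.ennreal_toReal
    fun_prop
  rw [lintegral_congr_ae e1] at h
  have hi : IntegrableOn (fun s => Real.exp (-c * s) * (F s).toReal) (Ioi 0) := by
    refine ⟨hm.aestronglyMeasurable, ?_⟩
    rw [hasFiniteIntegral_iff_ofReal (Eventually.of_forall fun s => by positivity), h]
    exact ENNReal.ofReal_lt_top
  refine ⟨hi, ?_⟩
  rw [← ofReal_integral_eq_lintegral_ofReal hi (Eventually.of_forall fun s => by positivity)] at h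
  exact (ENNReal.ofReal_eq_ofReal_iff (integral_nonneg fun s => by positivity) hL).1 h

/-- **the Tauberian theorem** -/
theorem tauF (D ε : ℝ) (hD : 0 ≤ D) (hε : 0 < ε) : ∃ n : ℕ, ∃ δ : ℝ, 0 < δ ∧
    ∀ F : ℝ → ℝ≥0∞, Measurable F → ∀ T A : ℝ, 0 < T → 0 ≤ A →
    (∀ k : ℕ, k ≤ n → ∃ L : ℝ, 0 ≤ L ∧
      ∫⁻ s in Ioi (0 : ℝ), ENNReal.ofReal (Real.exp (-(((k : ℝ) + 1) / T) * s)) * F s =
        ENNReal.ofReal L ∧ |A / T ^ 2 * L - 4 * D / ((k : ℝ) + 1) ^ 2| ≤ δ) →
    ∃ Y : ℝ, 0 ≤ Y ∧ ∫⁻ s in Ioc (0 : ℝ) T, F s = ENNReal.ofReal Y ∧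
      |A / T ^ 2 * Y - 2 * D| ≤ ε := by
  obtain ⟨n, δ, hδ, H⟩ := tau (4 * D) ε (by positivity) hε
  refine ⟨n, δ, hδ, fun F hF T A hT hA hk => ?_⟩
  obtain ⟨L0, hL0, h0, -⟩ := hk 0 (Nat.zero_le _)
  have hfin := ae_fin F hF _ _ h0
  obtain ⟨f, hf⟩ : ∃ f : ℝ → ℝ, f = fun s => (F s).toReal := ⟨_, rfl⟩
  have hfx : ∀ s, (F s).toReal = f s := fun s => by rw [hf]
  have hf0 : ∀ s, 0 ≤ f s := fun s => by rw [← hfx]; positivity
  have hfm : Measurable f := by rw [hf]; exact hF.ennreal_toReal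
  obtain ⟨i0, v0⟩ := toReal_int F hF _ _ hL0 h0
  simp only [hfx] at i0 v0
  have hint : ∀ k : ℕ, IntegrableOn (fun s => Real.exp (-(((k : ℝ) + 1) / T) * s) * f s)
      (Ioi 0) := by
    intro k
    refine Integrable.mono' i0 (by fun_prop) ?_
    filter_upwards [ae_restrict_mem measurableSet_Ioi] with s hs
    have hs0 : 0 < s := hs
    rw [Real.norm_of_nonneg (mul_nonneg (Real.exp_pos _).le (hf0 s))]
    refine mul_le_mul_of_nonneg_right (Real.exp_le_exp.2 ?_) (hf0 s)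
    have h1 : 0 ≤ (k : ℝ) / T * s := by positivity
    have e1 : -(((k : ℝ) + 1) / T) * s = -(((0 : ℕ) : ℝ) + 1) / T * s - (k : ℝ) / T * s := by
      push_cast
      ring
    rw [e1]
    have e2 : -((((0 : ℕ) : ℝ) + 1) / T) * s = -(((0 : ℕ) : ℝ) + 1) / T * s := by ring
    rw [e2]
    linarith
  -- the rescaled function
  obtain ⟨m, hm⟩ : ∃ m : ℝ → ℝ, m = fun τ => A / T * f (T * τ) := ⟨_, rfl⟩
  have hmx : ∀ τ, m τ = A / T * f (T * τ) := fun τ => by rw [hm]
  have hg : ∀ (k : ℕ) (τ : ℝ), Real.exp (-((k : ℝ) + 1) * τ) * m τ =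
      A / T * (fun s => Real.exp (-(((k : ℝ) + 1) / T) * s) * f s) (T * τ) := by
    intro k τ
    rw [hmx]
    simp only
    have e1 : -(((k : ℝ) + 1) / T) * (T * τ) = -((k : ℝ) + 1) * τ := by
      field_simp
    rw [e1]
    ring
  have hmi : ∀ k : ℕ, IntegrableOn (fun τ => Real.exp (-((k : ℝ) + 1) * τ) * m τ) (Ioi 0) := by
    intro k
    simp only [hg]
    refine Integrable.const_mul ?_ _
    have h1 := (integrableOn_Ioi_comp_mul_left_iff
      (fun s => Real.exp (-(((k : ℝ) + 1) / T) * s) * f s) 0 hT).2 (by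
        rw [mul_zero]
        exact hint k)
    exact h1
  have hmv : ∀ k : ℕ, ∫ τ in Ioi (0 : ℝ), Real.exp (-((k : ℝ) + 1) * τ) * m τ =
      A / T ^ 2 * ∫ s in Ioi (0 : ℝ), Real.exp (-(((k : ℝ) + 1) / T) * s) * f s := by
    intro k
    simp only [hg]
    rw [integral_const_mul]
    have h1 := integral_comp_mul_left_Ioi
      (fun s => Real.exp (-(((k : ℝ) + 1) / T) * s) * f s) 0 hT
    rw [mul_zero] at h1
    rw [h1, smul_eq_mul]
    field_simp
  have h1 := H m (fun τ => 4 * D * τ) (fun τ hτ => by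
      rw [hmx]
      exact mul_nonneg (by positivity) (hf0 _)) hmi (by fun_prop) (fun τ hτ => by
      refine ⟨by positivity, ?_⟩
      nlinarith) (fun k hkn => by
      obtain ⟨L, hL, h2, h3⟩ := hk k hkn
      obtain ⟨-, h4⟩ := toReal_int F hF _ _ hL h2
      simp only [hfx] at h4
      rw [hmv k, h4]
      have e1 : ∫ τ in Ioi (0 : ℝ), Real.exp (-((k : ℝ) + 1) * τ) * (4 * D * τ) =
          4 * D / ((k : ℝ) + 1) ^ 2 := by
        have e2 : ∀ τ : ℝ, Real.exp (-((k : ℝ) + 1) * τ) * (4 * D * τ) =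
            4 * D * (Real.exp (-((k : ℝ) + 1) * τ) * τ) := fun τ => by ring
        simp only [e2]
        rw [integral_const_mul, int_lin _ (by positivity)]
        ring
      rw [e1]
      exact h3)
  have e1 : ∫ τ in Ioc (0 : ℝ) 1, 4 * D * τ = 2 * D := by
    rw [← intervalIntegral.integral_of_le zero_le_one, intervalIntegral.integral_const_mul,
      integral_id]
    ring
  have e2 : ∫ τ in Ioc (0 : ℝ) 1, m τ = A / T ^ 2 * ∫ s in Ioc (0 : ℝ) T, f s := by
    simp only [hmx]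
    rw [← intervalIntegral.integral_of_le zero_le_one, intervalIntegral.integral_const_mul,
      intervalIntegral.integral_comp_mul_left (fun s => f s) hT.ne', mul_zero, mul_one,
      intervalIntegral.integral_of_le hT.le, smul_eq_mul]
    field_simp
  rw [e1, e2] at h1
  -- integrability on the window
  have hiT : IntegrableOn f (Ioc 0 T) := by
    have h2 : IntegrableOn (fun s => Real.exp 1 *
        (Real.exp (-((((0 : ℕ) : ℝ) + 1) / T) * s) * f s)) (Ioc 0 T) :=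
      (i0.mono_set Ioc_subset_Ioi_self).const_mul _
    refine Integrable.mono' h2 hfm.aestronglyMeasurable ?_
    filter_upwards [ae_restrict_mem measurableSet_Ioc] with s hs
    rw [Real.norm_of_nonneg (hf0 s), ← mul_assoc, ← Real.exp_add]
    refine le_mul_of_one_le_left (hf0 s) (Real.one_le_exp ?_)
    have h3 : s / T ≤ 1 := by
      rw [div_le_one hT]
      exact hs.2
    have e3 : 1 + -((((0 : ℕ) : ℝ) + 1) / T) * s = 1 - s / T := by
      push_cast
      ring
    rw [e3]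
    linarith
  refine ⟨∫ s in Ioc (0 : ℝ) T, f s, integral_nonneg hf0, ?_, h1⟩
  rw [ofReal_integral_eq_lintegral_ofReal hiT (Eventually.of_forall hf0)]
  refine lintegral_congr_ae ?_
  have h4 : ∀ᵐ s ∂(volume.restrict (Ioc (0 : ℝ) T)), F s < ⊤ :=
    ae_restrict_of_ae_restrict_of_subset Ioc_subset_Ioi_self hfin
  filter_upwards [h4] with s hs
  rw [← hfx, ENNReal.ofReal_toReal hs.ne]

end Pool.Agent.V11260.QT
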