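import Pool.Agent.V11260.QT.Lim
import Pool.Agent.V11260.QT.TauF

/-! The mean square displacement at weak disorder. -/

set_option autoImplicit false

open MeasureTheory Set Filter
open scoped ENNReal Topology BigOperators

namespace Pool.Agent.V11260.QT

open Pool.Agent.W788.BK
open Pool.Agent.H4R2.LO (Zd)
open Pool.Agent.TH794.QD (Sol La GF F0 F1 Pf)
open Pool.Agent.TH794.QE (Rs QM)

theorem msd_meas_t {d : ℕ} {V : Zd d → ℝ} {a : Zd d} {ψ : ℝ → Zd d → ℂ} (h : Sol d V a ψ)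
    (j : Fin d) : Measurable fun t => msd a j (ψ t) := by
  unfold msd
  refine Measurable.ennreal_tsum fun x => ?_
  have h1 := (h.cont x).measurable
  exact (h1.enorm.pow_const 2).const_mul _

theorem small_ev (C p δ : ℝ) (hp : 0 < p) (hδ : 0 < δ) : ∀ᶠ l in 𝓝[>] (0 : ℝ), C * l ^ p ≤ δ := by
  filter_upwards [pow_ev (C / δ) p 0 hp] with l hl
  rw [Real.rpow_zero, div_mul_eq_mul_div, div_le_one hδ] at hl
  exact hl

/-- **the mean square displacement** -/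
theorem msd_time (hES : S_ES) (hTH : S_THIRD) (hFL : S_FLUCT) (hIN : S_INV)
    (hSU : S_SUP) (hQB : S_QB) (hLO : S_LOW) (hAD : S_ADM) (hFA : S_FAC) (hO : S_OSC)
    (d : ℕ) (hd : 3 ≤ d) (b v ε : ℝ) (hb : 0 < b) (hv : 0 < v) (hε : 0 < ε) :
    ∃ R l0 : ℝ, 0 < R ∧ 0 < l0 ∧ ∀ l : ℝ, 0 < l → l ≤ l0 →
      ∀ (μ : Measure ℝ), IsProbabilityMeasure μ → (∀ᵐ s ∂μ, |s| ≤ b) →
      ∀ M V : ℝ, ∫ s, s ∂μ = M → ∫ s, (s - M) ^ 2 ∂μ = V → v ≤ V →
      ∃ G : Set (Zd d → ℝ), MeasurableSet G ∧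
        1 - Real.exp (-l ^ (-(1 / 102) : ℝ)) ≤ (Measure.infinitePi fun _ : Zd d => μ).real G ∧
        ∀ ω ∈ G, (∀ x, |l * (ω x - M)| ≤ 2 * b * l) ∧
          (∀ a : Zd d, ‖a‖ ≤ Real.exp (l ^ (-(1 / 102) : ℝ)) →
            ∀ e : ℝ, |2 * d + l * M - e| ≤ 3 * d → ∀ η : ℝ, l ^ (83 / 41 : ℝ) ≤ η →
            η ≤ l ^ 2 * V → ∀ u : Zd d → ℂ, Rs d (fun x => 2 * d + l * ω x) a e η u →
            ∀ j : Fin d, (Summable fun x => ((x j : ℝ) - a j) ^ 2 * ‖u x‖ ^ 2) ∧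
              |η ^ 2 * (l ^ 2 * V) * QM a j u - 2 * Pf d (η / (l ^ 2 * V)) (2 * d + l * M - e)| ≤
                l ^ (1 / 301 : ℝ)) ∧
          ∀ a : Zd d, ‖a‖ ≤ Real.exp (l ^ (-(1 / 102) : ℝ)) →
          ∀ ψ, Sol d (fun x => 2 * d + l * ω x) a ψ → ∀ T : ℝ, R / l ^ 2 ≤ T →
          T ≤ l ^ (-(85 / 42) : ℝ) → ∀ j : Fin d,
            ∃ Y : ℝ, 0 ≤ Y ∧ ∫⁻ t in Ioc (0 : ℝ) T, msd a j (ψ t) = ENNReal.ofReal Y ∧
              |(l ^ 2 * V) / T ^ 2 * Y - 2 * Db d| ≤ ε := by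
  obtain ⟨n, δ, hδ, HT⟩ := tauF (Db d) ε (Db_nonneg hO d hd) hε
  have hu := (Db_tend hO d hd)
  rw [Metric.tendsto_nhds] at hu
  obtain ⟨u0, hu0, hu1⟩ := ev_ex (hu (δ / 8) (by positivity))
  obtain ⟨u2, hu2⟩ : ∃ u2, u2 = min u0 1 := ⟨_, rfl⟩
  have hu20 : 0 < u2 := by rw [hu2]; exact lt_min hu0 one_pos
  have hu21 : u2 ≤ 1 := by rw [hu2]; exact min_le_right _ _
  have hu2u : u2 ≤ u0 := by rw [hu2]; exact min_le_left _ _
  obtain ⟨l1, hl1, hlaw⟩ := qm_law hES hTH hFL hIN hSU hQB hLO hAD hFA hO d hd b v hb hv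
  obtain ⟨l2, hl2, hnum⟩ := ev_ex ((small_ev (d * (2 * b) ^ (1 / 300 : ℝ)) (1 / 300) (δ / 16)
    (by norm_num) (by positivity)).and ((small_ev (2592 * 64 * b ^ 6) 6 (δ / 16) (by norm_num)
    (by positivity)).and ((pow_ev 2 (83 / 41) (85 / 42) (by norm_num)).and
    (pow_ev ((2 * b) ^ (1 / 300 : ℝ)) (1 / 300) (1 / 301) (by norm_num)))))
  refine ⟨(n + 1) / (2 * v * u2), min l1 l2, by positivity, lt_min hl1 hl2, ?_⟩
  intro l hl hll μ hμ hμb M V hM hV hvV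
  obtain ⟨hbl, hl3⟩ := hlaw l hl (hll.trans (min_le_left _ _))
  obtain ⟨n1, n2, n3, n4⟩ := hnum l hl (hll.trans (min_le_right _ _))
  obtain ⟨hVb, G, hG, hGP, hGL⟩ := hl3 μ hμ hμb M V hM hV hvV
  refine ⟨G, hG, hGP, fun ω hω => ?_⟩
  obtain ⟨hωb, hωL⟩ := hGL ω hω
  have hV0 : 0 < V := hv.trans_le hvV
  refine ⟨hωb, ?_, fun a ha ψ hψ T hT1 hT2 j => ?_⟩
  · intro a ha e he η hη1 hη2 u hu j
    have hη0 : 0 < η := lt_of_lt_of_le (Real.rpow_pos_of_pos hl _) hη1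
    have h1 : 4 * b ^ 2 * l ^ 2 = (2 * b * l) ^ 2 := by ring
    have hη3 : η ≤ 1 := by
      refine hη2.trans ?_
      calc l ^ 2 * V ≤ l ^ 2 * (4 * b ^ 2) := by gcongr
        _ = (2 * b * l) ^ 2 := by rw [← h1]; ring
        _ ≤ 1 := pow_le_one₀ (by positivity) (by linarith)
    refine ⟨(Pool.Agent.TH794.QE.QM_eq hu (fun x => -(l * (ω x - M))) (2 * d + l * M) 1
      (fun x => by ring) hη0 hη3 j).1, (hωL a ha e he η hη1 hη2 u hu j).trans ?_⟩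
    rw [Real.mul_rpow (by positivity) hl.le]
    exact n4
  have hT : 0 < T := lt_of_lt_of_le (by positivity) hT1
  have hd0 : (3 : ℝ) ≤ d := by exact_mod_cast hd
  refine HT (fun t => msd a j (ψ t)) (msd_meas_t hψ j) T (l ^ 2 * V) hT (by positivity) ?_
  intro k hk
  obtain ⟨η, hη⟩ : ∃ η, η = ((k : ℝ) + 1) / (2 * T) := ⟨_, rfl⟩
  have hη0 : 0 < η := by rw [hη]; positivity
  have hkn : (k : ℝ) ≤ n := by exact_mod_cast hk
  -- the size of `η`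
  have hηu : η ≤ l ^ 2 * v * u2 := by
    rw [hη, div_le_iff₀ (by positivity)]
    have h1 : ((n : ℝ) + 1) / (2 * v * u2) / l ^ 2 * (l ^ 2 * v * u2 * 2) = n + 1 := by
      field_simp
    calc (k : ℝ) + 1 ≤ n + 1 := by linarith
      _ = ((n : ℝ) + 1) / (2 * v * u2) / l ^ 2 * (l ^ 2 * v * u2 * 2) := h1.symm
      _ ≤ T * (l ^ 2 * v * u2 * 2) := by gcongr
      _ = _ := by ring
  have hηV : η ≤ l ^ 2 * V := by
    refine hηu.trans ?_
    calc l ^ 2 * v * u2 ≤ l ^ 2 * V * 1 := by gcongr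
      _ = _ := mul_one _
  have huu : η / (l ^ 2 * V) ≤ u0 := by
    rw [div_le_iff₀ (by positivity)]
    refine hηu.trans ?_
    calc l ^ 2 * v * u2 ≤ l ^ 2 * V * u0 := by gcongr
      _ = _ := by ring
  have hηl : l ^ (83 / 41 : ℝ) ≤ η := by
    have h1 : l ^ (85 / 42 : ℝ) * T ≤ 1 := by
      calc l ^ (85 / 42 : ℝ) * T ≤ l ^ (85 / 42 : ℝ) * l ^ (-(85 / 42) : ℝ) := by gcongr
        _ = 1 := by rw [← Real.rpow_add hl]; norm_num
    rw [hη, le_div_iff₀ (by positivity)]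
    calc l ^ (83 / 41 : ℝ) * (2 * T) = (2 * l ^ (83 / 41 : ℝ)) * T := by ring
      _ ≤ l ^ (85 / 42 : ℝ) * T := by gcongr
      _ ≤ 1 := h1
      _ ≤ (k : ℝ) + 1 := by
          have : (0 : ℝ) ≤ k := Nat.cast_nonneg k
          linarith
  have hs24 : l ^ 2 * V ≤ 4 * b ^ 2 * l ^ 2 := by
    calc l ^ 2 * V ≤ l ^ 2 * (4 * b ^ 2) := by gcongr
      _ = _ := by ring
  have hη1 : η ≤ 1 := by
    refine (hηV.trans hs24).trans ?_
    have h1 : 4 * b ^ 2 * l ^ 2 = (2 * b * l) ^ 2 := by ring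
    rw [h1]
    exact pow_le_one₀ (by positivity) (by linarith)
  obtain ⟨L, hL0, hL1, hL2⟩ := msd_lap (by omega : 1 ≤ d) hψ (fun x => -(l * (ω x - M)))
    (2 * d + l * M) 1 (2 * b * l) (fun x => by ring) (by positivity)
    (fun x => by rw [one_mul, abs_neg]; exact hωb x) (by linarith) η hη0 hη1 j
    (Pf d (η / (l ^ 2 * V))) (Pf_meas hO d hd _)
    (fun E _ => ⟨Pool.Agent.TH794.QD.Pf_nonneg hO d hd _ E (by positivity),
      Pool.Agent.TH794.QD.Pf_le hO d hd _ E (by positivity)⟩) (l ^ 2 * V)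
    ((2 * b * l) ^ (1 / 300 : ℝ)) (by positivity) (by positivity)
    (fun e he u hu => hωL a ha e he η hηl hηV u hu j)
  refine ⟨L, hL0, ?_, ?_⟩
  · have e1 : ((k : ℝ) + 1) / T = 2 * η := by
      rw [hη]
      field_simp
    rw [e1]
    exact hL1
  · have hlim := hu1 (η / (l ^ 2 * V)) (by positivity) huu
    rw [Real.dist_eq] at hlim
    have herr : d * (2 * b * l) ^ (1 / 300 : ℝ) + 2592 * η ^ 2 * (l ^ 2 * V) ≤ δ / 8 := by
      have a1 : d * (2 * b * l) ^ (1 / 300 : ℝ) ≤ δ / 16 := by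
        rw [Real.mul_rpow (by positivity) hl.le, ← mul_assoc]
        exact n1
      have a2 : 2592 * η ^ 2 * (l ^ 2 * V) ≤ δ / 16 := by
        have e6 : l ^ (6 : ℝ) = l ^ 6 := by
          rw [← Real.rpow_natCast]
          norm_num
        rw [e6] at n2
        refine le_trans ?_ n2
        have hη4 : η ≤ 4 * b ^ 2 * l ^ 2 := hηV.trans hs24
        calc 2592 * η ^ 2 * (l ^ 2 * V) ≤
            2592 * (4 * b ^ 2 * l ^ 2) ^ 2 * (4 * b ^ 2 * l ^ 2) := by gcongr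
          _ = _ := by ring
      linarith
    have h5 : |η ^ 2 * (l ^ 2 * V) * L - Db d| ≤ δ / 4 := by
      have h6 := abs_sub_le (η ^ 2 * (l ^ 2 * V) * L)
        (Real.pi⁻¹ * ∫ E in Icc (-(3 * d : ℝ)) (3 * d), Pf d (η / (l ^ 2 * V)) E) (Db d)
      linarith
    have e1 : l ^ 2 * V / T ^ 2 * L - 4 * Db d / ((k : ℝ) + 1) ^ 2 =
        4 / ((k : ℝ) + 1) ^ 2 * (η ^ 2 * (l ^ 2 * V) * L - Db d) := by
      rw [hη]
      field_simp
      ring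
    rw [e1, abs_mul, abs_of_pos (by positivity)]
    have h7 : 4 / ((k : ℝ) + 1) ^ 2 ≤ 4 := by
      rw [div_le_iff₀ (by positivity)]
      have : (0 : ℝ) ≤ k := Nat.cast_nonneg k
      nlinarith
    calc 4 / ((k : ℝ) + 1) ^ 2 * |η ^ 2 * (l ^ 2 * V) * L - Db d| ≤ 4 * (δ / 4) := by gcongr
      _ = δ := by ring

end Pool.Agent.V11260.QT
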