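import Pool.Agent.V11260.QT.Far

/-! The Laplace transform of the mean square displacement, deterministic part. -/

set_option autoImplicit false

open MeasureTheory Set Filter
open scoped ENNReal Topology BigOperators

namespace Pool.Agent.V11260.QT

open Pool.Agent.H4R2.LO (Zd)
open Pool.Agent.TH794.QD (Sol La)
open Pool.Agent.TH794.QE (Rs QM)

variable {d : ℕ} {V : Zd d → ℝ} {a : Zd d} {ψ : ℝ → Zd d → ℂ}

theorem msd_meas (h : Sol d V a ψ) (η : ℝ) (hη : 0 < η) (j : Fin d) :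
    Measurable fun E => msd a j (fun x => Complex.I * La ψ E η x) := by
  unfold msd
  refine Measurable.ennreal_tsum fun x => ?_
  have h1 := (Lap_cont η hη (fun s => ψ s x) (h.cont x) (fun s => h.le_one s x)).measurable
  have h2 : Measurable fun E => La ψ E η x := h1
  exact ((h2.const_mul Complex.I).enorm.pow_const 2).const_mul _

theorem tail_num (d : ℝ) (hd : 1 ≤ d) (β E : ℝ) (hβ : β ≤ d / 2) (hE : 3 * d < |E|) :
    4 / (|E| - (2 * d + β)) ^ 4 ≤ 5184 * (1 + E ^ 2)⁻¹ := by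
  have h1 : |E| / 6 ≤ |E| - (2 * d + β) := by linarith
  have hE0 : 0 < |E| := by linarith
  have h2 : (|E| / 6) ^ 4 ≤ (|E| - (2 * d + β)) ^ 4 := pow_le_pow_left₀ (by positivity) h1 4
  have h3 : 4 / (|E| - (2 * d + β)) ^ 4 ≤ 4 / (|E| / 6) ^ 4 := by
    apply div_le_div_of_nonneg_left (by norm_num) (by positivity) h2
  refine h3.trans ?_
  have h4 : (|E| / 6) ^ 4 = (E ^ 2) ^ 2 / 1296 := by
    rw [← sq_abs E]
    ring
  have h5 : 9 ≤ E ^ 2 := by
    rw [← sq_abs]
    nlinarith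
  rw [h4, ← div_eq_mul_inv, div_le_div_iff₀ (by positivity) (by positivity)]
  nlinarith

/-- **the Laplace transform of the mean square displacement** -/
theorem msd_lap (hd : 1 ≤ d) (h : Sol d V a ψ) (ξ : Zd d → ℝ) (c0 σ β : ℝ)
    (hV : ∀ x, V x = c0 - σ * ξ x) (hβ0 : 0 ≤ β) (hβ : ∀ x, |σ * ξ x| ≤ β) (hβd : β ≤ (d : ℝ) / 2)
    (η : ℝ) (hη : 0 < η) (hη1 : η ≤ 1) (j : Fin d) (P : ℝ → ℝ)
    (hP : Measurable P) (hP1 : ∀ E : ℝ, |E| ≤ 3 * d → 0 ≤ P E ∧ P E ≤ 1) (s2 ε : ℝ) (hs2 : 0 < s2)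
    (hε : 0 ≤ ε)
    (hlaw : ∀ e, |c0 - e| ≤ 3 * d → ∀ u, Rs d V a e η u →
      |η ^ 2 * s2 * QM a j u - 2 * P (c0 - e)| ≤ ε) :
    ∃ L : ℝ, 0 ≤ L ∧ ∫⁻ s in Ioi (0 : ℝ), ENNReal.ofReal (Real.exp (-(2 * η) * s)) *
        msd a j (ψ s) = ENNReal.ofReal L ∧
      |η ^ 2 * s2 * L - Real.pi⁻¹ * ∫ E in Icc (-(3 * d : ℝ)) (3 * d), P E| ≤
        d * ε + 2592 * η ^ 2 * s2 := by
  have hpi := Real.pi_pos
  have hd1 : (1 : ℝ) ≤ d := by exact_mod_cast hd
  obtain ⟨q, hq⟩ : ∃ q : ℝ → ℝ, q = fun e => QM a j (fun x => Complex.I * La ψ e η x) := ⟨_, rfl⟩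
  have hqe : ∀ e, QM a j (fun x => Complex.I * La ψ e η x) = q e := fun e => by rw [hq]
  have hrs := fun e => rs_La h e η hη
  have hfe : ∀ e, msd a j (fun x => Complex.I * La ψ e η x) = ENNReal.ofReal (q e) := by
    intro e
    rw [msd_QM a j _ (Pool.Agent.TH794.QE.QM_eq (hrs e) ξ c0 σ hV hη hη1 j).1, hqe]
  have hq0 : ∀ e, 0 ≤ q e := by
    intro e
    rw [← hqe]
    exact tsum_nonneg fun _ => mul_nonneg (sq_nonneg _) (sq_nonneg _)
  have hqm : Measurable q := by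
    have h1 : q = fun e => (msd a j (fun x => Complex.I * La ψ e η x)).toReal := by
      funext e
      rw [hfe, ENNReal.toReal_ofReal (hq0 e)]
    rw [h1]
    exact (msd_meas h η hη j).ennreal_toReal
  obtain ⟨I, hI⟩ : ∃ I : Set ℝ, I = Icc (c0 - 3 * d) (c0 + 3 * d) := ⟨_, rfl⟩
  have hIm : MeasurableSet I := by rw [hI]; exact measurableSet_Icc
  have hIe : ∀ e, e ∈ I ↔ |c0 - e| ≤ 3 * d := by
    intro e
    rw [hI, mem_Icc, abs_le]
    constructor
    · rintro ⟨h1, h2⟩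
      constructor <;> linarith
    · rintro ⟨h1, h2⟩
      constructor <;> linarith
  have hc : 0 < η ^ 2 * s2 := by positivity
  have hlq : ∀ e ∈ I, |η ^ 2 * s2 * q e - 2 * P (c0 - e)| ≤ ε := by
    intro e he
    rw [← hqe]
    exact hlaw e ((hIe e).1 he) _ (hrs e)
  have hfin : volume I ≠ ⊤ := by rw [hI]; simp
  have hqI : IntegrableOn q I := by
    refine Measure.integrableOn_of_bounded (M := (2 + ε) / (η ^ 2 * s2)) hfin
      hqm.aestronglyMeasurable ?_
    filter_upwards [ae_restrict_mem hIm] with e he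
    rw [Real.norm_of_nonneg (hq0 e), le_div_iff₀ hc]
    have h1 := (abs_le.1 (hlq e he)).2
    have h2 := (hP1 (c0 - e) ((hIe e).1 he)).2
    linarith
  have htail : ∀ e ∈ Iᶜ, q e ≤ 5184 * (1 + (c0 - e) ^ 2)⁻¹ := by
    intro e he
    have he' : 3 * (d : ℝ) < |c0 - e| := by
      by_contra hcon
      exact he ((hIe e).2 (not_lt.1 hcon))
    have h1 := (QM_far (hrs e) hV hη hη1 hβ0 hβ (by linarith) j).2
    rw [hqe] at h1
    exact h1.trans (tail_num d hd1 β (c0 - e) hβd he')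
  have hgi : Integrable fun e : ℝ => 5184 * (1 + (c0 - e) ^ 2)⁻¹ := by
    refine Integrable.const_mul ?_ _
    exact integrable_inv_one_add_sq.comp_sub_left c0
  have hqJ : IntegrableOn q Iᶜ := by
    refine Integrable.mono' hgi.integrableOn hqm.aestronglyMeasurable ?_
    filter_upwards [ae_restrict_mem hIm.compl] with e he
    rw [Real.norm_of_nonneg (hq0 e)]
    exact htail e he
  have hqi : Integrable q := by
    rw [← integrableOn_univ, ← union_compl_self I]
    exact hqI.union hqJ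
  have hsplit := integral_add_compl hIm hqi
  have hJ0 : 0 ≤ ∫ e in Iᶜ, q e := integral_nonneg fun e => hq0 e
  have hJ1 : ∫ e in Iᶜ, q e ≤ 5184 * Real.pi := by
    have h1 : ∫ e in Iᶜ, q e ≤ ∫ e in Iᶜ, 5184 * (1 + (c0 - e) ^ 2)⁻¹ :=
      setIntegral_mono_on hqJ hgi.integrableOn hIm.compl htail
    refine h1.trans ?_
    have h2 : ∫ e in Iᶜ, 5184 * (1 + (c0 - e) ^ 2)⁻¹ ≤ ∫ e, 5184 * (1 + (c0 - e) ^ 2)⁻¹ :=
      setIntegral_le_integral hgi (Eventually.of_forall fun e => by positivity)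
    refine h2.trans (le_of_eq ?_)
    rw [integral_const_mul]
    congr 1
    rw [integral_sub_left_eq_self (fun e : ℝ => (1 + e ^ 2)⁻¹) volume c0]
    exact integral_univ_inv_one_add_sq
  have hPi : IntegrableOn (fun e => P (c0 - e)) I := by
    refine Measure.integrableOn_of_bounded (M := 1) hfin
      (hP.comp (measurable_const.sub measurable_id)).aestronglyMeasurable ?_
    filter_upwards [ae_restrict_mem hIm] with e he
    have h2 := hP1 (c0 - e) ((hIe e).1 he)
    rw [Real.norm_of_nonneg h2.1]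
    exact h2.2
  have hPint : ∫ e in I, P (c0 - e) = ∫ E in Icc (-(3 * d : ℝ)) (3 * d), P E := by
    rw [hI, integral_Icc_eq_integral_Ioc, integral_Icc_eq_integral_Ioc,
      ← intervalIntegral.integral_of_le (by linarith), ← intervalIntegral.integral_of_le
        (by linarith), intervalIntegral.integral_comp_sub_left]
    congr 1 <;> ring
  have hmain : |η ^ 2 * s2 * (∫ e in I, q e) - 2 * ∫ E in Icc (-(3 * d : ℝ)) (3 * d), P E| ≤
      ε * (6 * d) := by
    rw [← hPint, ← integral_const_mul, ← integral_const_mul,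
      ← integral_sub (hqI.const_mul _) (hPi.const_mul _), ← Real.norm_eq_abs]
    have h1 := norm_setIntegral_le_of_norm_le_const (μ := volume) (s := I) (C := ε)
      (f := fun e => η ^ 2 * s2 * q e - 2 * P (c0 - e)) (lt_top_iff_ne_top.2 hfin)
      (fun e he => by
        rw [Real.norm_eq_abs]
        exact hlq e he)
    refine h1.trans (le_of_eq ?_)
    rw [hI, Real.volume_real_Icc_of_le (by linarith)]
    ring
  refine ⟨(2 * Real.pi)⁻¹ * ∫ e, q e, mul_nonneg (by positivity) (integral_nonneg hq0), ?_, ?_⟩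
  · have h1 := planch_msd h η hη j
    simp only [hfe] at h1
    rw [← ofReal_integral_eq_lintegral_ofReal hqi (Eventually.of_forall hq0)] at h1
    rw [ENNReal.ofReal_mul (by positivity), h1, ← mul_assoc, ← ENNReal.ofReal_mul (by positivity),
      inv_mul_cancel₀ (by positivity), ENNReal.ofReal_one, one_mul]
  · rw [← hsplit]
    obtain ⟨A, hA⟩ : ∃ A, A = ∫ e in I, q e := ⟨_, rfl⟩
    obtain ⟨B, hB⟩ : ∃ B, B = ∫ e in Iᶜ, q e := ⟨_, rfl⟩
    obtain ⟨Z, hZ⟩ : ∃ Z, Z = ∫ E in Icc (-(3 * d : ℝ)) (3 * d), P E := ⟨_, rfl⟩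
    rw [← hA, ← hZ] at hmain
    rw [← hB] at hJ0 hJ1
    rw [← hA, ← hB, ← hZ]
    have e1 : η ^ 2 * s2 * ((2 * Real.pi)⁻¹ * (A + B)) - Real.pi⁻¹ * Z =
        (2 * Real.pi)⁻¹ * (η ^ 2 * s2 * A - 2 * Z) + (2 * Real.pi)⁻¹ * (η ^ 2 * s2 * B) := by
      field_simp
      ring
    rw [e1]
    refine (abs_add_le _ _).trans (add_le_add ?_ ?_)
    · rw [abs_mul, abs_of_pos (by positivity : 0 < (2 * Real.pi)⁻¹)]
      calc (2 * Real.pi)⁻¹ * |η ^ 2 * s2 * A - 2 * Z| ≤ (2 * Real.pi)⁻¹ * (ε * (6 * d)) := by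
            gcongr
        _ = 3 / Real.pi * (d * ε) := by
            field_simp
            ring
        _ ≤ 1 * (d * ε) := mul_le_mul_of_nonneg_right (by
            rw [div_le_one hpi]
            exact Real.pi_gt_three.le) (by positivity)
        _ = d * ε := one_mul _
    · rw [abs_of_nonneg (by positivity)]
      calc (2 * Real.pi)⁻¹ * (η ^ 2 * s2 * B) ≤
          (2 * Real.pi)⁻¹ * (η ^ 2 * s2 * (5184 * Real.pi)) := by gcongr
        _ = 2592 * η ^ 2 * s2 := by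
            field_simp
            ring

end Pool.Agent.V11260.QT
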