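import Pool.Agent.V11260.QT.Sum

/-! The resolvent far from the spectrum. -/

set_option autoImplicit false

open MeasureTheory Set Filter
open scoped ENNReal Topology BigOperators

namespace Pool.Agent.V11260.QT

open Pool.Agent.H4R2.LO (Zd)
open Pool.Agent.TH794.QD (Sol La ew HS hmk Tr Mu hs_sum evl)
open Pool.Agent.TH794.QE (Rs QM)
open Pool.Agent.TH794.FG (LS)

variable {d : ℕ}

/-- the sum over the neighbours -/
noncomputable def Sop (d : ℕ) : HS d →L[ℂ] HS d :=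
  ∑ i : Fin d, (Tr (Pi.single i 1) + Tr (-Pi.single i 1))

theorem Tr_norm (e : Zd d) : ‖Tr e‖ ≤ 1 := by
  unfold Tr
  exact LinearMap.mkContinuous_norm_le _ zero_le_one _

theorem Sop_norm : ‖Sop d‖ ≤ 2 * d := by
  unfold Sop
  refine (norm_sum_le _ _).trans ?_
  have h : ∀ i ∈ (Finset.univ : Finset (Fin d)),
      ‖(Tr (Pi.single i 1) + Tr (-Pi.single i 1) : HS d →L[ℂ] HS d)‖ ≤ 2 := by
    intro i _
    have h1 := Tr_norm (d := d) (Pi.single i 1)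
    have h2 := Tr_norm (d := d) (-Pi.single i 1)
    have h3 := norm_add_le (Tr (Pi.single i 1) : HS d →L[ℂ] HS d) (Tr (-Pi.single i 1))
    linarith
  refine (Finset.sum_le_sum h).trans ?_
  simp
  linarith

theorem Sop_apply (u : HS d) (x : Zd d) :
    Sop d u x = ∑ i : Fin d, (u (x + Pi.single i 1) + u (x - Pi.single i 1)) := by
  rw [← Pool.Agent.TH794.QD.evl_apply x (Sop d u)]
  unfold Sop
  rw [ContinuousLinearMap.sum_apply, map_sum]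
  refine Finset.sum_congr rfl fun i _ => ?_
  rw [ContinuousLinearMap.add_apply, map_add, Pool.Agent.TH794.QD.evl_apply,
    Pool.Agent.TH794.QD.evl_apply, Pool.Agent.TH794.QD.Tr_apply, Pool.Agent.TH794.QD.Tr_apply,
    sub_eq_add_neg]

theorem Mu_norm (V : Zd d → ℝ) (B : ℝ) (hB : 0 ≤ B) (hV : ∀ x, |V x| ≤ B) :
    ‖Mu V B hB hV‖ ≤ B := by
  unfold Mu
  exact LinearMap.mkContinuous_norm_le _ hB _

theorem sum_ri (f g : Zd d → ℝ) (hf : Summable fun x => f x ^ 2) (hg : Summable fun x => g x ^ 2) :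
    HasSum (fun x => ‖((f x : ℝ) : ℂ) + ((g x : ℝ) : ℂ) * Complex.I‖ ^ 2)
      (∑' x, f x ^ 2 + ∑' x, g x ^ 2) := by
  have e : (fun x => ‖((f x : ℝ) : ℂ) + ((g x : ℝ) : ℂ) * Complex.I‖ ^ 2) =
      fun x => f x ^ 2 + g x ^ 2 := by
    funext x
    rw [Complex.sq_norm, Complex.normSq_add_mul_I]
  rw [e]
  exact hf.hasSum.add hg.hasSum

/-- **far from the spectrum** -/
theorem far {σ β : ℝ} {ξ fr fi : Zd d → ℝ} {E t : ℝ} {ur ui : Zd d → ℝ}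
    (h : LS d σ ξ fr fi E t ur ui) (hfr : Summable fun x => fr x ^ 2)
    (hfi : Summable fun x => fi x ^ 2) (hβ0 : 0 ≤ β) (hβ : ∀ x, |σ * ξ x| ≤ β)
    (hE : 2 * d + β < |E|) :
    (|E| - (2 * d + β)) ^ 2 * (∑' x, ur x ^ 2 + ∑' x, ui x ^ 2) ≤
      ∑' x, fr x ^ 2 + ∑' x, fi x ^ 2 := by
  have hu := sum_ri ur ui h.sr h.si
  have hf := sum_ri fr fi hfr hfi
  obtain ⟨w, hw⟩ : ∃ w : HS d, w = hmk _ hu.summable := ⟨_, rfl⟩
  obtain ⟨f, hff⟩ : ∃ f : HS d, f = hmk _ hf.summable := ⟨_, rfl⟩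
  have hwx : ∀ x, w x = ((ur x : ℝ) : ℂ) + ((ui x : ℝ) : ℂ) * Complex.I := by
    intro x
    rw [hw]
    rfl
  have hfx : ∀ x, f x = ((fr x : ℝ) : ℂ) + ((fi x : ℝ) : ℂ) * Complex.I := by
    intro x
    rw [hff]
    rfl
  have hwn : ‖w‖ ^ 2 = ∑' x, ur x ^ 2 + ∑' x, ui x ^ 2 := by
    have h1 := hs_sum w
    simp only [hwx] at h1
    exact h1.unique hu
  have hfn : ‖f‖ ^ 2 = ∑' x, fr x ^ 2 + ∑' x, fi x ^ 2 := by
    have h1 := hs_sum f
    simp only [hfx] at h1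
    exact h1.unique hf
  have heq : ((E : ℂ) + (t : ℂ) * Complex.I) • w =
      Sop d w + Mu (fun x => σ * ξ x) β hβ0 hβ w - f := by
    ext x
    have e1 : (((E : ℂ) + (t : ℂ) * Complex.I) • w) x =
        ((E : ℂ) + (t : ℂ) * Complex.I) * w x := rfl
    have e2 : (Sop d w + Mu (fun x => σ * ξ x) β hβ0 hβ w - f) x =
        Sop d w x + ((σ * ξ x : ℝ) : ℂ) * w x - f x := rfl
    rw [e1, e2, Sop_apply]
    simp only [hwx, hfx]
    have a1 := h.er x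
    have a2 := h.ei x
    have b1 : ∑ i : Fin d, ((((ur (x + Pi.single i 1) : ℝ) : ℂ) +
        ((ui (x + Pi.single i 1) : ℝ) : ℂ) * Complex.I) + (((ur (x - Pi.single i 1) : ℝ) : ℂ) +
        ((ui (x - Pi.single i 1) : ℝ) : ℂ) * Complex.I)) =
        ((∑ i, (ur (x + Pi.single i 1) + ur (x - Pi.single i 1)) : ℝ) : ℂ) +
        ((∑ i, (ui (x + Pi.single i 1) + ui (x - Pi.single i 1)) : ℝ) : ℂ) * Complex.I := by
      push_cast
      rw [Finset.sum_mul, ← Finset.sum_add_distrib]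
      refine Finset.sum_congr rfl fun i _ => ?_
      ring
    rw [b1]
    have c1 : ∑ i, (ur (x + Pi.single i 1) + ur (x - Pi.single i 1)) =
        E * ur x + (fr x - t * ui x) - σ * ξ x * ur x := by linarith
    have c2 : ∑ i, (ui (x + Pi.single i 1) + ui (x - Pi.single i 1)) =
        E * ui x + (fi x + t * ur x) - σ * ξ x * ui x := by linarith
    rw [c1, c2]
    push_cast
    have hI : Complex.I * Complex.I = -1 := Complex.I_mul_I
    linear_combination (t * (ui x : ℂ)) * hI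
  have h1 : ‖((E : ℂ) + (t : ℂ) * Complex.I) • w‖ ≤ 2 * d * ‖w‖ + β * ‖w‖ + ‖f‖ := by
    rw [heq]
    refine (norm_sub_le _ _).trans (add_le_add ((norm_add_le _ _).trans (add_le_add ?_ ?_)) le_rfl)
    · exact ((Sop d).le_opNorm w).trans (mul_le_mul_of_nonneg_right Sop_norm (norm_nonneg _))
    · exact ((Mu (fun x => σ * ξ x) β hβ0 hβ).le_opNorm w).trans
        (mul_le_mul_of_nonneg_right (Mu_norm _ _ _ _) (norm_nonneg _))
  have h2 : |E| * ‖w‖ ≤ ‖((E : ℂ) + (t : ℂ) * Complex.I) • w‖ := by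
    rw [norm_smul]
    refine mul_le_mul_of_nonneg_right ?_ (norm_nonneg _)
    have := Complex.abs_re_le_norm ((E : ℂ) + (t : ℂ) * Complex.I)
    simpa using this
  have h3 : (|E| - (2 * d + β)) * ‖w‖ ≤ ‖f‖ := by
    have : (|E| - (2 * d + β)) * ‖w‖ = |E| * ‖w‖ - (2 * d * ‖w‖ + β * ‖w‖) := by ring
    linarith
  have h4 : 0 ≤ (|E| - (2 * d + β)) * ‖w‖ := mul_nonneg (by linarith) (norm_nonneg _)
  have h5 := pow_le_pow_left₀ h4 h3 2
  rw [mul_pow, hwn, hfn] at h5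
  exact h5

/-- the second moment far from the spectrum -/
theorem QM_far {β c0 σ : ℝ} {ξ V : Zd d → ℝ} {a : Zd d} {e η : ℝ} {u : Zd d → ℂ}
    (h : Rs d V a e η u) (hV : ∀ x, V x = c0 - σ * ξ x) (hη : 0 < η) (hη1 : η ≤ 1)
    (hβ0 : 0 ≤ β) (hβ : ∀ x, |σ * ξ x| ≤ β) (hE : 2 * d + β < |c0 - e|) (j : Fin d) :
    (Summable fun x => ((x j : ℝ) - a j) ^ 2 * ‖u x‖ ^ 2) ∧
    QM a j u ≤ 4 / (|c0 - e| - (2 * d + β)) ^ 4 := by
  obtain ⟨s0, hq⟩ := Pool.Agent.TH794.QE.QM_eq h ξ c0 σ hV hη hη1 j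
  refine ⟨s0, ?_⟩
  have hrs := Pool.Agent.TH794.QE.rs_LS h ξ c0 σ hV
  obtain ⟨h0, -, -, -, -, e1, e2, -⟩ := Pool.Agent.TH794.QE.mom_c a hrs hη hη1 j
  obtain ⟨-, hLS, -, -⟩ := Pool.Agent.TH794.QD.green h0 hη hη1 j
  rw [hq, e1, e2]
  obtain ⟨D, hD⟩ : ∃ D, D = |c0 - e| - (2 * d + β) := ⟨_, rfl⟩
  have hD0 : 0 < D := by rw [hD]; linarith
  obtain ⟨a1, a2⟩ := Pool.Agent.TH794.QD.Df_sum j _ h0.sr
  obtain ⟨b1, b2⟩ := Pool.Agent.TH794.QD.Df_sum j _ h0.si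
  have hs1 : HasSum (fun x : Zd d => (Pi.single (M := fun _ => ℝ) 0 1 : Zd d → ℝ) x ^ 2) 1 := by
    have := hasSum_single (f := fun x : Zd d => (Pi.single (M := fun _ => ℝ) 0 1 : Zd d → ℝ) x ^ 2)
      0 (fun x hx => by
        rw [Pi.single_eq_of_ne hx]
        ring)
    simp only [Pi.single_eq_same, one_pow] at this
    exact this
  have hz : Summable fun _ : Zd d => (0 : ℝ) ^ 2 := by
    simp only [zero_pow two_ne_zero]
    exact summable_zero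
  have hz0 : ∑' _ : Zd d, (0 : ℝ) ^ 2 = 0 := by simp
  have f1 := far h0 hs1.summable hz hβ0 (fun x => hβ _) hE
  have f2 := far hLS a1 b1 hβ0 (fun x => hβ _) hE
  rw [hs1.tsum_eq, hz0, add_zero, ← hD] at f1
  rw [← hD] at f2 ⊢
  obtain ⟨A, hA⟩ : ∃ A, A = ∑' x, (-(u (x + a)).re) ^ 2 + ∑' x, (u (x + a)).im ^ 2 := ⟨_, rfl⟩
  obtain ⟨B, hB⟩ : ∃ B, B = ∑' x, (Pool.Agent.TH794.QD.cj j x * -(u (x + a)).re) ^ 2 +
    ∑' x, (Pool.Agent.TH794.QD.cj j x * (u (x + a)).im) ^ 2 := ⟨_, rfl⟩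
  rw [← hA] at f1
  rw [← hB] at f2 ⊢
  have f3 : D ^ 2 * B ≤ 4 * A := by
    rw [hA]
    linarith
  rw [le_div_iff₀ (by positivity)]
  have f4 : D ^ 2 * (D ^ 2 * B) ≤ D ^ 2 * (4 * A) :=
    mul_le_mul_of_nonneg_left f3 (sq_nonneg _)
  have f5 : B * D ^ 4 = D ^ 2 * (D ^ 2 * B) := by ring
  rw [f5]
  linarith

end Pool.Agent.V11260.QT
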