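import Pool.Agent.V11260.QT.Edge

/-! The free density of states in every dimension: mass and uniform integrability. -/

set_option autoImplicit false

open MeasureTheory Set Filter
open scoped ENNReal Topology BigOperators

namespace Pool.Agent.V11260.QT

open Pool.Agent.W788.BK
open Pool.Agent.W788.MFP.Four (T NN adj NN_pos card_T)
open Pool.Agent.TH794.LL2 (gL)
open Pool.Agent.TH794.QD (GF F0 F1 pp pp_cont pp_le pp_decay)
open Pool.Agent.TH794.QE (finb0 bamp0)

/-- the smoothed density -/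
noncomputable def rh (d : ℕ) (t E : ℝ) : ℝ := (GF (F0 d) ((E : ℂ) + (t : ℂ) * Complex.I)).im

theorem GF_Lap (F : ℝ → ℂ) (E t : ℝ) :
    GF F ((E : ℂ) + (t : ℂ) * Complex.I) = Complex.I * Lap F E t := by
  unfold GF Lap
  congr 1
  refine integral_congr_ae (Eventually.of_forall fun s => ?_)
  simp only
  rw [mul_comm]
  congr 2
  have hI : Complex.I * Complex.I = -1 := Complex.I_mul_I
  linear_combination ((t : ℂ) * s) * hI

theorem rh_cont (d : ℕ) (t : ℝ) (ht : 0 < t) : Continuous (rh d t) := by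
  unfold rh
  simp only [GF_Lap]
  exact Complex.continuous_im.comp (continuous_const.mul
    (Lap_cont t ht (F0 d) (bamp0 d).cont (bamp0 d).one))

theorem rh_sq_le (d : ℕ) (t E : ℝ) : rh d t E ^ 2 ≤ ‖Lap (F0 d) E t‖ ^ 2 := by
  unfold rh
  rw [GF_Lap]
  have h := Complex.abs_im_le_norm (Complex.I * Lap (F0 d) E t)
  rw [norm_mul, Complex.norm_I, one_mul] at h
  rw [← sq_abs]
  exact pow_le_pow_left₀ (abs_nonneg _) h 2

theorem fin_imb (d : ℕ) (E t : ℝ) (ht : 0 < t) (ht1 : t ≤ 1) (n : ℕ) :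
    |(gL d (n + 1) ((E : ℂ) + (t : ℂ) * Complex.I)).im - rh d t E| ≤
      28 * d / t ^ 2 / (n + 1) := by
  have h1 := finb0 (L := n + 1) d t ht ht1 ((E : ℂ) + (t : ℂ) * Complex.I) (by simp)
  have e1 : 28 * (d : ℝ) / ((n + 1 : ℕ) : ℝ) / t ^ 2 = 28 * d / t ^ 2 / (n + 1) := by
    push_cast
    ring
  rw [e1] at h1
  unfold rh
  rw [← Complex.sub_im]
  exact (Complex.abs_im_le_norm _).trans h1

theorem rh_nonneg (d : ℕ) (t E : ℝ) (ht : 0 < t) (ht1 : t ≤ 1) : 0 ≤ rh d t E := by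
  apply Pool.Agent.TH794.QD.lim_le _ _ (28 * d / t ^ 2)
  intro n
  have h1 := (abs_le.1 (fin_imb d E t ht ht1 n)).2
  have h2 : 0 ≤ (gL d (n + 1) ((E : ℂ) + (t : ℂ) * Complex.I)).im := by
    rw [gL_im]
    refine le_avg _ _ fun k => ?_
    positivity
  linarith

theorem rh_far (d : ℕ) (E t : ℝ) (hE : 2 * d < |E|) (ht : 0 < t)
    (ht1 : t ≤ 1) : rh d t E ≤ t / (|E| - 2 * d) ^ 2 := by
  apply Pool.Agent.TH794.QD.lim_le _ _ (28 * d / t ^ 2)
  intro n
  have h1 := (abs_le.1 (fin_imb d E t ht ht1 n)).1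
  have h2 : (gL d (n + 1) ((E : ℂ) + (t : ℂ) * Complex.I)).im ≤ t / (|E| - 2 * d) ^ 2 := by
    rw [gL_im]
    refine avg_le _ _ fun k => ?_
    have h3 := adj_abs k
    have h4 : |E| - 2 * d ≤ |adj k - E| := by
      have := abs_sub_abs_le_abs_sub E (adj k)
      rw [abs_sub_comm] at this
      linarith
    have h5 : (|E| - 2 * d) ^ 2 ≤ (adj k - E) ^ 2 := by
      rw [← sq_abs (adj k - E)]
      exact pow_le_pow_left₀ (by linarith) h4 2
    apply div_le_div_of_nonneg_left ht.le (pow_pos (by linarith) 2)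
    linarith [sq_nonneg t]
  linarith

/-- the mass in the window -/
theorem mass_t (d : ℕ) (hd : 1 ≤ d) (t : ℝ) (ht : 0 < t) (ht1 : t ≤ 1) :
    2 * Real.arctan (d / t) ≤ ∫ E in Icc (-(3 * d : ℝ)) (3 * d), rh d t E ∧
    ∫ E in Icc (-(3 * d : ℝ)) (3 * d), rh d t E ≤ Real.pi := by
  have hd0 : (0 : ℝ) < d := by exact_mod_cast (by omega : 0 < d)
  have hvol : volume.real (Icc (-(3 * d : ℝ)) (3 * d)) = 6 * d := by
    rw [Real.volume_real_Icc_of_le (by linarith)]
    ring
  have hfin : volume (Icc (-(3 * d : ℝ)) (3 * d)) ≠ ⊤ := by simp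
  have hi0 : IntegrableOn (rh d t) (Icc (-(3 * d : ℝ)) (3 * d)) :=
    (rh_cont d t ht).continuousOn.integrableOn_Icc
  have key : ∀ n : ℕ, 2 * Real.arctan (d / t) ≤ ∫ E in Icc (-(3 * d : ℝ)) (3 * d),
        (gL d (n + 1) ((E : ℂ) + (t : ℂ) * Complex.I)).im ∧
      ∫ E in Icc (-(3 * d : ℝ)) (3 * d),
        (gL d (n + 1) ((E : ℂ) + (t : ℂ) * Complex.I)).im ≤ Real.pi ∧
      |(∫ E in Icc (-(3 * d : ℝ)) (3 * d),
        (gL d (n + 1) ((E : ℂ) + (t : ℂ) * Complex.I)).im) -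
        ∫ E in Icc (-(3 * d : ℝ)) (3 * d), rh d t E| ≤
        (28 * d / t ^ 2 * (6 * d)) / (n + 1) := by
    intro n
    have hgc : Continuous fun E : ℝ => (gL d (n + 1) ((E : ℂ) + (t : ℂ) * Complex.I)).im := by
      simp only [gL_im]
      refine continuous_const.mul (continuous_finsetSum _ fun k _ => ?_)
      refine Continuous.div (by fun_prop) (by fun_prop) fun E => ?_
      positivity
    have hgi : IntegrableOn (fun E : ℝ => (gL d (n + 1) ((E : ℂ) + (t : ℂ) * Complex.I)).im)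
        (Icc (-(3 * d : ℝ)) (3 * d)) := hgc.continuousOn.integrableOn_Icc
    have hki : ∀ k ∈ (Finset.univ : Finset (T d (n + 1))), IntegrableOn
        (fun E : ℝ => t / ((adj k - E) ^ 2 + t ^ 2)) (Icc (-(3 * d : ℝ)) (3 * d)) := by
      intro k _
      refine Continuous.integrableOn_Icc ?_
      refine Continuous.div (by fun_prop) (by fun_prop) fun E => ?_
      positivity
    refine ⟨?_, ?_, ?_⟩
    · simp only [gL_im]
      rw [integral_const_mul, integral_finsetSum _ hki]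
      refine le_avg _ _ fun k => ?_
      rw [poisson _ t _ ht (by positivity)]
      have h2 := abs_le.1 (adj_abs k)
      have h3 : Real.arctan (d / t) ≤ Real.arctan ((3 * d - adj k) / t) := by
        apply Real.arctan_strictMono.monotone
        gcongr
        linarith
      have h4 : Real.arctan (d / t) ≤ Real.arctan ((3 * d + adj k) / t) := by
        apply Real.arctan_strictMono.monotone
        gcongr
        linarith
      linarith
    · simp only [gL_im]
      rw [integral_const_mul, integral_finsetSum _ hki]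
      refine avg_le _ _ fun k => ?_
      rw [poisson _ t _ ht (by positivity)]
      have h3 := (Real.arctan_lt_pi_div_two ((3 * d - adj k) / t)).le
      have h4 := (Real.arctan_lt_pi_div_two ((3 * d + adj k) / t)).le
      linarith
    · rw [← integral_sub hgi hi0, ← Real.norm_eq_abs]
      have h5 := norm_setIntegral_le_of_norm_le_const (μ := volume)
        (s := Icc (-(3 * d : ℝ)) (3 * d)) (C := 28 * d / t ^ 2 / (n + 1))
        (f := fun E : ℝ => (gL d (n + 1) ((E : ℂ) + (t : ℂ) * Complex.I)).im - rh d t E)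
        (lt_top_iff_ne_top.2 hfin) (fun E _ => by
          rw [Real.norm_eq_abs]
          exact fin_imb d E t ht ht1 n)
      rw [hvol] at h5
      refine h5.trans (le_of_eq ?_)
      ring
  constructor
  · apply Pool.Agent.TH794.QD.lim_le _ _ (28 * d / t ^ 2 * (6 * d))
    intro n
    obtain ⟨h1, -, h3⟩ := key n
    have := (abs_le.1 h3).2
    linarith
  · apply Pool.Agent.TH794.QD.lim_le _ _ (28 * d / t ^ 2 * (6 * d))
    intro n
    obtain ⟨-, h2, h3⟩ := key n
    have := (abs_le.1 h3).1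
    linarith

/-- the constant -/
noncomputable def K2 : ℝ := ∫ s in Ioi (0 : ℝ), (s + 1) ^ (-2 : ℝ)

theorem int_K2 : IntegrableOn (fun s : ℝ => (s + 1) ^ (-2 : ℝ)) (Ioi 0) :=
  integrableOn_add_rpow_Ioi_of_lt (by norm_num) (by norm_num)

theorem K2_nonneg : 0 ≤ K2 := by
  unfold K2
  refine setIntegral_nonneg measurableSet_Ioi fun s hs => ?_
  have : (0 : ℝ) < s := hs
  positivity

theorem F0_sq (hO : S_OSC) (d : ℕ) (hd : 2 ≤ d) (s : ℝ) (hs : 0 < s) :
    ‖F0 d s‖ ^ 2 ≤ 10000 * (s + 1) ^ (-2 : ℝ) := by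
  have h1 := pp_decay hO s
  rw [abs_of_pos hs] at h1
  have h2 : ‖F0 d s‖ ≤ ‖pp s‖ ^ 2 := by
    unfold F0
    rw [norm_pow]
    exact pow_le_pow_of_le_one (norm_nonneg _) (pp_le s) hd
  have h3 : ‖pp s‖ ^ 2 ≤ 100 / (1 + s) := by
    calc ‖pp s‖ ^ 2 ≤ (10 / Real.sqrt (1 + s)) ^ 2 := by gcongr
      _ = _ := by
          rw [div_pow, Real.sq_sqrt (by positivity)]
          norm_num
  have h4 : (s + 1) ^ (-2 : ℝ) = 1 / (1 + s) ^ 2 := by
    rw [Real.rpow_neg (by positivity), one_div, add_comm s 1]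
    norm_num
  rw [h4]
  calc ‖F0 d s‖ ^ 2 ≤ (100 / (1 + s)) ^ 2 := by
        gcongr
        exact h2.trans h3
    _ = _ := by
        field_simp
        norm_num

/-- the constant -/
noncomputable def C2 : ℝ := 2 * Real.pi * (10000 * K2)

theorem C2_nonneg : 0 ≤ C2 := by
  have := K2_nonneg
  unfold C2
  positivity

theorem Lap_L2 (hO : S_OSC) (d : ℕ) (hd : 2 ≤ d) (t : ℝ) (ht : 0 < t) :
    Integrable (fun E => ‖Lap (F0 d) E t‖ ^ 2) ∧ ∫ E, ‖Lap (F0 d) E t‖ ^ 2 ≤ C2 := by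
  have h1 := planch t ht (F0 d) (bamp0 d).cont (bamp0 d).one
  have h2 : ∫⁻ s in Ioi (0 : ℝ), ENNReal.ofReal (Real.exp (-(2 * t) * s)) * ‖F0 d s‖ₑ ^ 2 ≤
      ENNReal.ofReal (10000 * K2) := by
    have h3 : ENNReal.ofReal (10000 * K2) =
        ∫⁻ s in Ioi (0 : ℝ), ENNReal.ofReal (10000 * (s + 1) ^ (-2 : ℝ)) := by
      rw [← ofReal_integral_eq_lintegral_ofReal (int_K2.const_mul _)]
      · rw [integral_const_mul]
        rfl
      · filter_upwards [ae_restrict_mem measurableSet_Ioi] with s hs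
        have : (0 : ℝ) < s := hs
        positivity
    rw [h3]
    refine setLIntegral_mono' measurableSet_Ioi fun s hs => ?_
    have hs0 : 0 < s := hs
    calc ENNReal.ofReal (Real.exp (-(2 * t) * s)) * ‖F0 d s‖ₑ ^ 2 ≤ 1 * ‖F0 d s‖ₑ ^ 2 := by
          gcongr
          rw [ENNReal.ofReal_le_one]
          apply Real.exp_le_one_iff.2
          have : 0 < t * s := by positivity
          linarith
      _ = ENNReal.ofReal (‖F0 d s‖ ^ 2) := by
          rw [one_mul, ENNReal.ofReal_pow (norm_nonneg _), ofReal_norm]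
      _ ≤ _ := ENNReal.ofReal_le_ofReal (F0_sq hO d hd s hs0)
  have h4 : ∫⁻ E : ℝ, ENNReal.ofReal (‖Lap (F0 d) E t‖ ^ 2) ≤ ENNReal.ofReal C2 := by
    have h5 : ∀ E : ℝ, ENNReal.ofReal (‖Lap (F0 d) E t‖ ^ 2) = ‖Lap (F0 d) E t‖ₑ ^ 2 := by
      intro E
      rw [ENNReal.ofReal_pow (norm_nonneg _), ofReal_norm]
    simp only [h5]
    rw [h1]
    unfold C2
    rw [ENNReal.ofReal_mul (p := 2 * Real.pi) (by positivity)]
    gcongr
  have hm : Measurable fun E => ‖Lap (F0 d) E t‖ ^ 2 :=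
    ((Lap_cont t ht (F0 d) (bamp0 d).cont (bamp0 d).one).norm.pow 2).measurable
  have hi : Integrable (fun E => ‖Lap (F0 d) E t‖ ^ 2) := by
    refine ⟨hm.aestronglyMeasurable, ?_⟩
    rw [hasFiniteIntegral_iff_ofReal (Eventually.of_forall fun s => by positivity)]
    exact h4.trans_lt ENNReal.ofReal_lt_top
  refine ⟨hi, ?_⟩
  rw [← ofReal_integral_eq_lintegral_ofReal hi (Eventually.of_forall fun s => by positivity)] at h4
  exact (ENNReal.ofReal_le_ofReal_iff C2_nonneg).1 h4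

/-- uniform integrability -/
theorem rh_cut (hO : S_OSC) (d : ℕ) (hd : 2 ≤ d) (t : ℝ) (ht : 0 < t) (N : Set ℝ)
    (hN : MeasurableSet N) (hv : volume N ≠ ⊤) (K : ℝ) (hK : 0 < K) (f : ℝ → ℝ)
    (hf : IntegrableOn f N) (hfl : ∀ E ∈ N, rh d t E ≤ K → rh d t E ≤ f E)
    (hf0 : ∀ E ∈ N, 0 ≤ f E) (hi : IntegrableOn (rh d t) N) :
    ∫ E in N, rh d t E ≤ (∫ E in N, f E) + C2 / K := by
  obtain ⟨h1, h2⟩ := Lap_L2 hO d hd t ht
  have h3 : ∫ E in N, rh d t E ≤ ∫ E in N, (f E + ‖Lap (F0 d) E t‖ ^ 2 / K) := by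
    refine setIntegral_mono_on hi (hf.add (h1.integrableOn.div_const K)) hN fun E hE => ?_
    have h4 := rh_sq_le d t E
    rcases le_or_gt (rh d t E) K with h5 | h5
    · have h6 := hfl E hE h5
      have h7 : 0 ≤ ‖Lap (F0 d) E t‖ ^ 2 / K := by positivity
      linarith
    · have h6 := hf0 E hE
      have h7 : rh d t E ≤ ‖Lap (F0 d) E t‖ ^ 2 / K := by
        rw [le_div_iff₀ hK]
        nlinarith
      linarith
  refine h3.trans ?_
  rw [integral_add hf (h1.integrableOn.div_const K), integral_div]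
  have h8 : ∫ E in N, ‖Lap (F0 d) E t‖ ^ 2 ≤ C2 :=
    (setIntegral_le_integral h1 (Eventually.of_forall fun E => by positivity)).trans h2
  gcongr

end Pool.Agent.V11260.QT
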