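import Pool.Agent.V11260.QT.Det
import Pool.Agent.TH794.QE.FinC

/-! The Laplace transform of the mean square displacement at weak disorder. -/

set_option autoImplicit false

open MeasureTheory Set Filter
open scoped ENNReal Topology BigOperators

namespace Pool.Agent.V11260.QT

open Pool.Agent.W788.BK
open Pool.Agent.H4R2.LO (Zd)
open Pool.Agent.TH794.QD (Sol La GF F0 F1 Pf)
open Pool.Agent.TH794.QE (Rs QM)

theorem pow_ev (C p q : ℝ) (h : q < p) : ∀ᶠ l in 𝓝[>] (0 : ℝ), C * l ^ p ≤ l ^ q := by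
  have h1 : Tendsto (fun l : ℝ => |C| * l ^ (p - q)) (𝓝[>] 0) (𝓝 (|C| * 0)) := by
    refine Tendsto.const_mul _ ?_
    have h2 := (Real.continuousAt_rpow_const 0 (p - q) (Or.inr (by linarith))).tendsto
    rw [Real.zero_rpow (by linarith)] at h2
    exact h2.mono_left nhdsWithin_le_nhds
  rw [mul_zero] at h1
  filter_upwards [h1.eventually (gt_mem_nhds one_pos), self_mem_nhdsWithin] with l hl hl0
  have hl0' : 0 < l := hl0
  have e1 : l ^ p = l ^ (p - q) * l ^ q := by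
    rw [← Real.rpow_add hl0']
    congr 1
    ring
  have h3 := Real.rpow_pos_of_pos hl0' q
  have h4 := Real.rpow_pos_of_pos hl0' (p - q)
  rw [e1, ← mul_assoc]
  have h5 : C * l ^ (p - q) ≤ 1 :=
    (mul_le_mul_of_nonneg_right (le_abs_self C) h4.le).trans hl.le
  exact mul_le_of_le_one_left h3.le h5

theorem ev_ex {p : ℝ → Prop} (h : ∀ᶠ l in 𝓝[>] (0 : ℝ), p l) :
    ∃ l0 : ℝ, 0 < l0 ∧ ∀ l, 0 < l → l ≤ l0 → p l := by
  obtain ⟨l0, hl0, h1⟩ := mem_nhdsGT_iff_exists_Ioc_subset.1 h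
  exact ⟨l0, hl0, fun l h2 h3 => h1 ⟨h2, h3⟩⟩

/-- the law of the second moment of the resolvent, fixed energy, weak coupling -/
theorem qm_law (hES : S_ES) (hTH : S_THIRD) (hFL : S_FLUCT) (hIN : S_INV)
    (hSU : S_SUP) (hQB : S_QB) (hLO : S_LOW) (hAD : S_ADM) (hFA : S_FAC) (hO : S_OSC)
    (d : ℕ) (hd : 3 ≤ d) (b v : ℝ) (hb : 0 < b) (hv : 0 < v) :
    ∃ l0 : ℝ, 0 < l0 ∧ ∀ l : ℝ, 0 < l → l ≤ l0 →
      2 * b * l ≤ 1 / 2 ∧
      ∀ (μ : Measure ℝ), IsProbabilityMeasure μ → (∀ᵐ s ∂μ, |s| ≤ b) →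
      ∀ M V : ℝ, ∫ s, s ∂μ = M → ∫ s, (s - M) ^ 2 ∂μ = V → v ≤ V →
      V ≤ 4 * b ^ 2 ∧
      ∃ G : Set (Zd d → ℝ), MeasurableSet G ∧
        1 - Real.exp (-l ^ (-(1 / 102) : ℝ)) ≤ (Measure.infinitePi fun _ : Zd d => μ).real G ∧
        ∀ ω ∈ G, (∀ x, |l * (ω x - M)| ≤ 2 * b * l) ∧
          ∀ a : Zd d, ‖a‖ ≤ Real.exp (l ^ (-(1 / 102) : ℝ)) →
          ∀ e : ℝ, |2 * d + l * M - e| ≤ 3 * d → ∀ η : ℝ, l ^ (83 / 41 : ℝ) ≤ η →
          η ≤ l ^ 2 * V → ∀ u : Zd d → ℂ, Rs d (fun x => 2 * d + l * ω x) a e η u → ∀ j : Fin d,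
            |η ^ 2 * (l ^ 2 * V) * QM a j u - 2 * Pf d (η / (l ^ 2 * V)) (2 * d + l * M - e)| ≤
              (2 * b * l) ^ (1 / 300 : ℝ) := by
  obtain ⟨γ0, γ1, hγ⟩ := Pool.Agent.TH794.QE.finF hES hTH hFL hIN hSU hQB hLO hAD hFA hO d
    (by omega)
  obtain ⟨h1, -, h3⟩ := hγ 1 one_pos le_rfl
  obtain ⟨c0, hc0, h4⟩ := h3 (v / (4 * b ^ 2)) (by positivity)
  have hreg : ∀ E : ℝ, |E| ≤ 3 * d → Pool.Agent.TH794.QE.RegE d 1 E := fun E hE => Or.inr ⟨hd, hE⟩
  have hPf : ∀ u E : ℝ, |E| ≤ 3 * d → Pool.Agent.TH794.QE.Pg γ0 γ1 u E = Pf d u E := by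
    intro u E hE
    obtain ⟨a0, a1, -, -⟩ := h1 E (hreg E hE)
    have b0 := Pool.Agent.TH794.QE.lim3 _ _ (Pool.Agent.TH794.QD.hol0 hO d hd) E
    have b1 := Pool.Agent.TH794.QE.lim3 _ _ (Pool.Agent.TH794.QD.hol1 hO d hd) E
    unfold Pool.Agent.TH794.QE.Pg Pf
    rw [tendsto_nhds_unique a0 b0, tendsto_nhds_unique a1 b1]
  obtain ⟨l0, hl0, h5⟩ := ev_ex ((pow_ev (2 * b / c0) 1 0 (by norm_num)).and
    ((pow_ev (4 * b) 1 0 (by norm_num)).and
    ((pow_ev ((2 * b) ^ (1 / 101 : ℝ)) (-(1 / 102)) (-(1 / 101)) (by norm_num)).and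
    (pow_ev ((2 * b) ^ (81 / 40 : ℝ)) (81 / 40) (83 / 41) (by norm_num)))))
  refine ⟨l0, hl0, fun l hl hll => ?_⟩
  obtain ⟨n1, n2, n3, n4⟩ := h5 l hl hll
  rw [Real.rpow_one, Real.rpow_zero] at n1 n2
  obtain ⟨c, hc⟩ : ∃ c, c = 2 * b * l := ⟨_, rfl⟩
  have hc_pos : 0 < c := by rw [hc]; positivity
  have hcc0 : c ≤ c0 := by
    rw [div_mul_eq_mul_div, div_le_one hc0] at n1
    rw [hc]
    exact n1
  refine ⟨by linarith, ?_⟩
  intro μ hμ hμb M V hM hV hvV
  have hint : Integrable (fun s : ℝ => s) μ := by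
    refine Integrable.of_bound (C := b) measurable_id.aestronglyMeasurable ?_
    filter_upwards [hμb] with s hs
    rw [Real.norm_eq_abs]
    exact hs
  have hMb : |M| ≤ b := by
    rw [← hM, ← Real.norm_eq_abs]
    have h1 := norm_integral_le_of_norm_le_const (μ := μ) (f := fun s : ℝ => s) (C := b) (by
      filter_upwards [hμb] with s hs
      rw [Real.norm_eq_abs]
      exact hs)
    rw [probReal_univ, mul_one] at h1
    exact h1
  have hV0 : 0 < V := hv.trans_le hvV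
  have hVb : V ≤ 4 * b ^ 2 := by
    rw [← hV]
    have h6 : ∫ s, (s - M) ^ 2 ∂μ ≤ ∫ _s, 4 * b ^ 2 ∂μ := by
      apply integral_mono_of_nonneg (Eventually.of_forall fun s => sq_nonneg _)
        (integrable_const _)
      filter_upwards [hμb] with s hs
      have h7 : |s - M| ≤ 2 * b := by
        have := abs_sub s M
        linarith
      calc (s - M) ^ 2 = |s - M| ^ 2 := (sq_abs _).symm
        _ ≤ (2 * b) ^ 2 := by gcongr
        _ = 4 * b ^ 2 := by ring
    rw [integral_const, probReal_univ, one_smul] at h6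
    exact h6
  refine ⟨hVb, ?_⟩
  -- the scaled law
  have hmm : Measurable fun s : ℝ => l * (s - M) := by fun_prop
  have hνp : IsProbabilityMeasure (μ.map fun s => l * (s - M)) :=
    Measure.isProbabilityMeasure_map hmm.aemeasurable
  have hνb : ∀ᵐ s ∂(μ.map fun s => l * (s - M)), |s| ≤ c := by
    rw [ae_map_iff hmm.aemeasurable (measurableSet_le (by fun_prop) (by fun_prop))]
    filter_upwards [hμb] with s hs
    rw [abs_mul, abs_of_pos hl, hc]
    have := abs_sub s M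
    have h8 : |s - M| ≤ 2 * b := by linarith
    calc l * |s - M| ≤ l * (2 * b) := by gcongr
      _ = _ := by ring
  have hν0 : ∫ s, s ∂(μ.map fun s => l * (s - M)) = 0 := by
    rw [integral_map hmm.aemeasurable (by fun_prop), integral_const_mul,
      integral_sub hint (integrable_const _), integral_const, probReal_univ, one_smul, hM,
      sub_self, mul_zero]
  have hν2 : ∫ s, s ^ 2 ∂(μ.map fun s => l * (s - M)) = l ^ 2 * V := by
    rw [integral_map hmm.aemeasurable (by fun_prop), ← hV, ← integral_const_mul]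
    refine integral_congr_ae (Eventually.of_forall fun s => ?_)
    simp only
    ring
  obtain ⟨G, hG, hGP, hL⟩ := h4 c hc_pos hcc0 _ hνp hνb hν0 (l ^ 2 * V) hν2 (by
    rw [hc]
    have e1 : v / (4 * b ^ 2) * (2 * b * l) ^ 2 = l ^ 2 * v := by
      field_simp
      ring
    rw [e1]
    gcongr)
  have hTm : Measurable (fun (ω : Zd d → ℝ) x => l * (ω x - M)) := by fun_prop
  have hlaw : (Measure.infinitePi fun _ : Zd d => μ).map (fun ω x => l * (ω x - M)) =
      Measure.infinitePi fun _ : Zd d => μ.map fun s => l * (s - M) :=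
    Measure.infinitePi_map_pi (μ := fun _ : Zd d => μ)
      (f := fun _ (s : ℝ) => l * (s - M)) (fun _ => by fun_prop)
  have hexp : l ^ (-(1 / 102) : ℝ) ≤ c ^ (-(1 / 101) : ℝ) := by
    rw [hc, Real.mul_rpow (by positivity) hl.le]
    have h9 : (2 * b) ^ (-(1 / 101) : ℝ) * ((2 * b) ^ (1 / 101 : ℝ) * l ^ (-(1 / 102) : ℝ)) ≤
        (2 * b) ^ (-(1 / 101) : ℝ) * l ^ (-(1 / 101) : ℝ) := by gcongr
    rw [← mul_assoc, ← Real.rpow_add (by positivity)] at h9
    norm_num at h9 ⊢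
    exact h9
  refine ⟨(fun ω x => l * (ω x - M)) ⁻¹' G, hTm hG, ?_, ?_⟩
  · have h1 : (Measure.infinitePi fun _ : Zd d => μ).real ((fun ω x => l * (ω x - M)) ⁻¹' G) =
        (Measure.infinitePi fun _ : Zd d => μ.map fun s => l * (s - M)).real G := by
      rw [← hlaw, map_measureReal_apply hTm hG]
    rw [h1]
    refine le_trans ?_ hGP
    have := Real.exp_le_exp.2 (neg_le_neg hexp)
    linarith
  · intro ω hω
    obtain ⟨g1, g2⟩ := hL _ hω
    refine ⟨fun x => by rw [← hc]; exact g1 x, fun a ha e he η hη1 hη2 u hu j => ?_⟩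
    have ha' : ‖a‖ ≤ Real.exp (c ^ (-(1 / 101) : ℝ)) := ha.trans (Real.exp_le_exp.2 hexp)
    have he' : Pool.Agent.TH794.QE.RegE d 1 (2 * d - (e - l * M)) := by
      apply hreg
      have e1 : (2 * (d : ℝ) - (e - l * M)) = 2 * d + l * M - e := by ring
      rw [e1]
      exact he
    have hη3 : c ^ (81 / 40 : ℝ) ≤ η := by
      refine le_trans ?_ hη1
      rw [hc, Real.mul_rpow (by positivity) hl.le]
      exact n4
    have hu' : Rs d (fun x => 2 * d + (fun x => l * (ω x - M)) x) a (e - l * M) η u := by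
      refine ⟨hu.sq, fun x => ?_⟩
      have h10 := hu.eq x
      rw [← h10]
      push_cast
      ring
    have h11 := (g2 a ha' (e - l * M) he' η hη3 hη2 u hu' j).2
    have e1 : (2 * (d : ℝ) - (e - l * M)) = 2 * d + l * M - e := by ring
    rw [e1, hPf _ _ he, hc] at h11
    exact h11

end Pool.Agent.V11260.QT
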