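import Pool.Agent.V11260.QT.Free

/-! The mass of the free density of states. -/

set_option autoImplicit false

open MeasureTheory Set Filter
open scoped ENNReal Topology BigOperators

namespace Pool.Agent.V11260.QT

open Pool.Agent.W788.BK
open Pool.Agent.TH794.QD (GF F0 F1)

/-- the regular energies -/
def SR (d : ℕ) (κ : ℝ) : Set ℝ := {E | κ ≤ |E| ∧ |E| ≤ 2 * d - κ}

/-- the interior of the band without the centre -/
def S0 (d : ℕ) : Set ℝ := {E | 0 < |E| ∧ |E| < 2 * d}

theorem SR_meas (d : ℕ) (κ : ℝ) : MeasurableSet (SR d κ) := by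
  unfold SR
  exact (measurableSet_le measurable_const measurable_norm).inter
    (measurableSet_le measurable_norm measurable_const)

theorem S0_meas (d : ℕ) : MeasurableSet (S0 d) := by
  unfold S0
  exact (measurableSet_lt measurable_const measurable_norm).inter
    (measurableSet_lt measurable_norm measurable_const)

theorem SR_sub (d : ℕ) (κ : ℝ) (hκ : 0 < κ) : SR d κ ⊆ S0 d := by
  rintro E ⟨h1, h2⟩
  exact ⟨by linarith, by linarith⟩

theorem S0_sub (d : ℕ) : S0 d ⊆ Icc (-(3 * d : ℝ)) (3 * d) := by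
  rintro E ⟨h1, h2⟩
  have hd : (0 : ℝ) ≤ d := Nat.cast_nonneg d
  exact abs_le.1 (by linarith)

theorem tn_tend : Tendsto (fun n : ℕ => 1 / ((n : ℝ) + 1)) atTop (𝓝[>] 0) := by
  rw [tendsto_nhdsWithin_iff]
  exact ⟨tendsto_one_div_add_atTop_nhds_zero_nat, Eventually.of_forall fun n => by
    rw [mem_Ioi]; positivity⟩

theorem tn_pos (n : ℕ) : 0 < 1 / ((n : ℝ) + 1) := by positivity

theorem tn_le (n : ℕ) : 1 / ((n : ℝ) + 1) ≤ 1 := by
  rw [div_le_one (by positivity)]
  have : (0 : ℝ) ≤ n := Nat.cast_nonneg n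
  linarith

section

variable {d : ℕ} {γ0 : ℝ → ℂ}

theorem im_tend (hγ : ∀ E, E ∈ S0 d →
    Tendsto (fun t : ℝ => GF (F0 d) ((E : ℂ) + (t : ℂ) * Complex.I)) (𝓝[>] 0) (𝓝 (γ0 E)))
    (E : ℝ) (hE : E ∈ S0 d) :
    Tendsto (fun n : ℕ => rh d (1 / ((n : ℝ) + 1)) E) atTop (𝓝 (γ0 E).im) :=
  ((Complex.continuous_im.tendsto _).comp (hγ E hE)).comp tn_tend

theorem im_nonneg (hγ : ∀ E, E ∈ S0 d →
    Tendsto (fun t : ℝ => GF (F0 d) ((E : ℂ) + (t : ℂ) * Complex.I)) (𝓝[>] 0) (𝓝 (γ0 E)))
    (E : ℝ) (hE : E ∈ S0 d) : 0 ≤ (γ0 E).im :=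
  ge_of_tendsto' (im_tend hγ E hE) fun n => rh_nonneg d _ E (tn_pos n) (tn_le n)

theorem im_meas (hγ : ∀ E, E ∈ S0 d →
    Tendsto (fun t : ℝ => GF (F0 d) ((E : ℂ) + (t : ℂ) * Complex.I)) (𝓝[>] 0) (𝓝 (γ0 E))) :
    AEStronglyMeasurable (fun E => (γ0 E).im) (volume.restrict (S0 d)) := by
  refine aestronglyMeasurable_of_tendsto_ae (u := atTop)
    (f := fun (n : ℕ) E => rh d (1 / ((n : ℝ) + 1)) E)
    (fun n => (rh_cont d _ (tn_pos n)).aestronglyMeasurable) ?_
  filter_upwards [ae_restrict_mem (S0_meas d)] with E hE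
  exact im_tend hγ E hE

/-- Fatou -/
theorem im_int (hd : 1 ≤ d) (hγ : ∀ E, E ∈ S0 d →
    Tendsto (fun t : ℝ => GF (F0 d) ((E : ℂ) + (t : ℂ) * Complex.I)) (𝓝[>] 0) (𝓝 (γ0 E))) :
    IntegrableOn (fun E => (γ0 E).im) (S0 d) ∧ ∫ E in S0 d, (γ0 E).im ≤ Real.pi := by
  have h1 : ∫⁻ E in S0 d, ENNReal.ofReal (γ0 E).im ≤ ENNReal.ofReal Real.pi := by
    have h2 : ∫⁻ E in S0 d, ENNReal.ofReal (γ0 E).im = ∫⁻ E in S0 d,
        liminf (fun n : ℕ => ENNReal.ofReal (rh d (1 / ((n : ℝ) + 1)) E)) atTop := by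
      refine setLIntegral_congr_fun (S0_meas d) fun E hE => ?_
      exact (((ENNReal.continuous_ofReal.tendsto _).comp (im_tend hγ E hE)).liminf_eq).symm
    rw [h2]
    refine (lintegral_liminf_le fun n =>
      ((rh_cont d _ (tn_pos n)).measurable.ennreal_ofReal)).trans ?_
    refine liminf_le_of_frequently_le' (Frequently.of_forall fun n => ?_)
    have h3 := (mass_t d hd _ (tn_pos n) (tn_le n)).2
    have hi : IntegrableOn (rh d (1 / ((n : ℝ) + 1))) (Icc (-(3 * d : ℝ)) (3 * d)) :=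
      (rh_cont d _ (tn_pos n)).continuousOn.integrableOn_Icc
    have h4 : ∫⁻ E in Icc (-(3 * d : ℝ)) (3 * d),
        ENNReal.ofReal (rh d (1 / ((n : ℝ) + 1)) E) ≤ ENNReal.ofReal Real.pi := by
      rw [← ofReal_integral_eq_lintegral_ofReal hi (Eventually.of_forall fun E =>
        rh_nonneg d _ E (tn_pos n) (tn_le n))]
      exact ENNReal.ofReal_le_ofReal h3
    exact (lintegral_mono_set (S0_sub d)).trans h4
  have h0 : 0 ≤ᵐ[volume.restrict (S0 d)] fun E => (γ0 E).im := by
    filter_upwards [ae_restrict_mem (S0_meas d)] with E hE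
    exact im_nonneg hγ E hE
  have hi : IntegrableOn (fun E => (γ0 E).im) (S0 d) := by
    refine ⟨im_meas hγ, ?_⟩
    rw [hasFiniteIntegral_iff_ofReal h0]
    exact h1.trans_lt ENNReal.ofReal_lt_top
  refine ⟨hi, ?_⟩
  rw [← ofReal_integral_eq_lintegral_ofReal hi h0] at h1
  exact (ENNReal.ofReal_le_ofReal_iff Real.pi_pos.le).1 h1

/-- the lower bound -/
theorem mass_key (hO : S_OSC) (hd : 2 ≤ d) (hγ : ∀ E, E ∈ S0 d →
    Tendsto (fun t : ℝ => GF (F0 d) ((E : ℂ) + (t : ℂ) * Complex.I)) (𝓝[>] 0) (𝓝 (γ0 E)))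
    (κ K : ℝ) (hκ : 0 < κ) (hκ1 : κ ≤ 1) (hK : 0 < K) :
    Real.pi ≤ (∫ E in SR d κ, (γ0 E).im) + 2 * C2 / K + 6 * K * κ := by
  have hd2 : (2 : ℝ) ≤ d := by exact_mod_cast hd
  obtain ⟨W, hW⟩ : ∃ W : Set ℝ, W = Icc (-(3 * d : ℝ)) (3 * d) := ⟨_, rfl⟩
  have hWm : MeasurableSet W := by rw [hW]; exact measurableSet_Icc
  have hSW : SR d κ ⊆ W := by rw [hW]; exact (SR_sub d κ hκ).trans (S0_sub d)
  have hSm := SR_meas d κ
  obtain ⟨hgi, -⟩ := im_int (by omega : 1 ≤ d) hγ
  have hgS : IntegrableOn (fun E => (γ0 E).im) (SR d κ) := hgi.mono_set (SR_sub d κ hκ)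
  have hWfin : volume W ≠ ⊤ := by rw [hW]; simp
  have hWfin' : volume W < ⊤ := lt_top_iff_ne_top.2 hWfin
  have hSfin : volume (SR d κ) ≠ ⊤ := ((measure_mono hSW).trans_lt hWfin').ne
  have hDfin : volume (W \ SR d κ) ≠ ⊤ := ((measure_mono sdiff_subset).trans_lt hWfin').ne
  have key : ∀ t : ℝ, 0 < t → t ≤ 1 → 2 * Real.arctan (d / t) ≤
      (∫ E in SR d κ, min (rh d t E) K) + 2 * C2 / K + 6 * K * κ + 6 * d * (t / κ ^ 2) := by
    intro t ht ht1
    have hrc := rh_cont d t ht
    have hrW : IntegrableOn (rh d t) W := by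
      rw [hW]
      exact hrc.continuousOn.integrableOn_Icc
    have h1 := (mass_t d (by omega) t ht ht1).1
    rw [← hW, ← integral_inter_add_sdiff (s := W) hSm hrW, inter_eq_self_of_subset_right hSW] at h1
    have hm0 : IntegrableOn (fun E => min (rh d t E) K) (SR d κ) := by
      have : IntegrableOn (fun E => min (rh d t E) K) W := by
        rw [hW]
        exact (hrc.min continuous_const).continuousOn.integrableOn_Icc
      exact this.mono_set hSW
    have h2 := rh_cut hO d hd t ht (SR d κ) hSm hSfin K hK (fun E => min (rh d t E) K) hm0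
      (fun E _ hE => by rw [min_eq_left hE]) (fun E _ => le_min (rh_nonneg d t E ht ht1) hK.le)
      (hrW.mono_set hSW)
    obtain ⟨f, hf⟩ : ∃ f : ℝ → ℝ, f = fun E => K * ((Icc (-κ) κ).indicator (1 : ℝ → ℝ) E +
      (Icc (2 * d - κ) (2 * d + κ)).indicator (1 : ℝ → ℝ) E +
      (Icc (-(2 * d) - κ) (-(2 * d) + κ)).indicator (1 : ℝ → ℝ) E) + t / κ ^ 2 := ⟨_, rfl⟩
    have hind : ∀ a b : ℝ, Integrable ((Icc a b).indicator (1 : ℝ → ℝ)) := by
      intro a b
      rw [integrable_indicator_iff measurableSet_Icc]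
      exact integrableOn_const (by simp)
    have hfi : IntegrableOn f (W \ SR d κ) := by
      rw [hf]
      refine Integrable.add ?_ (integrableOn_const hDfin)
      exact ((((hind _ _).add (hind _ _)).add (hind _ _)).const_mul K).integrableOn
    have hin : ∀ (a b E : ℝ), (0 : ℝ) ≤ (Icc a b).indicator (1 : ℝ → ℝ) E := fun a b E =>
      indicator_nonneg (fun _ _ => zero_le_one) _
    have hf0 : ∀ E, 0 ≤ f E := by
      intro E
      rw [hf]
      have a1 := hin (-κ) κ E
      have a2 := hin (2 * d - κ) (2 * d + κ) E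
      have a3 := hin (-(2 * d) - κ) (-(2 * d) + κ) E
      positivity
    have h3 := rh_cut hO d hd t ht (W \ SR d κ) (hWm.diff hSm) hDfin K hK f hfi
      (fun E hE hEK => by
        have a1 := hin (-κ) κ E
        have a2 := hin (2 * d - κ) (2 * d + κ) E
        have a3 := hin (-(2 * d) - κ) (-(2 * d) + κ) E
        have a4 : 0 ≤ t / κ ^ 2 := by positivity
        rw [hf]
        simp only
        rcases lt_or_ge |E| κ with h5 | h5
        · have h6 : E ∈ Icc (-κ) κ := abs_le.1 h5.le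
          rw [indicator_of_mem h6, Pi.one_apply]
          nlinarith
        · have h7 : 2 * d - κ < |E| := by
            by_contra hcon
            exact hE.2 ⟨h5, not_lt.1 hcon⟩
          rcases le_or_gt |E| (2 * d + κ) with h8 | h8
          · rcases le_total 0 E with h9 | h9
            · rw [abs_of_nonneg h9] at h7 h8
              have h6 : E ∈ Icc (2 * d - κ) (2 * d + κ) := ⟨h7.le, h8⟩
              rw [indicator_of_mem h6, Pi.one_apply]
              nlinarith
            · rw [abs_of_nonpos h9] at h7 h8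
              have h6 : E ∈ Icc (-(2 * d) - κ) (-(2 * d) + κ) := ⟨by linarith, by linarith⟩
              rw [indicator_of_mem h6, Pi.one_apply]
              nlinarith
          · have h9 := rh_far d E t (by linarith) ht ht1
            have h10 : t / (|E| - 2 * d) ^ 2 ≤ t / κ ^ 2 := by
              apply div_le_div_of_nonneg_left ht.le (by positivity)
              exact pow_le_pow_left₀ hκ.le (by linarith) 2
            have : 0 ≤ K * ((Icc (-κ) κ).indicator (1 : ℝ → ℝ) E +
              (Icc (2 * d - κ) (2 * d + κ)).indicator (1 : ℝ → ℝ) E +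
              (Icc (-(2 * d) - κ) (-(2 * d) + κ)).indicator (1 : ℝ → ℝ) E) := by positivity
            linarith) (fun E _ => hf0 E) (hrW.mono_set sdiff_subset)
    have h4 : ∫ E in W \ SR d κ, f E ≤ 6 * K * κ + 6 * d * (t / κ ^ 2) := by
      have hg : ∫ E in W \ SR d κ, f E = (∫ E in W \ SR d κ,
          K * ((Icc (-κ) κ).indicator (1 : ℝ → ℝ) E +
          (Icc (2 * d - κ) (2 * d + κ)).indicator (1 : ℝ → ℝ) E +
          (Icc (-(2 * d) - κ) (-(2 * d) + κ)).indicator (1 : ℝ → ℝ) E)) +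
          ∫ E in W \ SR d κ, t / κ ^ 2 := by
        rw [hf]
        exact integral_add
          ((((hind _ _).add (hind _ _)).add (hind _ _)).const_mul K).integrableOn
          (integrableOn_const hDfin)
      rw [hg]
      refine add_le_add ?_ ?_
      · have hg12 : Integrable fun E : ℝ => (Icc (-κ) κ).indicator (1 : ℝ → ℝ) E +
            (Icc (2 * d - κ) (2 * d + κ)).indicator (1 : ℝ → ℝ) E := (hind _ _).add (hind _ _)
        have hg3 : Integrable fun E : ℝ => (Icc (-κ) κ).indicator (1 : ℝ → ℝ) E +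
            (Icc (2 * d - κ) (2 * d + κ)).indicator (1 : ℝ → ℝ) E +
            (Icc (-(2 * d) - κ) (-(2 * d) + κ)).indicator (1 : ℝ → ℝ) E := hg12.add (hind _ _)
        have hv : ∀ a b : ℝ, a ≤ b → ∫ E, (Icc a b).indicator (1 : ℝ → ℝ) E = b - a := by
          intro a b hab
          rw [integral_indicator measurableSet_Icc]
          simp only [Pi.one_apply]
          rw [setIntegral_const, Real.volume_real_Icc_of_le hab, smul_eq_mul, mul_one]
        have hle := setIntegral_le_integral (s := W \ SR d κ) (hg3.const_mul K)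
          (Eventually.of_forall fun E => by
            have a1 := hin (-κ) κ E
            have a2 := hin (2 * d - κ) (2 * d + κ) E
            have a3 := hin (-(2 * d) - κ) (-(2 * d) + κ) E
            exact mul_nonneg hK.le (add_nonneg (add_nonneg a1 a2) a3))
        refine hle.trans (le_of_eq ?_)
        rw [integral_const_mul, integral_add hg12 (hind _ _),
          integral_add (hind _ _) (hind _ _), hv _ _ (by linarith), hv _ _ (by linarith),
          hv _ _ (by linarith)]
        ring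
      · rw [setIntegral_const, smul_eq_mul]
        have h5 : volume.real (W \ SR d κ) ≤ 6 * d := by
          have h6 : volume.real (W \ SR d κ) ≤ volume.real W :=
            measureReal_mono sdiff_subset hWfin
          rw [hW, Real.volume_real_Icc_of_le (by linarith)] at h6
          rw [hW]
          linarith
        gcongr
    have e1 : 2 * C2 / K = C2 / K + C2 / K := by ring
    rw [e1]
    linarith
  have hlim : Tendsto (fun n : ℕ => (∫ E in SR d κ, min (rh d (1 / ((n : ℝ) + 1)) E) K) +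
      2 * C2 / K + 6 * K * κ + 6 * d * ((1 / ((n : ℝ) + 1)) / κ ^ 2)) atTop
      (𝓝 ((∫ E in SR d κ, min (γ0 E).im K) + 2 * C2 / K + 6 * K * κ + 6 * d * (0 / κ ^ 2))) := by
    refine Tendsto.add (Tendsto.add (Tendsto.add ?_ tendsto_const_nhds) tendsto_const_nhds) ?_
    · refine tendsto_integral_of_dominated_convergence (fun _ => K)
        (fun n => ((rh_cont d _ (tn_pos n)).min continuous_const).aestronglyMeasurable)
        (integrableOn_const hSfin) (fun n => Eventually.of_forall fun E => ?_) ?_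
      · rw [Real.norm_of_nonneg (le_min (rh_nonneg d _ E (tn_pos n) (tn_le n)) hK.le)]
        exact min_le_right _ _
      · filter_upwards [ae_restrict_mem hSm] with E hE
        exact (im_tend hγ E (SR_sub d κ hκ hE)).min tendsto_const_nhds
    · exact (tendsto_one_div_add_atTop_nhds_zero_nat.div_const _).const_mul _
  have hlim2 : Tendsto (fun n : ℕ => 2 * Real.arctan (d / (1 / ((n : ℝ) + 1)))) atTop
      (𝓝 (2 * (Real.pi / 2))) := by
    refine Tendsto.const_mul _ ?_
    have h1 : Tendsto (fun t : ℝ => (d : ℝ) / t) (𝓝[>] 0) atTop := by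
      have := tendsto_inv_nhdsGT_zero (𝕜 := ℝ)
      exact (this.const_mul_atTop (by linarith : (0 : ℝ) < d)).congr
        fun t => by rw [div_eq_mul_inv]
    exact ((Real.tendsto_arctan_atTop.mono_right nhdsWithin_le_nhds).comp h1).comp tn_tend
  have h5 := le_of_tendsto_of_tendsto' hlim2 hlim fun n => key _ (tn_pos n) (tn_le n)
  have h6 : ∫ E in SR d κ, min (γ0 E).im K ≤ ∫ E in SR d κ, (γ0 E).im := by
    refine setIntegral_mono_on ?_ hgS hSm fun E _ => min_le_left _ _
    refine Integrable.mono' hgS ((hgS.aestronglyMeasurable).inf aestronglyMeasurable_const) ?_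
    filter_upwards [ae_restrict_mem hSm] with E hE
    have h7 := im_nonneg hγ E (SR_sub d κ hκ hE)
    rw [Real.norm_of_nonneg (le_min h7 hK.le)]
    exact min_le_left _ _
  have e2 : 2 * (Real.pi / 2) = Real.pi := by ring
  rw [e2, zero_div, mul_zero, add_zero] at h5
  linarith

/-- **the mass** -/
theorem mass_S (hO : S_OSC) (hd : 2 ≤ d) (hγ : ∀ E, E ∈ S0 d →
    Tendsto (fun t : ℝ => GF (F0 d) ((E : ℂ) + (t : ℂ) * Complex.I)) (𝓝[>] 0) (𝓝 (γ0 E)))
    (ε : ℝ) (hε : 0 < ε) : ∃ κ : ℝ, 0 < κ ∧ κ ≤ 1 ∧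
      Real.pi - ε ≤ ∫ E in SR d κ, (γ0 E).im := by
  obtain ⟨K, hK⟩ : ∃ K, K = 4 * C2 / ε + 1 := ⟨_, rfl⟩
  have hC := C2_nonneg
  have hK0 : 0 < K := by rw [hK]; positivity
  obtain ⟨κ, hκ⟩ : ∃ κ, κ = min 1 (ε / (12 * K)) := ⟨_, rfl⟩
  have hκ0 : 0 < κ := by rw [hκ]; exact lt_min one_pos (by positivity)
  refine ⟨κ, hκ0, by rw [hκ]; exact min_le_left _ _, ?_⟩
  have h1 := mass_key hO hd hγ κ K hκ0 (by rw [hκ]; exact min_le_left _ _) hK0
  have h2 : 2 * C2 / K ≤ ε / 2 := by
    rw [div_le_iff₀ hK0, hK]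
    have : ε / 2 * (4 * C2 / ε + 1) = 2 * C2 + ε / 2 := by
      field_simp
      ring
    rw [this]
    linarith
  have h3 : 6 * K * κ ≤ ε / 2 := by
    have h4 : κ ≤ ε / (12 * K) := by rw [hκ]; exact min_le_right _ _
    rw [le_div_iff₀ (by positivity)] at h4
    linarith
  linarith

end

end Pool.Agent.V11260.QT
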