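import Pool.Agent.V11260.QT.ProfD
import Pool.Agent.V11260.QT.Mass
import Pool.Agent.TH794.HK.FinL
import Pool.Agent.TH794.HK.FinM

/-! The law of the characteristic function of the resolvent, for nonnegative weights. -/

set_option autoImplicit false

open MeasureTheory Set Filter
open scoped ENNReal Topology BigOperators

namespace Pool.Agent.V11260.QT

open Pool.Agent.W788.BK
open Pool.Agent.H4R2.LO (Zd)
open Pool.Agent.TH794.QD (Sol La GF F0 F1)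
open Pool.Agent.TH794.QE (Rs RegE)
open Pool.Agent.TH794.HK (ph Tg EngK)

section

variable {d : ℕ}

/-- the phase -/
noncomputable def th (p : Fin d → ℝ) (a x : Zd d) : ℝ := ∑ i, p i * (((x - a) i : ℤ) : ℝ)

noncomputable def wc (p : Fin d → ℝ) (a x : Zd d) : ℝ := 1 + Real.cos (th p a x)

noncomputable def ws (p : Fin d → ℝ) (a x : Zd d) : ℝ := 1 + Real.sin (th p a x)

theorem wc_0 (p : Fin d → ℝ) (a x : Zd d) : 0 ≤ wc p a x := by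
  unfold wc
  linarith [Real.neg_one_le_cos (th p a x)]

theorem wc_2 (p : Fin d → ℝ) (a x : Zd d) : wc p a x ≤ 2 := by
  unfold wc
  linarith [Real.cos_le_one (th p a x)]

theorem ws_0 (p : Fin d → ℝ) (a x : Zd d) : 0 ≤ ws p a x := by
  unfold ws
  linarith [Real.neg_one_le_sin (th p a x)]

theorem ws_2 (p : Fin d → ℝ) (a x : Zd d) : ws p a x ≤ 2 := by
  unfold ws
  linarith [Real.sin_le_one (th p a x)]

theorem ph_pt (p : Fin d → ℝ) (a x : Zd d) (t : ℝ) : ph p (x - a) * ((t : ℝ) : ℂ) =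
    ((wc p a x * t - 1 * t : ℝ) : ℂ) + ((ws p a x * t - 1 * t : ℝ) : ℂ) * Complex.I := by
  unfold ph wc ws
  have e : (∑ i, p i * (((x - a) i : ℤ) : ℝ)) = th p a x := rfl
  rw [e, mul_comm Complex.I, Complex.exp_mul_I]
  push_cast
  ring

theorem ph_sum (p : Fin d → ℝ) (a : Zd d) (u : Zd d → ℂ) (hu : Summable fun x => ‖u x‖ ^ 2) :
    ∑' x, ph p (x - a) * ((‖u x‖ ^ 2 : ℝ) : ℂ) =
      ((Aw (wc p a) u - Aw (fun _ => 1) u : ℝ) : ℂ) +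
        ((Aw (ws p a) u - Aw (fun _ => 1) u : ℝ) : ℂ) * Complex.I := by
  have h0 := Aw_sum (fun _ => 1) (fun _ => zero_le_one) (fun _ => one_le_two) u hu
  have hc := Aw_sum (wc p a) (wc_0 p a) (wc_2 p a) u hu
  have hs := Aw_sum (ws p a) (ws_0 p a) (ws_2 p a) u hu
  have e1 : Aw (wc p a) u - Aw (fun _ => 1) u =
      ∑' x, (wc p a x * ‖u x‖ ^ 2 - 1 * ‖u x‖ ^ 2) := (hc.tsum_sub h0).symm
  have e2 : Aw (ws p a) u - Aw (fun _ => 1) u =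
      ∑' x, (ws p a x * ‖u x‖ ^ 2 - 1 * ‖u x‖ ^ 2) := (hs.tsum_sub h0).symm
  rw [e1, e2, Complex.ofReal_tsum, Complex.ofReal_tsum, ← tsum_mul_right,
    ← Summable.tsum_add]
  · exact tsum_congr fun x => ph_pt p a x _
  · exact Complex.summable_ofReal.2 (hc.sub h0)
  · exact (Complex.summable_ofReal.2 (hs.sub h0)).mul_right _

theorem ph_norm_law (p : Fin d → ℝ) (a : Zd d) (u : Zd d → ℂ)
    (hu : Summable fun x => ‖u x‖ ^ 2) (η T G ε : ℝ)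
    (h1 : ‖((η : ℝ) : ℂ) * ∑' x, ph p (x - a) * ((‖u x‖ ^ 2 : ℝ) : ℂ) - ((T : ℝ) : ℂ)‖ ≤ ε)
    (h0 : |η * Aw (fun _ => 1) u - G| ≤ ε) :
    |η * Aw (wc p a) u - (G + T)| ≤ 2 * ε ∧ |η * Aw (ws p a) u - G| ≤ 2 * ε := by
  rw [ph_sum p a u hu] at h1
  have hre := (Complex.abs_re_le_norm _).trans h1
  have him := (Complex.abs_im_le_norm _).trans h1
  have er : ∀ A B : ℝ, (((η : ℝ) : ℂ) * (((A : ℝ) : ℂ) + ((B : ℝ) : ℂ) * Complex.I) -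
      ((T : ℝ) : ℂ)).re = η * A - T := fun A B => by simp
  have ei : ∀ A B : ℝ, (((η : ℝ) : ℂ) * (((A : ℝ) : ℂ) + ((B : ℝ) : ℂ) * Complex.I) -
      ((T : ℝ) : ℂ)).im = η * B := fun A B => by simp
  rw [er] at hre
  rw [ei] at him
  have a0 := abs_le.1 h0
  have a1 := abs_le.1 hre
  have a2 := abs_le.1 him
  constructor
  · rw [abs_le]
    constructor <;> nlinarith [a0.1, a0.2, a1.1, a1.2]
  · rw [abs_le]
    constructor <;> nlinarith [a0.1, a0.2, a2.1, a2.2]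

theorem Tg_zero (γ0 γ1 : ℝ → ℂ) (t s2 E : ℝ) : Tg γ0 γ1 t s2 E (fun _ : Fin d => (0 : ℝ)) =
    (γ0 E).im := by
  unfold Tg
  simp

theorem ph_zero (x : Zd d) : ph (fun _ : Fin d => (0 : ℝ)) x = 1 := by
  unfold ph
  simp

theorem one_law (a : Zd d) (u : Zd d → ℂ) (η : ℝ) (γ0 γ1 : ℝ → ℂ) (t s2 E ε : ℝ)
    (h1 : ‖((η : ℝ) : ℂ) * ∑' x, ph (fun _ : Fin d => (0 : ℝ)) (x - a) *
      ((‖u x‖ ^ 2 : ℝ) : ℂ) - ((Tg γ0 γ1 t s2 E (fun _ : Fin d => (0 : ℝ)) : ℝ) : ℂ)‖ ≤ ε) :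
    |η * Aw (fun _ => 1) u - (γ0 E).im| ≤ ε := by
  rw [Tg_zero] at h1
  simp only [ph_zero, one_mul] at h1
  rw [← Complex.ofReal_tsum, ← Complex.ofReal_mul, ← Complex.ofReal_sub, Complex.norm_real,
    Real.norm_eq_abs] at h1
  unfold Aw
  simpa only [one_mul] using h1

end

/-- the law, in every dimension -/
theorem prof_law (hES : S_ES) (hTH : S_THIRD) (hFL : S_FLUCT) (hIN : S_INV)
    (hSU : S_SUP) (hQB : S_QB) (hLO : S_LOW) (hAD : S_ADM) (hFA : S_FAC) (hO : S_OSC)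
    (d : ℕ) (hd : 2 ≤ d) : ∃ γ0 γ1 : ℝ → ℂ,
    (∀ E, E ∈ S0 d →
      Tendsto (fun t : ℝ => GF (F0 d) ((E : ℂ) + (t : ℂ) * Complex.I)) (𝓝[>] 0) (𝓝 (γ0 E)) ∧
      Tendsto (fun t : ℝ => GF (F1 d) ((E : ℂ) + (t : ℂ) * Complex.I)) (𝓝[>] 0) (𝓝 (γ1 E)) ∧
      0 < (γ1 E).im ∧ (γ1 E).im ≤ (γ0 E).im) ∧
    ∀ κ b v K : ℝ, 0 < κ → κ ≤ 1 → 0 < b → 0 < v → 0 ≤ K →
    ∃ c0 : ℝ, 0 < c0 ∧ ∀ c : ℝ, 0 < c → c ≤ c0 →
    ∀ (μ : Measure ℝ), IsProbabilityMeasure μ → (∀ᵐ s ∂μ, |s| ≤ b) →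
    ∀ Mn V : ℝ, ∫ s, s ∂μ = Mn → ∫ s, (s - Mn) ^ 2 ∂μ = V → v ≤ V →
      ∃ G : Set (Zd d → ℝ), MeasurableSet G ∧
        1 - Real.exp (-c ^ (-(1 / 101) : ℝ)) ≤
          (Measure.infinitePi fun _ : Zd d => μ).real G ∧
        ∀ ω ∈ G, (∀ x, |ω x| ≤ b) ∧
          ∀ a : Zd d, ‖a‖ ≤ Real.exp (c ^ (-(1 / 101) : ℝ)) →
          ∀ e : ℝ, 2 * d + c * Mn - e ∈ SR d κ → ∀ η : ℝ, c ^ (81 / 40 : ℝ) ≤ η →
          η ≤ c ^ (161 / 80 : ℝ) →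
          ∀ u : Zd d → ℂ, Rs d (fun x => 2 * d + c * ω x) a e η u →
          |η * Aw (fun _ => 1) u - (γ0 (2 * d + c * Mn - e)).im| ≤ c ^ (1 / 200 : ℝ) ∧
          ∀ p : Fin d → ℝ, ∑ i, p i ^ 2 ≤ K * (η * (c ^ 2 * V)) →
            |η * Aw (wc p a) u - ((γ0 (2 * d + c * Mn - e)).im +
              Tg γ0 γ1 η (c ^ 2 * V) (2 * d + c * Mn - e) p)| ≤ 2 * c ^ (1 / 200 : ℝ) ∧
            |η * Aw (ws p a) u - (γ0 (2 * d + c * Mn - e)).im| ≤ 2 * c ^ (1 / 200 : ℝ) := by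
  obtain ⟨γ0, γ1, h⟩ := Pool.Agent.TH794.HK.engK_all hES hTH hFL hIN hSU hQB hLO hAD hFA hO d hd
  have hreg : ∀ κ E : ℝ, 0 < κ → E ∈ SR d κ → RegE d κ E ∧ |E| ≤ 2 * d - κ := by
    rintro κ E hκ ⟨h1, h2⟩
    refine ⟨?_, h2⟩
    by_cases hd2 : d = 2
    · refine Or.inl ⟨hd2, h1, ?_⟩
      rw [hd2] at h2
      push_cast at h2
      linarith
    · refine Or.inr ⟨by omega, ?_⟩
      have hd0 : (0 : ℝ) ≤ d := Nat.cast_nonneg d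
      linarith
  refine ⟨γ0, γ1, fun E hE => ?_, fun κ b v K hκ hκ1 hb hv hK => ?_⟩
  · obtain ⟨hE0, hE4⟩ := hE
    obtain ⟨κ, hκ⟩ : ∃ κ, κ = min 1 (min |E| (2 * d - |E|)) := ⟨_, rfl⟩
    have hκ0 : 0 < κ := by
      rw [hκ]
      exact lt_min one_pos (lt_min hE0 (by linarith))
    have hκ1 : κ ≤ 1 := by rw [hκ]; exact min_le_left _ _
    have hk1 : κ ≤ |E| := by rw [hκ]; exact (min_le_right _ _).trans (min_le_left _ _)
    have hk2 : |E| ≤ 2 * d - κ := by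
      have : κ ≤ 2 * d - |E| := by rw [hκ]; exact (min_le_right _ _).trans (min_le_right _ _)
      linarith
    obtain ⟨h1, ⟨m, hm, h2⟩, -⟩ := h κ hκ0 hκ1
    obtain ⟨k0, k0'⟩ := hreg κ E hκ0 ⟨hk1, hk2⟩
    obtain ⟨k1, k2, k3, k4⟩ := h1 E k0
    have k5 := h2 E k0 k0'
    exact ⟨k1, k2, by linarith, k4⟩
  · obtain ⟨h1, ⟨m, hm, h2⟩, h3⟩ := h κ hκ hκ1
    obtain ⟨c0, hc0, h4⟩ := Pool.Agent.TH794.HK.finL d
      (fun E => RegE d κ E ∧ |E| ≤ 2 * d - κ) γ0 γ1 b v K hb hv hK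
      (h3 (2 * b) v (2 * K) (by positivity) hv (by positivity)) fun E hE => by
        obtain ⟨-, -, h5, h6⟩ := h1 E hE.1
        have h7 := h2 E hE.1 hE.2
        exact ⟨by linarith, h5, h6⟩
    refine ⟨c0, hc0, fun c hc hcc μ hμ hμb Mn V hM hV hvV => ?_⟩
    obtain ⟨G, hG, hP, hL⟩ := h4 c hc hcc μ hμ hμb Mn V hM hV hvV
    refine ⟨G, hG, hP, fun ω hω => ?_⟩
    obtain ⟨hωb, hL'⟩ := hL ω hω
    refine ⟨hωb, fun a ha e he η hη1 hη2 u hu => ?_⟩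
    have hη0 : 0 < η := lt_of_lt_of_le (Real.rpow_pos_of_pos hc _) hη1
    have hV0 : 0 < V := hv.trans_le hvV
    have hB := hreg κ _ hκ he
    have z1 := one_law a u η γ0 γ1 η (c ^ 2 * V) (2 * d + c * Mn - e) (c ^ (1 / 200 : ℝ))
      (hL' a ha e hB η hη1 hη2 u hu (fun _ => 0) (by
        simp only [ne_eq, OfNat.ofNat_ne_zero, not_false_eq_true, zero_pow, Finset.sum_const_zero]
        positivity))
    refine ⟨z1, fun p hp => ?_⟩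
    exact ph_norm_law p a u hu.sq η _ _ _ (hL' a ha e hB η hη1 hη2 u hu p hp) z1

end Pool.Agent.V11260.QT
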