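import Pool.Agent.V11260.QT.Law

/-! The limit of the profile and its measurability. -/

set_option autoImplicit false

open MeasureTheory Set Filter
open scoped ENNReal Topology BigOperators

namespace Pool.Agent.V11260.QT

open Pool.Agent.W788.BK
open Pool.Agent.H4R2.LO (Zd)
open Pool.Agent.TH794.QD (Sol La GF F0 F1 Pf CH hol0 hol1)

theorem hold_cont (f : ℝ → ℂ) (C : ℝ) (h : ∀ E E' : ℝ, ‖f E - f E'‖ ≤ C * |E - E'| ^ (1 / 8 : ℝ)) :
    Continuous f := by
  rw [continuous_iff_continuousAt]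
  intro E
  unfold ContinuousAt
  rw [tendsto_iff_norm_sub_tendsto_zero]
  have hc : Continuous fun E' : ℝ => C * |E' - E| ^ (1 / 8 : ℝ) := by
    have := Real.continuous_rpow_const (show (0 : ℝ) ≤ 1 / 8 by norm_num)
    fun_prop
  have l1 := hc.tendsto E
  rw [sub_self, abs_zero, Real.zero_rpow (by norm_num), mul_zero] at l1
  exact squeeze_zero (fun _ => norm_nonneg _) (fun E' => h E' E) l1

theorem g0_cont (hO : S_OSC) (d : ℕ) (hd : 3 ≤ d) : Continuous fun E : ℝ => GF (F0 d) (E : ℂ) := by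
  refine hold_cont _ (CH d) fun E E' => ?_
  have h := hol0 hO d hd (E : ℂ) (E' : ℂ) (by simp) (by simp)
  rw [← Complex.ofReal_sub, Complex.norm_real, Real.norm_eq_abs] at h
  exact h

theorem g1_cont (hO : S_OSC) (d : ℕ) (hd : 3 ≤ d) : Continuous fun E : ℝ => GF (F1 d) (E : ℂ) := by
  refine hold_cont _ (CH d) fun E E' => ?_
  have h := hol1 hO d hd (E : ℂ) (E' : ℂ) (by simp) (by simp)
  rw [← Complex.ofReal_sub, Complex.norm_real, Real.norm_eq_abs] at h
  exact h

theorem Pf_meas (hO : S_OSC) (d : ℕ) (hd : 3 ≤ d) (u : ℝ) : Measurable (Pf d u) := by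
  unfold Pf
  have h0 := (Complex.continuous_im.comp (g0_cont hO d hd)).measurable
  have h1 := (Complex.continuous_im.comp (g1_cont hO d hd)).measurable
  exact h1.div (h0.const_add u)

theorem Pf_tend (hO : S_OSC) (d : ℕ) (hd : 3 ≤ d) (E : ℝ) :
    Tendsto (fun u => Pf d u E) (𝓝[>] 0) (𝓝 (Pf d 0 E)) := by
  have h := Pool.Agent.TH794.QD.GF_im hO d hd (E : ℂ) (by simp)
  unfold Pf
  by_cases h0 : (GF (F0 d) (E : ℂ)).im = 0
  · have h1 : (GF (F1 d) (E : ℂ)).im = 0 := le_antisymm (h0 ▸ h.2) h.1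
    simp only [h1, zero_div]
    exact tendsto_const_nhds
  · refine Tendsto.div tendsto_const_nhds ?_ (by rw [zero_add]; exact h0)
    exact (continuous_id.add continuous_const).continuousWithinAt

/-- the mean diffusion constant -/
noncomputable def Db (d : ℕ) : ℝ := Real.pi⁻¹ * ∫ E in Icc (-(3 * d : ℝ)) (3 * d), Pf d 0 E

theorem Db_tend (hO : S_OSC) (d : ℕ) (hd : 3 ≤ d) :
    Tendsto (fun u => Real.pi⁻¹ * ∫ E in Icc (-(3 * d : ℝ)) (3 * d), Pf d u E) (𝓝[>] 0)
      (𝓝 (Db d)) := by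
  unfold Db
  refine Tendsto.const_mul _ ?_
  refine tendsto_integral_filter_of_dominated_convergence (fun _ => (1 : ℝ))
    (Eventually.of_forall fun u => (Pf_meas hO d hd u).aestronglyMeasurable) ?_
    (by simp) (Eventually.of_forall fun E => Pf_tend hO d hd E)
  filter_upwards [self_mem_nhdsWithin] with u hu
  have hu0 : 0 < u := hu
  refine Eventually.of_forall fun E => ?_
  rw [Real.norm_of_nonneg (Pool.Agent.TH794.QD.Pf_nonneg hO d hd u E hu0.le)]
  exact Pool.Agent.TH794.QD.Pf_le hO d hd u E hu0.le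

theorem Db_nonneg (hO : S_OSC) (d : ℕ) (hd : 3 ≤ d) : 0 ≤ Db d := by
  unfold Db
  exact mul_nonneg (inv_nonneg.2 Real.pi_pos.le)
    (integral_nonneg fun E => Pool.Agent.TH794.QD.Pf_nonneg hO d hd 0 E le_rfl)

end Pool.Agent.V11260.QT
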