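import Pool.Agent.TH794.QD.Planch

/-! Plancherel for Laplace transforms on vertical lines. -/

set_option autoImplicit false

open MeasureTheory FourierTransform Set Filter
open scoped ENNReal Topology

namespace Pool.Agent.V11260.QT

/-- the cut off function -/
noncomputable def gg (η : ℝ) (f : ℝ → ℂ) (s : ℝ) : ℂ :=
  (Ioi (0 : ℝ)).indicator (fun s => ((Real.exp (-η * s) : ℝ) : ℂ) * f s) s

theorem exp_int (t : ℝ) (ht : 0 < t) : IntegrableOn (fun s => Real.exp (-t * s)) (Ioi (0 : ℝ)) :=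
  exp_neg_integrableOn_Ioi 0 ht

theorem gg_norm (η : ℝ) (f : ℝ → ℂ) (hb : ∀ s, ‖f s‖ ≤ 1) (s : ℝ) :
    ‖gg η f s‖ ≤ (Ioi (0 : ℝ)).indicator (fun s => Real.exp (-η * s)) s := by
  unfold gg
  by_cases hs : s ∈ Ioi (0 : ℝ)
  · rw [indicator_of_mem hs, indicator_of_mem hs, norm_mul, Complex.norm_real,
      Real.norm_of_nonneg (Real.exp_pos _).le]
    exact mul_le_of_le_one_right (Real.exp_pos _).le (hb s)
  · rw [indicator_of_notMem hs, indicator_of_notMem hs, norm_zero]

theorem gg_meas (η : ℝ) (f : ℝ → ℂ) (hf : Continuous f) : Measurable (gg η f) := by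
  unfold gg
  have h : Measurable fun s => ((Real.exp (-η * s) : ℝ) : ℂ) * f s := by
    have := hf.measurable
    fun_prop
  exact h.indicator measurableSet_Ioi

theorem gg_int (η : ℝ) (hη : 0 < η) (f : ℝ → ℂ) (hf : Continuous f) (hb : ∀ s, ‖f s‖ ≤ 1) :
    Integrable (gg η f) := by
  refine Integrable.mono' (g := (Ioi (0 : ℝ)).indicator (fun s => Real.exp (-η * s))) ?_
    (gg_meas η f hf).aestronglyMeasurable (Eventually.of_forall fun s => gg_norm η f hb s)
  exact (exp_int η hη).integrable_indicator measurableSet_Ioi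

theorem gg_mem (η : ℝ) (hη : 0 < η) (f : ℝ → ℂ) (hf : Continuous f) (hb : ∀ s, ‖f s‖ ≤ 1) :
    MemLp (gg η f) 2 := by
  rw [memLp_two_iff_integrable_sq_norm (gg_meas η f hf).aestronglyMeasurable]
  refine Integrable.mono' (g := (Ioi (0 : ℝ)).indicator (fun s => Real.exp (-η * s))) ?_
    ((gg_meas η f hf).norm.pow_const 2).aestronglyMeasurable (Eventually.of_forall fun s => ?_)
  · exact (exp_int η hη).integrable_indicator measurableSet_Ioi
  · have h1 := gg_norm η f hb s
    rw [Real.norm_of_nonneg (sq_nonneg _)]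
    refine le_trans ?_ h1
    rw [sq]
    refine mul_le_of_le_one_right (norm_nonneg _) (h1.trans ?_)
    by_cases hs : s ∈ Ioi (0 : ℝ)
    · rw [indicator_of_mem hs]
      have hs0 : 0 < s := hs
      apply Real.exp_le_one_iff.2
      nlinarith
    · rw [indicator_of_notMem hs]
      exact zero_le_one

/-- the Laplace transform on a vertical line -/
noncomputable def Lap (f : ℝ → ℂ) (E η : ℝ) : ℂ :=
  ∫ s in Ioi (0 : ℝ), Complex.exp ((Complex.I * E - η) * s) * f s

theorem fourier_gg (η : ℝ) (f : ℝ → ℂ) (w : ℝ) :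
    𝓕 (gg η f) w = Lap f (-(2 * Real.pi) * w) η := by
  rw [Real.fourier_real_eq_integral_exp_smul]
  unfold Lap
  rw [← integral_indicator measurableSet_Ioi]
  refine integral_congr_ae (Eventually.of_forall fun s => ?_)
  simp only
  unfold gg
  by_cases hs : s ∈ Ioi (0 : ℝ)
  · rw [indicator_of_mem hs, indicator_of_mem hs, smul_eq_mul, ← mul_assoc, Complex.ofReal_exp,
      ← Complex.exp_add]
    congr 2
    push_cast
    ring
  · rw [indicator_of_notMem hs, indicator_of_notMem hs, smul_zero]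

theorem lint_scale (F : ℝ → ℝ≥0∞) (hF : Measurable F) (c : ℝ) (hc : c ≠ 0) :
    ∫⁻ w, F (c * w) = ENNReal.ofReal |c⁻¹| * ∫⁻ E, F E := by
  have h1 := Real.map_volume_mul_left hc
  have h2 : ∫⁻ E, F E ∂(Measure.map (fun x => c * x) volume) = ∫⁻ w, F (c * w) :=
    lintegral_map hF (measurable_const_mul c)
  rw [← h2, h1, lintegral_smul_measure, smul_eq_mul]

theorem Lap_cont (η : ℝ) (hη : 0 < η) (f : ℝ → ℂ) (hf : Continuous f) (hb : ∀ s, ‖f s‖ ≤ 1) :
    Continuous fun E => Lap f E η := by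
  have h1 : Continuous (𝓕 (gg η f)) :=
    VectorFourier.fourierIntegral_continuous Real.continuous_fourierChar
      (by exact continuous_inner) (gg_int η hη f hf hb)
  have h2 : (fun E => Lap f E η) = fun E => 𝓕 (gg η f) (-(2 * Real.pi)⁻¹ * E) := by
    funext E
    rw [fourier_gg]
    congr 1
    have := Real.pi_pos
    field_simp
  rw [h2]
  fun_prop

/-- **Plancherel on a vertical line** -/
theorem planch (η : ℝ) (hη : 0 < η) (f : ℝ → ℂ) (hf : Continuous f) (hb : ∀ s, ‖f s‖ ≤ 1) :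
    ∫⁻ E : ℝ, ‖Lap f E η‖ₑ ^ 2 = ENNReal.ofReal (2 * Real.pi) *
      ∫⁻ s in Ioi (0 : ℝ), ENNReal.ofReal (Real.exp (-(2 * η) * s)) * ‖f s‖ₑ ^ 2 := by
  have h1 := Pool.Agent.TH794.QD.plancherel (gg η f) (gg_int η hη f hf hb) (gg_mem η hη f hf hb)
  have h2 : ∫⁻ s, ‖gg η f s‖ₑ ^ 2 =
      ∫⁻ s in Ioi (0 : ℝ), ENNReal.ofReal (Real.exp (-(2 * η) * s)) * ‖f s‖ₑ ^ 2 := by
    rw [← lintegral_indicator measurableSet_Ioi]
    refine lintegral_congr fun s => ?_
    unfold gg
    by_cases hs : s ∈ Ioi (0 : ℝ)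
    · rw [indicator_of_mem hs, indicator_of_mem hs, enorm_mul, mul_pow]
      congr 1
      rw [← ofReal_norm, Complex.norm_real, Real.norm_of_nonneg (Real.exp_pos _).le,
        ← ENNReal.ofReal_pow (Real.exp_pos _).le, ← Real.exp_nat_mul]
      congr 2
      push_cast
      ring
    · rw [indicator_of_notMem hs, indicator_of_notMem hs]
      simp
  have h3 : ∫⁻ w, ‖𝓕 (gg η f) w‖ₑ ^ 2 = ENNReal.ofReal (2 * Real.pi)⁻¹ *
      ∫⁻ E : ℝ, ‖Lap f E η‖ₑ ^ 2 := by
    have h4 := lint_scale (fun E => ‖Lap f E η‖ₑ ^ 2)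
      ((Lap_cont η hη f hf hb).measurable.enorm.pow_const 2) (-(2 * Real.pi))
      (by have := Real.pi_pos; linarith)
    rw [inv_neg, abs_neg, abs_of_pos (by positivity)] at h4
    rw [← h4]
    exact lintegral_congr fun w => by rw [fourier_gg]
  rw [h3, h2] at h1
  rw [← h1, ← mul_assoc, ← ENNReal.ofReal_mul (by positivity), mul_inv_cancel₀ (by positivity),
    ENNReal.ofReal_one, one_mul]

end Pool.Agent.V11260.QT
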