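import Pool.Agent.V11260.QT.Det

/-! The Laplace transform of bounded observables, deterministic part. -/

set_option autoImplicit false

open MeasureTheory Set Filter
open scoped ENNReal Topology BigOperators

namespace Pool.Agent.V11260.QT

open Pool.Agent.H4R2.LO (Zd)
open Pool.Agent.TH794.QD (Sol La)
open Pool.Agent.TH794.QE (Rs QM)

variable {d : ℕ} {V : Zd d → ℝ} {a : Zd d} {ψ : ℝ → Zd d → ℂ}

/-- a weighted mass -/
noncomputable def Aw (w : Zd d → ℝ) (u : Zd d → ℂ) : ℝ := ∑' x, w x * ‖u x‖ ^ 2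

theorem Aw_sum (w : Zd d → ℝ) (hw0 : ∀ x, 0 ≤ w x) (hw2 : ∀ x, w x ≤ 2) (u : Zd d → ℂ)
    (hu : Summable fun x => ‖u x‖ ^ 2) : Summable fun x => w x * ‖u x‖ ^ 2 := by
  refine Summable.of_nonneg_of_le (fun x => mul_nonneg (hw0 x) (sq_nonneg _)) (fun x => ?_)
    (hu.mul_left 2)
  exact mul_le_mul_of_nonneg_right (hw2 x) (sq_nonneg _)

theorem Aw_nonneg (w : Zd d → ℝ) (hw0 : ∀ x, 0 ≤ w x) (u : Zd d → ℂ) : 0 ≤ Aw w u :=
  tsum_nonneg fun x => mul_nonneg (hw0 x) (sq_nonneg _)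

theorem Aw_le (w : Zd d → ℝ) (hw0 : ∀ x, 0 ≤ w x) (hw2 : ∀ x, w x ≤ 2) (u : Zd d → ℂ)
    (hu : Summable fun x => ‖u x‖ ^ 2) : Aw w u ≤ 2 * Aw (fun _ => 1) u := by
  unfold Aw
  rw [← tsum_mul_left]
  refine (Aw_sum w hw0 hw2 u hu).tsum_le_tsum (fun x => ?_) ((hu.congr fun x => by
    rw [one_mul]).mul_left 2)
  rw [one_mul]
  exact mul_le_mul_of_nonneg_right (hw2 x) (sq_nonneg _)

theorem Aw_enn (w : Zd d → ℝ) (hw0 : ∀ x, 0 ≤ w x) (hw2 : ∀ x, w x ≤ 2) (u : Zd d → ℂ)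
    (hu : Summable fun x => ‖u x‖ ^ 2) :
    ∑' x, ENNReal.ofReal (w x) * ‖u x‖ₑ ^ 2 = ENNReal.ofReal (Aw w u) := by
  unfold Aw
  rw [ENNReal.ofReal_tsum_of_nonneg (fun x => mul_nonneg (hw0 x) (sq_nonneg _))
    (Aw_sum w hw0 hw2 u hu)]
  refine tsum_congr fun x => ?_
  rw [ENNReal.ofReal_mul (hw0 x), ENNReal.ofReal_pow (norm_nonneg _), ofReal_norm]

/-- the observable along the evolution -/
theorem Aw_meas (h : Sol d V a ψ) (w : Zd d → ℝ) (hw0 : ∀ x, 0 ≤ w x) (hw2 : ∀ x, w x ≤ 2) :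
    Measurable fun s => Aw w (ψ s) := by
  have h1 : (fun s => Aw w (ψ s)) =
      fun s => (∑' x, ENNReal.ofReal (w x) * ‖ψ s x‖ₑ ^ 2).toReal := by
    funext s
    rw [Aw_enn w hw0 hw2 _ (h.norm s).summable, ENNReal.toReal_ofReal (Aw_nonneg w hw0 _)]
  rw [h1]
  refine Measurable.ennreal_toReal ?_
  refine Measurable.ennreal_tsum fun x => ?_
  have h2 := (h.cont x).measurable
  exact (h2.enorm.pow_const 2).const_mul _

theorem Aw_one (h : Sol d V a ψ) (s : ℝ) : Aw (fun _ => 1) (ψ s) = 1 := by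
  unfold Aw
  simp only [one_mul]
  exact (h.norm s).tsum_eq

theorem Aw_two (h : Sol d V a ψ) (w : Zd d → ℝ) (hw0 : ∀ x, 0 ≤ w x) (hw2 : ∀ x, w x ≤ 2)
    (s : ℝ) : Aw w (ψ s) ≤ 2 := by
  have h1 := Aw_le w hw0 hw2 (ψ s) (h.norm s).summable
  rw [Aw_one h s] at h1
  linarith

/-- the resolvent as a function of the energy -/
noncomputable def qw (ψ : ℝ → Zd d → ℂ) (c0 η : ℝ) (w : Zd d → ℝ) (E : ℝ) : ℝ :=
  Aw w (fun x => Complex.I * La ψ (c0 - E) η x)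

theorem qw_meas (h : Sol d V a ψ) (c0 η : ℝ) (hη : 0 < η) (w : Zd d → ℝ) (hw0 : ∀ x, 0 ≤ w x)
    (hw2 : ∀ x, w x ≤ 2) : Measurable (qw ψ c0 η w) := by
  have h1 : qw ψ c0 η w = fun E =>
      (∑' x, ENNReal.ofReal (w x) * ‖Complex.I * La ψ (c0 - E) η x‖ₑ ^ 2).toReal := by
    funext E
    unfold qw
    rw [Aw_enn w hw0 hw2 _ (rs_La h (c0 - E) η hη).sq,
      ENNReal.toReal_ofReal (Aw_nonneg w hw0 _)]
  rw [h1]
  refine Measurable.ennreal_toReal ?_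
  refine Measurable.ennreal_tsum fun x => ?_
  have h2 : Measurable fun E => La ψ (c0 - E) η x :=
    (Lap_cont η hη (fun s => ψ s x) (h.cont x) (fun s => h.le_one s x)).measurable.comp
      (measurable_const.sub measurable_id)
  exact ((h2.const_mul Complex.I).enorm.pow_const 2).const_mul _

/-- the Plancherel identity -/
theorem qw_int (h : Sol d V a ψ) (c0 η : ℝ) (hη : 0 < η) (w : Zd d → ℝ) (hw0 : ∀ x, 0 ≤ w x)
    (hw2 : ∀ x, w x ≤ 2) :
    Integrable (qw ψ c0 η w) ∧ IntegrableOn (fun s => Real.exp (-(2 * η) * s) * Aw w (ψ s))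
      (Ioi 0) ∧
    ∫ E, qw ψ c0 η w E = 2 * Real.pi * ∫ s in Ioi (0 : ℝ), Real.exp (-(2 * η) * s) * Aw w (ψ s) := by
  have hA0 : ∀ s, 0 ≤ Real.exp (-(2 * η) * s) * Aw w (ψ s) := fun s =>
    mul_nonneg (Real.exp_pos _).le (Aw_nonneg w hw0 _)
  have hi2 : IntegrableOn (fun s => Real.exp (-(2 * η) * s) * Aw w (ψ s)) (Ioi 0) := by
    refine Integrable.mono' ((exp_int (2 * η) (by positivity)).mul_const 2)
      ((Continuous.aestronglyMeasurable (by fun_prop)).mul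
        (Aw_meas h w hw0 hw2).aestronglyMeasurable) (Eventually.of_forall fun s => ?_)
    rw [Real.norm_of_nonneg (hA0 s)]
    exact mul_le_mul_of_nonneg_left (Aw_two h w hw0 hw2 s) (Real.exp_pos _).le
  have h1 := planch_sum h η hη (fun x => ENNReal.ofReal (w x))
  have h2 : ∀ E, ∑' x, ENNReal.ofReal (w x) * ‖La ψ E η x‖ₑ ^ 2 =
      ENNReal.ofReal (Aw w (fun x => Complex.I * La ψ E η x)) := by
    intro E
    rw [← Aw_enn w hw0 hw2 _ (rs_La h E η hη).sq]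
    refine tsum_congr fun x => ?_
    rw [enorm_mul, show ‖Complex.I‖ₑ = 1 by rw [← ofReal_norm, Complex.norm_I, ENNReal.ofReal_one],
      one_mul]
  have h3 : ∀ s, ∑' x, ENNReal.ofReal (w x) * ‖ψ s x‖ₑ ^ 2 = ENNReal.ofReal (Aw w (ψ s)) :=
    fun s => Aw_enn w hw0 hw2 _ (h.norm s).summable
  simp only [h2, h3] at h1
  simp only [← ENNReal.ofReal_mul (Real.exp_pos _).le] at h1
  rw [← ofReal_integral_eq_lintegral_ofReal hi2 (Eventually.of_forall hA0),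
    ← ENNReal.ofReal_mul (by positivity)] at h1
  have h4 : ∫⁻ E, ENNReal.ofReal (qw ψ c0 η w E) = ENNReal.ofReal (2 * Real.pi *
      ∫ s in Ioi (0 : ℝ), Real.exp (-(2 * η) * s) * Aw w (ψ s)) := by
    rw [← h1]
    exact lintegral_sub_left_eq_self
      (fun E => ENNReal.ofReal (Aw w (fun x => Complex.I * La ψ E η x))) c0
  have hq0 : ∀ E, 0 ≤ qw ψ c0 η w E := fun E => Aw_nonneg w hw0 _
  have hi : Integrable (qw ψ c0 η w) := by
    refine ⟨(qw_meas h c0 η hη w hw0 hw2).aestronglyMeasurable, ?_⟩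
    rw [hasFiniteIntegral_iff_ofReal (Eventually.of_forall hq0), h4]
    exact ENNReal.ofReal_lt_top
  refine ⟨hi, hi2, ?_⟩
  rw [← ofReal_integral_eq_lintegral_ofReal hi (Eventually.of_forall hq0)] at h4
  refine (ENNReal.ofReal_eq_ofReal_iff (integral_nonneg hq0) ?_).1 h4
  exact mul_nonneg (by positivity) (integral_nonneg hA0)

/-- **the Laplace transform of a bounded observable** -/
theorem prof_lap (h : Sol d V a ψ) (c0 η : ℝ) (hη : 0 < η) (w : Zd d → ℝ) (hw0 : ∀ x, 0 ≤ w x)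
    (hw2 : ∀ x, w x ≤ 2) (S Sb : Set ℝ) (hS : MeasurableSet S) (hSb : MeasurableSet Sb)
    (hSS : S ⊆ Sb) (hvol : volume S ≠ ⊤) (D : ℝ) (hD : volume.real S ≤ D) (G0 lw : ℝ → ℝ)
    (hG : IntegrableOn G0 Sb) (hlm : AEStronglyMeasurable lw (volume.restrict Sb))
    (hlw : ∀ E ∈ Sb, 0 ≤ lw E ∧ lw E ≤ 2 * G0 E) (δ ε : ℝ) (hε : 0 ≤ ε)
    (hm1 : Real.pi - δ ≤ ∫ E in S, G0 E) (hm2 : ∫ E in Sb, G0 E ≤ Real.pi)
    (hlaw : ∀ E ∈ S, |η * qw ψ c0 η (fun _ => 1) E - G0 E| ≤ ε ∧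
      |η * qw ψ c0 η w E - lw E| ≤ ε) :
    |2 * η * (∫ s in Ioi (0 : ℝ), Real.exp (-(2 * η) * s) * Aw w (ψ s)) -
      Real.pi⁻¹ * ∫ E in Sb, lw E| ≤ 3 * D * ε + 4 * δ := by
  have hpi := Real.pi_pos
  obtain ⟨i1, -, v1⟩ := qw_int h c0 η hη (fun _ => 1) (fun _ => zero_le_one)
    (fun _ => by norm_num)
  obtain ⟨iw, -, vw⟩ := qw_int h c0 η hη w hw0 hw2
  have hq0 : ∀ E, 0 ≤ qw ψ c0 η w E := fun E => Aw_nonneg w hw0 _
  have hq2 : ∀ E, qw ψ c0 η w E ≤ 2 * qw ψ c0 η (fun _ => 1) E := fun E =>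
    Aw_le w hw0 hw2 _ (rs_La h (c0 - E) η hη).sq
  have hli : IntegrableOn lw Sb := by
    refine Integrable.mono' (hG.const_mul 2) hlm ?_
    filter_upwards [ae_restrict_mem hSb] with E hE
    obtain ⟨a1, a2⟩ := hlw E hE
    rw [Real.norm_of_nonneg a1]
    exact a2
  -- the total mass
  have htot : η * ∫ E, qw ψ c0 η (fun _ => 1) E = Real.pi := by
    rw [v1]
    have e1 : ∫ s in Ioi (0 : ℝ), Real.exp (-(2 * η) * s) * Aw (fun _ => 1) (ψ s) = (2 * η)⁻¹ := by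
      have e2 : ∀ s, Real.exp (-(2 * η) * s) * Aw (fun _ => 1) (ψ s) =
          Real.exp (-(2 * η) * s) := fun s => by rw [Aw_one h s, mul_one]
      simp only [e2]
      exact Pool.Agent.TH794.QD.exp_val (2 * η) (by positivity)
    rw [e1]
    field_simp
  have s1 := integral_add_compl hS i1
  have sw := integral_add_compl hS iw
  -- the regular energies
  have r1 : |η * (∫ E in S, qw ψ c0 η (fun _ => 1) E) - ∫ E in S, G0 E| ≤ ε * D := by
    rw [← integral_const_mul, ← integral_sub (i1.integrableOn.const_mul _) (hG.mono_set hSS),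
      ← Real.norm_eq_abs]
    refine (norm_setIntegral_le_of_norm_le_const (C := ε) (lt_top_iff_ne_top.2 hvol)
      fun E hE => ?_).trans (mul_le_mul_of_nonneg_left hD hε)
    rw [Real.norm_eq_abs]
    exact (hlaw E hE).1
  have rw' : |η * (∫ E in S, qw ψ c0 η w E) - ∫ E in S, lw E| ≤ ε * D := by
    rw [← integral_const_mul, ← integral_sub (iw.integrableOn.const_mul _) (hli.mono_set hSS),
      ← Real.norm_eq_abs]
    refine (norm_setIntegral_le_of_norm_le_const (C := ε) (lt_top_iff_ne_top.2 hvol)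
      fun E hE => ?_).trans (mul_le_mul_of_nonneg_left hD hε)
    rw [Real.norm_eq_abs]
    exact (hlaw E hE).2
  -- the other energies
  have o0 : 0 ≤ ∫ E in Sᶜ, qw ψ c0 η w E := integral_nonneg hq0
  have o1 : ∫ E in Sᶜ, qw ψ c0 η w E ≤ 2 * ∫ E in Sᶜ, qw ψ c0 η (fun _ => 1) E := by
    rw [← integral_const_mul]
    exact setIntegral_mono_on iw.integrableOn (i1.integrableOn.const_mul 2) hS.compl
      fun E _ => hq2 E
  have d1 := integral_inter_add_sdiff (s := Sb) hS hli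
  have d2 := integral_inter_add_sdiff (s := Sb) hS hG
  rw [inter_eq_self_of_subset_right hSS] at d1 d2
  have o2 : 0 ≤ ∫ E in Sb \ S, lw E := by
    refine setIntegral_nonneg (hSb.diff hS) fun E hE => (hlw E hE.1).1
  have o3 : ∫ E in Sb \ S, lw E ≤ 2 * ∫ E in Sb \ S, G0 E := by
    rw [← integral_const_mul]
    exact setIntegral_mono_on (hli.mono_set sdiff_subset) ((hG.mono_set sdiff_subset).const_mul 2)
      (hSb.diff hS) fun E hE => (hlw E hE.1).2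
  have a1 := abs_le.1 r1
  have a2 := abs_le.1 rw'
  have hηo0 : 0 ≤ η * ∫ E in Sᶜ, qw ψ c0 η w E := mul_nonneg hη.le o0
  have hηo1 : η * ∫ E in Sᶜ, qw ψ c0 η w E ≤ 2 * δ + 2 * (ε * D) := by
    have b1 : η * ∫ E in Sᶜ, qw ψ c0 η w E ≤
        2 * (η * ∫ E in Sᶜ, qw ψ c0 η (fun _ => 1) E) := by
      have := mul_le_mul_of_nonneg_left o1 hη.le
      linarith
    have b2 : η * ∫ E in Sᶜ, qw ψ c0 η (fun _ => 1) E = Real.pi -
        η * ∫ E in S, qw ψ c0 η (fun _ => 1) E := by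
      rw [← htot, ← s1]
      ring
    rw [b2] at b1
    linarith [a1.1]
  have hfin : |η * (∫ E, qw ψ c0 η w E) - ∫ E in Sb, lw E| ≤ 3 * D * ε + 4 * δ := by
    rw [← sw, ← d1, mul_add, abs_le]
    constructor
    · nlinarith [a2.1]
    · nlinarith [a2.2]
  have e1 : 2 * η * (∫ s in Ioi (0 : ℝ), Real.exp (-(2 * η) * s) * Aw w (ψ s)) =
      Real.pi⁻¹ * (η * ∫ E, qw ψ c0 η w E) := by
    rw [vw]
    field_simp
  rw [e1, ← mul_sub, abs_mul, abs_of_pos (inv_pos.2 hpi)]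
  have h5 : Real.pi⁻¹ ≤ 1 := inv_le_one_of_one_le₀ (by linarith [Real.pi_gt_three])
  calc Real.pi⁻¹ * |η * (∫ E, qw ψ c0 η w E) - ∫ E in Sb, lw E| ≤
      1 * |η * (∫ E, qw ψ c0 η w E) - ∫ E in Sb, lw E| := by gcongr
    _ ≤ _ := by rw [one_mul]; exact hfin

end Pool.Agent.V11260.QT
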