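import Pool.Agent.V11260.QT.TauF
import Pool.Agent.V11260.QT.Det

/-! The Tauberian theorem for bounded functions; Laplace transforms of mixtures. -/

set_option autoImplicit false

open MeasureTheory Set Filter
open scoped ENNReal Topology

namespace Pool.Agent.V11260.QT

/-- **the Tauberian theorem, bounded functions** -/
theorem tauB (ε : ℝ) (hε : 0 < ε) : ∃ n : ℕ, ∃ δ : ℝ, 0 < δ ∧
    ∀ f : ℝ → ℝ, Measurable f → (∀ s, 0 ≤ f s ∧ f s ≤ 2) → ∀ T : ℝ, 0 < T →
    ∀ l : ℝ → ℝ, Measurable l → (∀ τ, 0 < τ → 0 ≤ l τ ∧ l τ ≤ 2) →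
    (∀ k : ℕ, k ≤ n →
      |((k : ℝ) + 1) / T * (∫ s in Ioi (0 : ℝ), Real.exp (-(((k : ℝ) + 1) / T) * s) * f s) -
        ((k : ℝ) + 1) * ∫ τ in Ioi (0 : ℝ), Real.exp (-((k : ℝ) + 1) * τ) * l τ| ≤ δ) →
    |∫ s in Ioc (0 : ℝ) T, (f s - l (s / T))| ≤ ε * T := by
  obtain ⟨n, δ, hδ, H⟩ := tau 2 ε (by norm_num) hε
  refine ⟨n, δ, hδ, fun f hfm hf T hT l hlm hl hk => ?_⟩
  have hint : ∀ k : ℕ, IntegrableOn (fun s => Real.exp (-(((k : ℝ) + 1) / T) * s) * f s)
      (Ioi 0) := by
    intro k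
    refine Integrable.mono' ((exp_int (((k : ℝ) + 1) / T) (by positivity)).mul_const 2)
      (by fun_prop) (Eventually.of_forall fun s => ?_)
    rw [Real.norm_of_nonneg (mul_nonneg (Real.exp_pos _).le (hf s).1)]
    exact mul_le_mul_of_nonneg_left (hf s).2 (Real.exp_pos _).le
  obtain ⟨m, hm⟩ : ∃ m : ℝ → ℝ, m = fun τ => f (T * τ) := ⟨_, rfl⟩
  have hmx : ∀ τ, m τ = f (T * τ) := fun τ => by rw [hm]
  have hg : ∀ (k : ℕ) (τ : ℝ), Real.exp (-((k : ℝ) + 1) * τ) * m τ =
      (fun s => Real.exp (-(((k : ℝ) + 1) / T) * s) * f s) (T * τ) := by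
    intro k τ
    rw [hmx]
    simp only
    have e1 : -(((k : ℝ) + 1) / T) * (T * τ) = -((k : ℝ) + 1) * τ := by
      field_simp
    rw [e1]
  have hmi : ∀ k : ℕ, IntegrableOn (fun τ => Real.exp (-((k : ℝ) + 1) * τ) * m τ) (Ioi 0) := by
    intro k
    simp only [hg]
    have h1 := (integrableOn_Ioi_comp_mul_left_iff
      (fun s => Real.exp (-(((k : ℝ) + 1) / T) * s) * f s) 0 hT).2 (by
        rw [mul_zero]
        exact hint k)
    exact h1
  have hmv : ∀ k : ℕ, ∫ τ in Ioi (0 : ℝ), Real.exp (-((k : ℝ) + 1) * τ) * m τ =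
      1 / T * ∫ s in Ioi (0 : ℝ), Real.exp (-(((k : ℝ) + 1) / T) * s) * f s := by
    intro k
    simp only [hg]
    have h1 := integral_comp_mul_left_Ioi
      (fun s => Real.exp (-(((k : ℝ) + 1) / T) * s) * f s) 0 hT
    rw [mul_zero] at h1
    rw [h1, smul_eq_mul, one_div]
  have h1 := H m l (fun τ hτ => by
      rw [hmx]
      exact (hf _).1) hmi hlm.aestronglyMeasurable (fun τ hτ => by
      obtain ⟨a1, a2⟩ := hl τ hτ
      refine ⟨a1, ?_⟩
      nlinarith) (fun k hkn => by
      have h2 := hk k hkn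
      rw [hmv k]
      have e1 : ((k : ℝ) + 1) / T * (∫ s in Ioi (0 : ℝ),
          Real.exp (-(((k : ℝ) + 1) / T) * s) * f s) -
          ((k : ℝ) + 1) * ∫ τ in Ioi (0 : ℝ), Real.exp (-((k : ℝ) + 1) * τ) * l τ =
          ((k : ℝ) + 1) * (1 / T * (∫ s in Ioi (0 : ℝ),
          Real.exp (-(((k : ℝ) + 1) / T) * s) * f s) -
          ∫ τ in Ioi (0 : ℝ), Real.exp (-((k : ℝ) + 1) * τ) * l τ) := by ring
      rw [e1, abs_mul, abs_of_pos (by positivity)] at h2
      refine le_trans ?_ h2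
      refine le_mul_of_one_le_left (abs_nonneg _) ?_
      have : (0 : ℝ) ≤ k := Nat.cast_nonneg k
      linarith)
  have e2 : ∫ τ in Ioc (0 : ℝ) 1, m τ = 1 / T * ∫ s in Ioc (0 : ℝ) T, f s := by
    simp only [hmx]
    rw [← intervalIntegral.integral_of_le zero_le_one,
      intervalIntegral.integral_comp_mul_left (fun s => f s) hT.ne', mul_zero, mul_one,
      intervalIntegral.integral_of_le hT.le, smul_eq_mul, one_div]
  have e3 : ∫ s in Ioc (0 : ℝ) T, l (s / T) = T * ∫ τ in Ioc (0 : ℝ) 1, l τ := by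
    rw [← intervalIntegral.integral_of_le hT.le,
      intervalIntegral.integral_comp_div (fun s => l s) hT.ne', zero_div, div_self hT.ne',
      intervalIntegral.integral_of_le zero_le_one, smul_eq_mul]
  have i1 : IntegrableOn f (Ioc 0 T) := by
    refine Integrable.mono' (g := fun _ => (2 : ℝ)) (integrableOn_const (by simp))
      hfm.aestronglyMeasurable (Eventually.of_forall fun s => ?_)
    rw [Real.norm_of_nonneg (hf s).1]
    exact (hf s).2
  have i2 : IntegrableOn (fun s => l (s / T)) (Ioc 0 T) := by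
    refine Integrable.mono' (g := fun _ => (2 : ℝ)) (integrableOn_const (by simp))
      (hlm.comp (measurable_id.div_const T)).aestronglyMeasurable ?_
    filter_upwards [ae_restrict_mem measurableSet_Ioc] with s hs
    obtain ⟨a1, a2⟩ := hl (s / T) (div_pos hs.1 hT)
    rw [Real.norm_of_nonneg a1]
    exact a2
  rw [e2] at h1
  rw [integral_sub i1 i2, e3]
  have e4 : (∫ s in Ioc (0 : ℝ) T, f s) - T * ∫ τ in Ioc (0 : ℝ) 1, l τ =
      T * (1 / T * (∫ s in Ioc (0 : ℝ) T, f s) - ∫ τ in Ioc (0 : ℝ) 1, l τ) := by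
    field_simp
  rw [e4, abs_mul, abs_of_pos hT, mul_comm ε]
  exact mul_le_mul_of_nonneg_left h1 hT.le

section

variable (S : Set ℝ) (g D : ℝ → ℝ)

theorem mix_meas (hgm : Measurable g) (hDm : Measurable D) :
    Measurable fun τ : ℝ => ∫ E in S, g E * (1 + Real.exp (-(τ * D E))) := by
  have h : StronglyMeasurable (Function.uncurry fun (τ E : ℝ) =>
      g E * (1 + Real.exp (-(τ * D E)))) := by
    apply Measurable.stronglyMeasurable
    unfold Function.uncurry
    fun_prop
  exact (h.integral_prod_right (ν := volume.restrict S)).measurable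

theorem mix_lap (hS : MeasurableSet S) (hgm : Measurable g) (hDm : Measurable D)
    (hg : IntegrableOn g S) (hg0 : ∀ E ∈ S, 0 ≤ g E) (hD : ∀ E ∈ S, 0 ≤ D E) (α : ℝ)
    (hα : 0 < α) :
    ∫ τ in Ioi (0 : ℝ), Real.exp (-α * τ) * ∫ E in S, g E * (1 + Real.exp (-(τ * D E))) =
      ∫ E in S, g E * (1 / α + 1 / (α + D E)) := by
  have h1 : ∀ τ : ℝ, Real.exp (-α * τ) * ∫ E in S, g E * (1 + Real.exp (-(τ * D E))) =
      ∫ E in S, Real.exp (-α * τ) * (g E * (1 + Real.exp (-(τ * D E)))) := fun τ => by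
    rw [integral_const_mul]
  simp only [h1]
  have hint : Integrable (Function.uncurry fun (τ E : ℝ) =>
      Real.exp (-α * τ) * (g E * (1 + Real.exp (-(τ * D E)))))
      ((volume.restrict (Ioi (0 : ℝ))).prod (volume.restrict S)) := by
    have h2 : Integrable (fun z : ℝ × ℝ => (Real.exp (-α * z.1)) * (2 * g z.2))
        ((volume.restrict (Ioi (0 : ℝ))).prod (volume.restrict S)) :=
      (exp_int α hα).mul_prod (hg.const_mul 2)
    refine Integrable.mono' h2 ?_ ?_
    · apply Measurable.aestronglyMeasurable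
      unfold Function.uncurry
      fun_prop
    · rw [Measure.prod_restrict]
      filter_upwards [ae_restrict_mem (measurableSet_Ioi.prod hS)] with z hz
      obtain ⟨z1, z2⟩ := hz
      have z1' : 0 < z.1 := z1
      have a1 := hg0 _ z2
      have a2 := hD _ z2
      have a3 : Real.exp (-(z.1 * D z.2)) ≤ 1 := Real.exp_le_one_iff.2 (by
        have := mul_nonneg z1'.le a2
        linarith)
      unfold Function.uncurry
      rw [Real.norm_of_nonneg (by positivity)]
      refine mul_le_mul_of_nonneg_left ?_ (Real.exp_pos _).le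
      calc g z.2 * (1 + Real.exp (-(z.1 * D z.2))) ≤ g z.2 * (1 + 1) := by gcongr
        _ = _ := by ring
  rw [integral_integral_swap hint]
  refine setIntegral_congr_fun hS fun E hE => ?_
  have a2 := hD _ hE
  have e1 : ∀ τ : ℝ, Real.exp (-α * τ) * (g E * (1 + Real.exp (-(τ * D E)))) =
      g E * Real.exp (-α * τ) + g E * Real.exp (-(α + D E) * τ) := by
    intro τ
    have e2 : Real.exp (-(α + D E) * τ) = Real.exp (-α * τ) * Real.exp (-(τ * D E)) := by
      rw [← Real.exp_add]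
      congr 1
      ring
    rw [e2]
    ring
  simp only [e1]
  rw [integral_add ((exp_int α hα).const_mul _) ((exp_int (α + D E) (by linarith)).const_mul _),
    integral_const_mul, integral_const_mul, Pool.Agent.TH794.QD.exp_val α hα,
    Pool.Agent.TH794.QD.exp_val (α + D E) (by linarith)]
  ring

end

end Pool.Agent.V11260.QT
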