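import Pool.Agent.TH794.QE.FinA
import Pool.Agent.V11260.QT.Plan

/-! Plancherel for solutions of the Schrödinger equation. -/

set_option autoImplicit false

open MeasureTheory Set Filter
open scoped ENNReal Topology BigOperators

namespace Pool.Agent.V11260.QT

open Pool.Agent.H4R2.LO (Zd)
open Pool.Agent.TH794.QD (Sol La ew)
open Pool.Agent.TH794.QE (Rs QM)

variable {d : ℕ} {V : Zd d → ℝ} {a : Zd d} {ψ : ℝ → Zd d → ℂ}

theorem La_Lap (ψ : ℝ → Zd d → ℂ) (E t : ℝ) (x : Zd d) :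
    La ψ E t x = Lap (fun s => ψ s x) E t := rfl

/-- **Plancherel** -/
theorem planch_sum (h : Sol d V a ψ) (η : ℝ) (hη : 0 < η) (w : Zd d → ℝ≥0∞) :
    ∫⁻ E : ℝ, ∑' x, w x * ‖La ψ E η x‖ₑ ^ 2 = ENNReal.ofReal (2 * Real.pi) *
      ∫⁻ s in Ioi (0 : ℝ), ENNReal.ofReal (Real.exp (-(2 * η) * s)) *
        ∑' x, w x * ‖ψ s x‖ₑ ^ 2 := by
  have h1 : ∀ x, Measurable fun E => w x * ‖La ψ E η x‖ₑ ^ 2 := fun x =>
    ((Lap_cont η hη (fun s => ψ s x) (h.cont x) (fun s => h.le_one s x)).measurable.enorm.pow_const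
      2).const_mul _
  have h2 : ∀ x, Measurable fun s => w x * (ENNReal.ofReal (Real.exp (-(2 * η) * s)) *
      ‖ψ s x‖ₑ ^ 2) := fun x => by
    have := (h.cont x).measurable
    fun_prop
  rw [lintegral_tsum fun x => (h1 x).aemeasurable]
  have h3 : ∀ s, ENNReal.ofReal (Real.exp (-(2 * η) * s)) * ∑' x, w x * ‖ψ s x‖ₑ ^ 2 =
      ∑' x, w x * (ENNReal.ofReal (Real.exp (-(2 * η) * s)) * ‖ψ s x‖ₑ ^ 2) := by
    intro s
    rw [← ENNReal.tsum_mul_left]
    exact tsum_congr fun x => by ring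
  simp only [h3]
  rw [lintegral_tsum fun x => (h2 x).aemeasurable, ← ENNReal.tsum_mul_left]
  refine tsum_congr fun x => ?_
  have h4 : Measurable fun s => ENNReal.ofReal (Real.exp (-(2 * η) * s)) * ‖ψ s x‖ₑ ^ 2 := by
    have := (h.cont x).measurable
    fun_prop
  rw [lintegral_const_mul _ h4, lintegral_const_mul]
  · have h5 := planch η hη (fun s => ψ s x) (h.cont x) (fun s => h.le_one s x)
    simp only [La_Lap]
    rw [h5]
    ring
  · exact (Lap_cont η hη (fun s => ψ s x) (h.cont x)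
      (fun s => h.le_one s x)).measurable.enorm.pow_const 2

/-- the resolvent at the energy `E` -/
theorem rs_La (h : Sol d V a ψ) (E η : ℝ) (hη : 0 < η) :
    Rs d V a E η (fun x => Complex.I * La ψ E η x) :=
  ⟨Pool.Agent.TH794.QD.La_sum h E η hη, Pool.Agent.TH794.QD.La_eq h E η hη⟩

/-- the mean square displacement -/
noncomputable def msd (a : Zd d) (j : Fin d) (u : Zd d → ℂ) : ℝ≥0∞ :=
  ∑' x, ENNReal.ofReal (((x j : ℝ) - a j) ^ 2) * ‖u x‖ₑ ^ 2

theorem msd_QM (a : Zd d) (j : Fin d) (u : Zd d → ℂ)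
    (hs : Summable fun x => ((x j : ℝ) - a j) ^ 2 * ‖u x‖ ^ 2) :
    msd a j u = ENNReal.ofReal (QM a j u) := by
  unfold msd QM
  rw [ENNReal.ofReal_tsum_of_nonneg (fun x => by positivity) hs]
  refine tsum_congr fun x => ?_
  rw [ENNReal.ofReal_mul (sq_nonneg _), ENNReal.ofReal_pow (norm_nonneg _), ofReal_norm]

theorem planch_msd (h : Sol d V a ψ) (η : ℝ) (hη : 0 < η) (j : Fin d) :
    ∫⁻ E : ℝ, msd a j (fun x => Complex.I * La ψ E η x) = ENNReal.ofReal (2 * Real.pi) *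
      ∫⁻ s in Ioi (0 : ℝ), ENNReal.ofReal (Real.exp (-(2 * η) * s)) * msd a j (ψ s) := by
  unfold msd
  rw [← planch_sum h η hη]
  refine lintegral_congr fun E => tsum_congr fun x => ?_
  rw [enorm_mul]
  congr 2
  rw [← ofReal_norm, Complex.norm_I, ENNReal.ofReal_one, one_mul]

end Pool.Agent.V11260.QT
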