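import Mathlib

/-! A uniform Tauberian theorem for means. -/

set_option autoImplicit false

open MeasureTheory Set Filter
open scoped ENNReal Topology

namespace Pool.Agent.V11260.QT

/-- the ramp -/
noncomputable def rp (δ c x : ℝ) : ℝ := min (max 0 ((x - c) / δ)) 1 * (max x (Real.exp (-1)))⁻¹

theorem rp_cont (δ c : ℝ) : Continuous (rp δ c) := by
  unfold rp
  refine Continuous.mul (by fun_prop) ?_
  refine Continuous.inv₀ (by fun_prop) fun x => ?_
  exact ((Real.exp_pos _).trans_le (le_max_right _ _)).ne'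

theorem rp_nonneg (δ c x : ℝ) : 0 ≤ rp δ c x := by
  unfold rp
  have h1 : 0 < max x (Real.exp (-1)) := (Real.exp_pos _).trans_le (le_max_right _ _)
  have h2 : 0 ≤ min (max 0 ((x - c) / δ)) 1 := le_min (le_max_left _ _) zero_le_one
  positivity

theorem rp_le (δ c x : ℝ) : rp δ c x ≤ Real.exp 1 := by
  unfold rp
  have h1 : Real.exp (-1) ≤ max x (Real.exp (-1)) := le_max_right _ _
  have h2 : min (max 0 ((x - c) / δ)) 1 ≤ 1 := min_le_right _ _
  have h3 : (max x (Real.exp (-1)))⁻¹ ≤ Real.exp 1 := by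
    rw [← inv_inv (Real.exp 1), ← Real.exp_neg]
    exact inv_anti₀ (Real.exp_pos _) h1
  have h4 : 0 ≤ (max x (Real.exp (-1)))⁻¹ := inv_nonneg.2 ((Real.exp_pos _).le.trans h1)
  calc min (max 0 ((x - c) / δ)) 1 * (max x (Real.exp (-1)))⁻¹ ≤
      1 * (max x (Real.exp (-1)))⁻¹ := by gcongr
    _ ≤ _ := by rw [one_mul]; exact h3

/-- the window -/
noncomputable def wd (x : ℝ) : ℝ := (Ici (Real.exp (-1))).indicator (fun x => x⁻¹) x

theorem rp_low (δ x : ℝ) (hδ : 0 < δ) : rp δ (Real.exp (-1)) x ≤ wd x := by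
  unfold rp wd
  by_cases hx : x ∈ Ici (Real.exp (-1))
  · have hx' : Real.exp (-1) ≤ x := hx
    have hx0 := (Real.exp_pos (-1)).trans_le hx'
    rw [indicator_of_mem hx, max_eq_left hx']
    exact mul_le_of_le_one_left (inv_nonneg.2 hx0.le) (min_le_right _ _)
  · have hx' : x < Real.exp (-1) := not_le.1 hx
    rw [indicator_of_notMem hx, max_eq_left (div_nonpos_of_nonpos_of_nonneg (by linarith) hδ.le),
      min_eq_left zero_le_one, zero_mul]

theorem rp_high (δ x : ℝ) (hδ : 0 < δ) : wd x ≤ rp δ (Real.exp (-1) - δ) x := by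
  by_cases hx : x ∈ Ici (Real.exp (-1))
  · have hx' : Real.exp (-1) ≤ x := hx
    unfold rp wd
    rw [indicator_of_mem hx, max_eq_left hx', min_eq_right, one_mul]
    refine le_trans ?_ (le_max_right _ _)
    rw [le_div_iff₀ hδ]
    linarith
  · have h := rp_nonneg δ (Real.exp (-1) - δ) x
    unfold wd
    rw [indicator_of_notMem hx]
    exact h

theorem rp_diff (δ x : ℝ) (hδ : 0 < δ) (hx : δ < |x - Real.exp (-1)|) :
    rp δ (Real.exp (-1) - δ) x = rp δ (Real.exp (-1)) x := by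
  unfold rp
  congr 1
  rcases lt_abs.1 hx with h | h
  · rw [min_eq_right, min_eq_right]
    · refine le_trans ?_ (le_max_right _ _)
      rw [le_div_iff₀ hδ]
      linarith
    · refine le_trans ?_ (le_max_right _ _)
      rw [le_div_iff₀ hδ]
      linarith
  · rw [max_eq_left (div_nonpos_of_nonpos_of_nonneg (by linarith) hδ.le),
      max_eq_left (div_nonpos_of_nonpos_of_nonneg (by linarith) hδ.le)]

/-- the polynomials -/
theorem pol (ε : ℝ) (hε : 0 < ε) (g : ℝ → ℝ) (hg : Continuous g) :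
    ∃ p : Polynomial ℝ, ∀ x ∈ Icc (0 : ℝ) 1, g x ≤ p.eval x ∧ p.eval x ≤ g x + ε := by
  obtain ⟨p, hp⟩ := exists_polynomial_near_of_continuousOn 0 1 (fun x => g x + ε / 2)
    (by fun_prop) (ε / 2) (by linarith)
  refine ⟨p, fun x hx => ?_⟩
  have h := hp x hx
  rw [abs_lt] at h
  constructor <;> linarith [h.1, h.2]


theorem near_one (δ τ : ℝ) (hτ : 0 < τ) (hδ : δ ≤ Real.exp (-1) / 2)
    (h : |Real.exp (-τ) - Real.exp (-1)| ≤ δ) : τ ∈ Icc (1 - 9 * δ) (1 + 9 * δ) := by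
  have he := Real.exp_pos (-1)
  have h1 := abs_le.1 h
  have he2 : Real.exp 2 ≤ 9 := by
    have h3 := Real.exp_one_lt_d9
    have h4 : Real.exp 2 = Real.exp 1 * Real.exp 1 := by rw [← Real.exp_add]; norm_num
    rw [h4]
    nlinarith [Real.exp_pos 1]
  have hd0 : 0 ≤ δ := (abs_nonneg _).trans h
  rcases le_total 1 τ with h1τ | h1τ
  · refine ⟨by linarith, ?_⟩
    have e1 : Real.exp (-1) / 2 ≤ Real.exp (-τ) := by linarith [h1.1]
    have e2 : Real.exp (-1) - Real.exp (-τ) = Real.exp (-τ) * (Real.exp (τ - 1) - 1) := by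
      rw [mul_sub, ← Real.exp_add]
      ring_nf
    have e3 := Real.add_one_le_exp (τ - 1)
    have e4 : Real.exp (-τ) * (τ - 1) ≤ δ := by
      have : Real.exp (-τ) * (τ - 1) ≤ Real.exp (-τ) * (Real.exp (τ - 1) - 1) :=
        mul_le_mul_of_nonneg_left (by linarith) (Real.exp_pos _).le
      linarith [h1.1]
    have e5 : Real.exp (-1) / 2 * (τ - 1) ≤ δ :=
      (mul_le_mul_of_nonneg_right e1 (by linarith)).trans e4
    have e6 : (1 : ℝ) / 3 ≤ Real.exp (-1) := by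
      rw [Real.exp_neg, one_div]
      exact inv_anti₀ (Real.exp_pos _) (by have := Real.exp_one_lt_d9; linarith)
    nlinarith
  · refine ⟨?_, by linarith⟩
    have e2 : Real.exp (-τ) - Real.exp (-1) = Real.exp (-1) * (Real.exp (1 - τ) - 1) := by
      rw [mul_sub, ← Real.exp_add]
      ring_nf
    have e3 := Real.add_one_le_exp (1 - τ)
    have e4 : Real.exp (-1) * (1 - τ) ≤ δ := by
      have : Real.exp (-1) * (1 - τ) ≤ Real.exp (-1) * (Real.exp (1 - τ) - 1) :=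
        mul_le_mul_of_nonneg_left (by linarith) he.le
      linarith [h1.2]
    have e6 : (1 : ℝ) / 3 ≤ Real.exp (-1) := by
      rw [Real.exp_neg, one_div]
      exact inv_anti₀ (Real.exp_pos _) (by have := Real.exp_one_lt_d9; linarith)
    nlinarith

theorem half_int : IntegrableOn (fun τ : ℝ => Real.exp (-(1 / 2) * τ)) (Ioi (0 : ℝ)) :=
  exp_neg_integrableOn_Ioi 0 (by norm_num)

theorem half_val : ∫ τ in Ioi (0 : ℝ), Real.exp (-(1 / 2) * τ) = 2 := by
  have h := integral_exp_mul_Ioi (a := -(1 / 2 : ℝ)) (by norm_num) 0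
  rw [h]
  norm_num

theorem one_add_le (τ : ℝ) (hτ : 0 < τ) :
    Real.exp (-τ) * (1 + τ) ≤ 2 * Real.exp (-(1 / 2) * τ) := by
  have h1 := Real.add_one_le_exp (1 / 2 * τ)
  have h2 : Real.exp (-τ) = Real.exp (-(1 / 2) * τ) * Real.exp (-(1 / 2) * τ) := by
    rw [← Real.exp_add]
    ring_nf
  have h3 : Real.exp (-(1 / 2) * τ) * Real.exp (1 / 2 * τ) = 1 := by
    rw [← Real.exp_add]
    simp
  have h4 := Real.exp_pos (-(1 / 2) * τ)
  rw [h2]
  have h5 : Real.exp (-(1 / 2) * τ) * (1 + τ) ≤ 2 := by nlinarith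
  calc Real.exp (-(1 / 2) * τ) * Real.exp (-(1 / 2) * τ) * (1 + τ) =
      Real.exp (-(1 / 2) * τ) * (Real.exp (-(1 / 2) * τ) * (1 + τ)) := by ring
    _ ≤ Real.exp (-(1 / 2) * τ) * 2 := by gcongr
    _ = _ := by ring

/-- polynomials in the exponential -/
theorem pol_int (p : Polynomial ℝ) (m : ℝ → ℝ)
    (hm : ∀ k : ℕ, IntegrableOn (fun τ => Real.exp (-((k : ℝ) + 1) * τ) * m τ) (Ioi 0)) :
    IntegrableOn (fun τ => Real.exp (-τ) * p.eval (Real.exp (-τ)) * m τ) (Ioi 0) ∧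
    ∫ τ in Ioi (0 : ℝ), Real.exp (-τ) * p.eval (Real.exp (-τ)) * m τ =
      ∑ k ∈ Finset.range (p.natDegree + 1), p.coeff k *
        ∫ τ in Ioi (0 : ℝ), Real.exp (-((k : ℝ) + 1) * τ) * m τ := by
  have e1 : (fun τ => Real.exp (-τ) * p.eval (Real.exp (-τ)) * m τ) = fun τ =>
      ∑ k ∈ Finset.range (p.natDegree + 1), p.coeff k *
        (Real.exp (-((k : ℝ) + 1) * τ) * m τ) := by
    funext τ
    rw [Polynomial.eval_eq_sum_range, Finset.mul_sum, Finset.sum_mul]
    refine Finset.sum_congr rfl fun k _ => ?_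
    rw [← Real.exp_nat_mul]
    have : Real.exp (-((k : ℝ) + 1) * τ) = Real.exp (-τ) * Real.exp (k * -τ) := by
      rw [← Real.exp_add]
      ring_nf
    rw [this]
    ring
  rw [e1]
  refine ⟨integrable_finsetSum _ fun k _ => (hm k).const_mul _, ?_⟩
  rw [integral_finsetSum _ fun k _ => (hm k).const_mul _]
  exact Finset.sum_congr rfl fun k _ => integral_const_mul _ _


theorem wd_eq (τ : ℝ) : Real.exp (-τ) * wd (Real.exp (-τ)) = (Iic (1 : ℝ)).indicator 1 τ := by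
  unfold wd
  by_cases h : τ ≤ 1
  · rw [indicator_of_mem (show Real.exp (-τ) ∈ Ici (Real.exp (-1)) from
      Real.exp_le_exp.2 (by linarith)), indicator_of_mem (show τ ∈ Iic (1 : ℝ) from h),
      mul_inv_cancel₀ (Real.exp_pos _).ne', Pi.one_apply]
  · rw [indicator_of_notMem, indicator_of_notMem, mul_zero]
    · exact h
    · intro h1
      have h2 : Real.exp (-1) ≤ Real.exp (-τ) := h1
      rw [Real.exp_le_exp] at h2
      linarith

theorem wd_int (m : ℝ → ℝ) : ∫ τ in Ioi (0 : ℝ), Real.exp (-τ) * wd (Real.exp (-τ)) * m τ =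
    ∫ τ in Ioc (0 : ℝ) 1, m τ := by
  have h1 : (fun τ => Real.exp (-τ) * wd (Real.exp (-τ)) * m τ) = (Iic (1 : ℝ)).indicator m := by
    funext τ
    rw [wd_eq]
    by_cases h : τ ∈ Iic (1 : ℝ)
    · rw [indicator_of_mem h, indicator_of_mem h, Pi.one_apply, one_mul]
    · rw [indicator_of_notMem h, indicator_of_notMem h, zero_mul]
  rw [h1, setIntegral_indicator measurableSet_Iic, Ioi_inter_Iic]

theorem wd_integrable (m : ℝ → ℝ) (hm : ∀ τ, 0 < τ → 0 ≤ m τ)
    (hi : ∀ k : ℕ, IntegrableOn (fun τ => Real.exp (-((k : ℝ) + 1) * τ) * m τ) (Ioi 0)) :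
    IntegrableOn (fun τ => Real.exp (-τ) * wd (Real.exp (-τ)) * m τ) (Ioi 0) := by
  have h0 := hi 0
  simp only [Nat.cast_zero, zero_add, neg_mul, one_mul] at h0
  have hmm : AEStronglyMeasurable m (volume.restrict (Ioi (0 : ℝ))) := by
    have h1 : m = fun τ => Real.exp τ * (Real.exp (-τ) * m τ) := by
      funext τ
      rw [← mul_assoc, ← Real.exp_add, add_neg_cancel, Real.exp_zero, one_mul]
    rw [h1]
    exact (Real.continuous_exp.aestronglyMeasurable).mul h0.aestronglyMeasurable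
  have hw : AEStronglyMeasurable (fun τ => Real.exp (-τ) * wd (Real.exp (-τ)))
      (volume.restrict (Ioi (0 : ℝ))) := by
    simp only [wd_eq]
    exact (measurable_const.indicator measurableSet_Iic).aestronglyMeasurable
  refine Integrable.mono' (h0.const_mul (Real.exp 1)) (hw.mul hmm) ?_
  filter_upwards [ae_restrict_mem measurableSet_Ioi] with τ hτ
  have hτ0 : 0 < τ := hτ
  rw [wd_eq, Real.norm_eq_abs, abs_mul, abs_of_nonneg (hm τ hτ0), ← mul_assoc]
  refine mul_le_mul_of_nonneg_right ?_ (hm τ hτ0)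
  by_cases h : τ ∈ Iic (1 : ℝ)
  · rw [indicator_of_mem h, Pi.one_apply, abs_one, ← Real.exp_add]
    have h' : τ ≤ 1 := h
    exact Real.one_le_exp (by linarith)
  · rw [indicator_of_notMem h, abs_zero]
    positivity

/-- the error of a polynomial -/
theorem pol_err (C ε δ : ℝ) (hC : 0 ≤ C) (hε : 0 ≤ ε) (hδ0 : 0 ≤ δ)
    (hδ : δ ≤ Real.exp (-1) / 2) (p : Polynomial ℝ)
    (hp : ∀ x ∈ Icc (0 : ℝ) 1, |p.eval x - wd x| ≤
      ε + Real.exp 1 * (Iic δ).indicator 1 |x - Real.exp (-1)|)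
    (l : ℝ → ℝ)
    (hi : ∀ k : ℕ, IntegrableOn (fun τ => Real.exp (-((k : ℝ) + 1) * τ) * l τ) (Ioi 0))
    (hl : ∀ τ, 0 < τ → 0 ≤ l τ ∧ l τ ≤ C * (1 + τ)) :
    |(∫ τ in Ioi (0 : ℝ), Real.exp (-τ) * p.eval (Real.exp (-τ)) * l τ) -
      ∫ τ in Ioc (0 : ℝ) 1, l τ| ≤ C * (4 * ε + 60 * δ) := by
  rw [← wd_int, ← integral_sub (pol_int p l hi).1 (wd_integrable l (fun τ h => (hl τ h).1) hi)]
  have hg : IntegrableOn (fun τ : ℝ => C * (ε * (2 * Real.exp (-(1 / 2) * τ)) +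
      Real.exp 1 * (Icc (1 - 9 * δ) (1 + 9 * δ)).indicator 1 τ)) (Ioi (0 : ℝ)) := by
    refine Integrable.const_mul (Integrable.add ((half_int.const_mul 2).const_mul ε) ?_) C
    refine Integrable.const_mul ?_ _
    refine Integrable.integrableOn ?_
    rw [integrable_indicator_iff measurableSet_Icc]
    exact integrableOn_const (by simp)
  have hb : ∀ᵐ τ ∂(volume.restrict (Ioi (0 : ℝ))),
      ‖Real.exp (-τ) * p.eval (Real.exp (-τ)) * l τ -
        Real.exp (-τ) * wd (Real.exp (-τ)) * l τ‖ ≤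
      C * (ε * (2 * Real.exp (-(1 / 2) * τ)) +
        Real.exp 1 * (Icc (1 - 9 * δ) (1 + 9 * δ)).indicator 1 τ) := by
    filter_upwards [ae_restrict_mem measurableSet_Ioi] with τ hτ
    have hτ0 : 0 < τ := hτ
    obtain ⟨h1, h2⟩ := hl τ hτ0
    have hE := Real.exp_pos (-τ)
    have hE1 : Real.exp (-τ) ≤ 1 := Real.exp_le_one_iff.2 (by linarith)
    have h3 := hp (Real.exp (-τ)) ⟨hE.le, hE1⟩
    rw [← sub_mul, ← mul_sub, Real.norm_eq_abs, abs_mul, abs_mul, abs_of_pos hE, abs_of_nonneg h1]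
    have h4 := one_add_le τ hτ0
    have h5 : Real.exp (-τ) * (1 + τ) ≤ 1 := by
      have := Real.add_one_le_exp τ
      calc Real.exp (-τ) * (1 + τ) ≤ Real.exp (-τ) * Real.exp τ := by
            gcongr
            linarith
        _ = 1 := by rw [← Real.exp_add]; simp
    have h6 : (Iic δ).indicator (1 : ℝ → ℝ) |Real.exp (-τ) - Real.exp (-1)| ≤
        (Icc (1 - 9 * δ) (1 + 9 * δ)).indicator 1 τ := by
      by_cases h : |Real.exp (-τ) - Real.exp (-1)| ≤ δ
      · rw [indicator_of_mem (show |Real.exp (-τ) - Real.exp (-1)| ∈ Iic δ from h),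
          indicator_of_mem (near_one δ τ hτ0 hδ h)]
        simp
      · rw [indicator_of_notMem (show |Real.exp (-τ) - Real.exp (-1)| ∉ Iic δ from h)]
        exact indicator_nonneg (fun _ _ => zero_le_one) _
    have h7 : (0 : ℝ) ≤ (Icc (1 - 9 * δ) (1 + 9 * δ)).indicator 1 τ :=
      indicator_nonneg (fun _ _ => zero_le_one) _
    calc Real.exp (-τ) * |p.eval (Real.exp (-τ)) - wd (Real.exp (-τ))| * l τ ≤
        Real.exp (-τ) * (ε + Real.exp 1 * (Icc (1 - 9 * δ) (1 + 9 * δ)).indicator 1 τ) *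
          (C * (1 + τ)) := by
          gcongr
          refine h3.trans ?_
          gcongr
      _ = C * (ε * (Real.exp (-τ) * (1 + τ)) +
          Real.exp 1 * ((Icc (1 - 9 * δ) (1 + 9 * δ)).indicator 1 τ *
            (Real.exp (-τ) * (1 + τ)))) := by ring
      _ ≤ _ := by
          gcongr
          exact mul_le_of_le_one_right h7 h5
  refine (norm_integral_le_of_norm_le hg hb).trans ?_
  have hgi : IntegrableOn (fun τ : ℝ => Real.exp 1 *
      (Icc (1 - 9 * δ) (1 + 9 * δ)).indicator (1 : ℝ → ℝ) τ) (Ioi (0 : ℝ)) := by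
    refine Integrable.const_mul ?_ _
    refine Integrable.integrableOn ?_
    rw [integrable_indicator_iff measurableSet_Icc]
    exact integrableOn_const (by simp)
  rw [integral_const_mul, integral_add ((half_int.const_mul 2).const_mul ε) hgi,
    integral_const_mul, integral_const_mul, half_val, integral_const_mul]
  refine mul_le_mul_of_nonneg_left ?_ hC
  have h8 : ∫ τ in Ioi (0 : ℝ), (Icc (1 - 9 * δ) (1 + 9 * δ)).indicator (1 : ℝ → ℝ) τ ≤
      18 * δ := by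
    have h9 : ∫ τ in Ioi (0 : ℝ), (Icc (1 - 9 * δ) (1 + 9 * δ)).indicator (1 : ℝ → ℝ) τ ≤
        ∫ τ : ℝ, (Icc (1 - 9 * δ) (1 + 9 * δ)).indicator (1 : ℝ → ℝ) τ := by
      refine setIntegral_le_integral ?_ (Eventually.of_forall fun τ =>
        indicator_nonneg (fun _ _ => zero_le_one) _)
      rw [integrable_indicator_iff measurableSet_Icc]
      exact integrableOn_const (by simp)
    refine h9.trans (le_of_eq ?_)
    rw [integral_indicator measurableSet_Icc]
    simp only [Pi.one_apply, integral_const, MeasurableSet.univ, measureReal_restrict_apply,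
      univ_inter, smul_eq_mul, mul_one]
    rw [Real.volume_real_Icc_of_le (by linarith)]
    ring
  have h10 := Real.exp_one_lt_d9
  have h11 : Real.exp 1 * (∫ τ in Ioi (0 : ℝ), (Icc (1 - 9 * δ) (1 + 9 * δ)).indicator
      (1 : ℝ → ℝ) τ) ≤ 3 * (18 * δ) := by
    refine mul_le_mul (by linarith) h8 ?_ (by norm_num)
    exact integral_nonneg fun τ => indicator_nonneg (fun _ _ => zero_le_one) _
  linarith


theorem l_int (C : ℝ) (l : ℝ → ℝ) (hm : AEStronglyMeasurable l (volume.restrict (Ioi (0 : ℝ))))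
    (hl : ∀ τ, 0 < τ → 0 ≤ l τ ∧ l τ ≤ C * (1 + τ)) (k : ℕ) :
    IntegrableOn (fun τ => Real.exp (-((k : ℝ) + 1) * τ) * l τ) (Ioi 0) := by
  have hC : 0 ≤ C := by
    have h := hl 1 one_pos
    linarith [h.1, h.2]
  refine Integrable.mono' ((half_int.const_mul 2).const_mul C)
    ((Continuous.aestronglyMeasurable (by fun_prop)).mul hm) ?_
  filter_upwards [ae_restrict_mem measurableSet_Ioi] with τ hτ
  have hτ0 : 0 < τ := hτ
  obtain ⟨h1, h2⟩ := hl τ hτ0
  rw [Real.norm_eq_abs, abs_mul, abs_of_pos (Real.exp_pos _), abs_of_nonneg h1]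
  have h3 : Real.exp (-((k : ℝ) + 1) * τ) ≤ Real.exp (-τ) := by
    apply Real.exp_le_exp.2
    have : 0 ≤ (k : ℝ) * τ := by positivity
    linarith
  calc Real.exp (-((k : ℝ) + 1) * τ) * l τ ≤ Real.exp (-τ) * (C * (1 + τ)) := by gcongr
    _ = C * (Real.exp (-τ) * (1 + τ)) := by ring
    _ ≤ _ := mul_le_mul_of_nonneg_left (one_add_le τ hτ0) hC

/-- **a uniform Tauberian theorem** -/
theorem tau (C ε : ℝ) (hC : 0 ≤ C) (hε : 0 < ε) : ∃ n : ℕ, ∃ δ : ℝ, 0 < δ ∧ ∀ m l : ℝ → ℝ,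
    (∀ τ, 0 < τ → 0 ≤ m τ) →
    (∀ k : ℕ, IntegrableOn (fun τ => Real.exp (-((k : ℝ) + 1) * τ) * m τ) (Ioi 0)) →
    AEStronglyMeasurable l (volume.restrict (Ioi (0 : ℝ))) →
    (∀ τ, 0 < τ → 0 ≤ l τ ∧ l τ ≤ C * (1 + τ)) →
    (∀ k : ℕ, k ≤ n → |(∫ τ in Ioi (0 : ℝ), Real.exp (-((k : ℝ) + 1) * τ) * m τ) -
      ∫ τ in Ioi (0 : ℝ), Real.exp (-((k : ℝ) + 1) * τ) * l τ| ≤ δ) →
    |(∫ τ in Ioc (0 : ℝ) 1, m τ) - ∫ τ in Ioc (0 : ℝ) 1, l τ| ≤ ε := by
  obtain ⟨ε1, hε1⟩ : ∃ ε1, ε1 = ε / (16 * (C + 1)) := ⟨_, rfl⟩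
  obtain ⟨δ1, hδ1⟩ : ∃ δ1, δ1 = min (ε / (240 * (C + 1))) (Real.exp (-1) / 2) := ⟨_, rfl⟩
  have hε10 : 0 < ε1 := by rw [hε1]; positivity
  have hδ10 : 0 < δ1 := by rw [hδ1]; exact lt_min (by positivity) (by positivity)
  have hδ1e : δ1 ≤ Real.exp (-1) / 2 := by rw [hδ1]; exact min_le_right _ _
  have hδ1b : δ1 ≤ ε / (240 * (C + 1)) := by rw [hδ1]; exact min_le_left _ _
  have hCe : C * (4 * ε1 + 60 * δ1) ≤ ε / 2 := by
    have h1 : C * (4 * ε1 + 60 * δ1) ≤ C * (4 * ε1 + 60 * (ε / (240 * (C + 1)))) := by gcongr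
    refine h1.trans ?_
    rw [hε1]
    have h2 : C * (4 * (ε / (16 * (C + 1))) + 60 * (ε / (240 * (C + 1)))) =
        (C / (C + 1)) * (ε / 2) := by
      field_simp
      ring
    rw [h2]
    have h3 : C / (C + 1) ≤ 1 := by rw [div_le_one (by linarith)]; linarith
    exact mul_le_of_le_one_left (by linarith) h3
  obtain ⟨p, hp⟩ := pol ε1 hε10 (rp δ1 (Real.exp (-1) - δ1)) (rp_cont _ _)
  obtain ⟨q, hq⟩ := pol ε1 hε10 (fun x => rp δ1 (Real.exp (-1)) x - ε1)
    ((rp_cont _ _).sub continuous_const)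
  have hgap : ∀ x, rp δ1 (Real.exp (-1) - δ1) x - rp δ1 (Real.exp (-1)) x ≤
      Real.exp 1 * (Iic δ1).indicator 1 |x - Real.exp (-1)| := by
    intro x
    by_cases h : |x - Real.exp (-1)| ≤ δ1
    · rw [indicator_of_mem (show |x - Real.exp (-1)| ∈ Iic δ1 from h), Pi.one_apply, mul_one]
      have h1 := rp_le δ1 (Real.exp (-1) - δ1) x
      have h2 := rp_nonneg δ1 (Real.exp (-1)) x
      linarith
    · rw [rp_diff δ1 x hδ10 (not_le.1 h), sub_self]
      exact mul_nonneg (Real.exp_pos _).le (indicator_nonneg (fun _ _ => zero_le_one) _)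
  have hp1 : ∀ x ∈ Icc (0 : ℝ) 1, |p.eval x - wd x| ≤
      ε1 + Real.exp 1 * (Iic δ1).indicator 1 |x - Real.exp (-1)| := by
    intro x hx
    have h1 := hp x hx
    have h2 := rp_high δ1 x hδ10
    have h3 := rp_low δ1 x hδ10
    have h4 := hgap x
    rw [abs_of_nonneg (by linarith [h1.1])]
    linarith [h1.2]
  have hq1 : ∀ x ∈ Icc (0 : ℝ) 1, |q.eval x - wd x| ≤
      ε1 + Real.exp 1 * (Iic δ1).indicator 1 |x - Real.exp (-1)| := by
    intro x hx
    have h1 := hq x hx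
    have h2 := rp_high δ1 x hδ10
    have h3 := rp_low δ1 x hδ10
    have h4 := hgap x
    rw [abs_of_nonpos (by linarith [h1.2])]
    linarith [h1.1]
  obtain ⟨S, hS⟩ : ∃ S, S = (∑ k ∈ Finset.range (p.natDegree + 1), |p.coeff k|) +
      ∑ k ∈ Finset.range (q.natDegree + 1), |q.coeff k| := ⟨_, rfl⟩
  have hSp : ∑ k ∈ Finset.range (p.natDegree + 1), |p.coeff k| ≤ S := by
    rw [hS]
    have : 0 ≤ ∑ k ∈ Finset.range (q.natDegree + 1), |q.coeff k| :=
      Finset.sum_nonneg fun _ _ => abs_nonneg _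
    linarith
  have hSq : ∑ k ∈ Finset.range (q.natDegree + 1), |q.coeff k| ≤ S := by
    rw [hS]
    have : 0 ≤ ∑ k ∈ Finset.range (p.natDegree + 1), |p.coeff k| :=
      Finset.sum_nonneg fun _ _ => abs_nonneg _
    linarith
  have hS0 : 0 ≤ S := (Finset.sum_nonneg fun _ _ => abs_nonneg _).trans hSp
  obtain ⟨δ, hδ⟩ : ∃ δ, δ = ε / (2 * (S + 1)) := ⟨_, rfl⟩
  have hδ0 : 0 < δ := by rw [hδ]; positivity
  have hSδ : S * δ ≤ ε / 2 := by
    rw [hδ]
    have h2 : S * (ε / (2 * (S + 1))) = (S / (S + 1)) * (ε / 2) := by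
      field_simp
    rw [h2]
    have h3 : S / (S + 1) ≤ 1 := by rw [div_le_one (by linarith)]; linarith
    exact mul_le_of_le_one_left (by linarith) h3
  refine ⟨max p.natDegree q.natDegree, δ, hδ0, ?_⟩
  intro m l hm hmi hlm hl hk
  have hli := l_int C l hlm hl
  have hpoly : ∀ r : Polynomial ℝ, r.natDegree ≤ max p.natDegree q.natDegree →
      ∑ k ∈ Finset.range (r.natDegree + 1), |r.coeff k| ≤ S →
      |(∫ τ in Ioi (0 : ℝ), Real.exp (-τ) * r.eval (Real.exp (-τ)) * m τ) -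
        ∫ τ in Ioi (0 : ℝ), Real.exp (-τ) * r.eval (Real.exp (-τ)) * l τ| ≤ ε / 2 := by
    intro r hr hrS
    rw [(pol_int r m hmi).2, (pol_int r l hli).2, ← Finset.sum_sub_distrib]
    refine (Finset.abs_sum_le_sum_abs _ _).trans ?_
    have h1 : ∀ k ∈ Finset.range (r.natDegree + 1),
        |r.coeff k * (∫ τ in Ioi (0 : ℝ), Real.exp (-((k : ℝ) + 1) * τ) * m τ) -
          r.coeff k * ∫ τ in Ioi (0 : ℝ), Real.exp (-((k : ℝ) + 1) * τ) * l τ| ≤
        |r.coeff k| * δ := by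
      intro k hk1
      rw [← mul_sub, abs_mul]
      refine mul_le_mul_of_nonneg_left (hk k ?_) (abs_nonneg _)
      have := Finset.mem_range.1 hk1
      omega
    refine (Finset.sum_le_sum h1).trans ?_
    rw [← Finset.sum_mul]
    exact (mul_le_mul_of_nonneg_right hrS hδ0.le).trans hSδ
  have hP := hpoly p (le_max_left _ _) hSp
  have hQ := hpoly q (le_max_right _ _) hSq
  have eP := pol_err C ε1 δ1 hC hε10.le hδ10.le hδ1e p hp1 l hli hl
  have eQ := pol_err C ε1 δ1 hC hε10.le hδ10.le hδ1e q hq1 l hli hl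
  have mP : ∫ τ in Ioc (0 : ℝ) 1, m τ ≤
      ∫ τ in Ioi (0 : ℝ), Real.exp (-τ) * p.eval (Real.exp (-τ)) * m τ := by
    rw [← wd_int]
    refine setIntegral_mono_on (wd_integrable m hm hmi) (pol_int p m hmi).1 measurableSet_Ioi
      fun τ hτ => ?_
    have hτ0 : 0 < τ := hτ
    have hE := Real.exp_pos (-τ)
    have h1 := hp (Real.exp (-τ)) ⟨hE.le, Real.exp_le_one_iff.2 (by linarith)⟩
    have h2 := rp_high δ1 (Real.exp (-τ)) hδ10
    have h3 := hm τ hτ0
    gcongr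
    linarith [h1.1]
  have mQ : ∫ τ in Ioi (0 : ℝ), Real.exp (-τ) * q.eval (Real.exp (-τ)) * m τ ≤
      ∫ τ in Ioc (0 : ℝ) 1, m τ := by
    rw [← wd_int m]
    refine setIntegral_mono_on (pol_int q m hmi).1 (wd_integrable m hm hmi) measurableSet_Ioi
      fun τ hτ => ?_
    have hτ0 : 0 < τ := hτ
    have hE := Real.exp_pos (-τ)
    have h1 := hq (Real.exp (-τ)) ⟨hE.le, Real.exp_le_one_iff.2 (by linarith)⟩
    have h2 := rp_low δ1 (Real.exp (-τ)) hδ10
    have h3 := hm τ hτ0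
    gcongr
    linarith [h1.2]
  rw [abs_le] at hP hQ eP eQ ⊢
  constructor
  · linarith [hQ.1, eQ.1]
  · linarith [hP.2, eP.2]

end Pool.Agent.V11260.QT
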